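import Pool.Agent.H426Z.Der

/-! The HNN construction: from a group `Q` generated by `x : S → Q`, a group `G1` mapping onto `Q`
with finitely generated kernel, whose fibre product with the free group on `S` is of type `FP_2`
only if the kernel of `F(S) → Q` is finitely normally generated. -/

set_option autoImplicit false
open CategoryTheory

namespace Pool.Agent.H426Z

variable {Q S : Type} [Group Q] (x : S → Q)

/-- the graph of the map from the free group -/
def Cg : Subgroup (FreeGroup S × Q) := ((MonoidHom.id _).prod (FreeGroup.lift x)).range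

/-- the HNN extension centralising the graph -/
abbrev G1 : Type := HNNExtension (FreeGroup S × Q) (Cg x) (Cg x) (MulEquiv.refl _)

/-- inclusion of the base -/
abbrev ofG : FreeGroup S × Q →* G1 x := HNNExtension.of

/-- the stable letter -/
abbrev tG : G1 x := HNNExtension.t

theorem mem_Cg (f : FreeGroup S) : (f, FreeGroup.lift x f) ∈ Cg x := ⟨f, rfl⟩

theorem t_comm (f : FreeGroup S) :
    tG x * ofG x (f, FreeGroup.lift x f) = ofG x (f, FreeGroup.lift x f) * tG x :=
  HNNExtension.t_mul_of (φ := MulEquiv.refl (Cg x)) ⟨_, mem_Cg x f⟩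

/-- the projection onto `Q` -/
noncomputable def pi1 : G1 x →* Q :=
  HNNExtension.lift (MonoidHom.snd _ _) 1 (by intro a; simp)

@[simp] theorem pi1_of (d : FreeGroup S × Q) : pi1 x (ofG x d) = d.2 := by
  simp [pi1]

@[simp] theorem pi1_t : pi1 x (tG x) = 1 := by
  simp [pi1]

theorem pi1_surj : Function.Surjective (pi1 x) := fun q => ⟨ofG x (1, q), by simp⟩

/-- generators of the kernel -/
def kgen : Option S → G1 x
  | none => tG x
  | some s => ofG x (FreeGroup.of s, 1)

theorem of_left_mem (H : Subgroup (G1 x)) (h : ∀ s, ofG x (FreeGroup.of s, 1) ∈ H)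
    (f : FreeGroup S) : ofG x (f, 1) ∈ H := by
  induction f using FreeGroup.induction_on with
  | C1 => exact (by simp : ofG x (1 : FreeGroup S × Q) ∈ H)
  | of s => exact h s
  | inv_of s hs =>
    have := H.inv_mem hs
    rw [← map_inv] at this
    simpa using this
  | mul a b ha hb =>
    have := H.mul_mem ha hb
    rw [← map_mul] at this
    simpa using this

theorem ker_pi1 (hx : Function.Surjective (FreeGroup.lift x)) :
    Subgroup.closure (Set.range (kgen x)) = (pi1 x).ker := by
  set A := Subgroup.closure (Set.range (kgen x)) with hA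
  have ht : tG x ∈ A := Subgroup.subset_closure ⟨none, rfl⟩
  have hf : ∀ f, ofG x (f, 1) ∈ A :=
    of_left_mem x A (fun s => Subgroup.subset_closure ⟨some s, rfl⟩)
  have hconj : ∀ (q : Q) (a : G1 x), a ∈ A → ofG x (1, q) * a * (ofG x (1, q))⁻¹ ∈ A := by
    intro q a ha
    induction ha using Subgroup.closure_induction with
    | mem y hy =>
      obtain ⟨s, rfl⟩ := hy
      cases s with
      | none =>
        obtain ⟨f, rfl⟩ := hx q
        have h1 : ofG x (1, FreeGroup.lift x f) =
            (ofG x (f, 1))⁻¹ * ofG x (f, FreeGroup.lift x f) := by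
          rw [← map_inv, ← map_mul]
          simp
        have h2 : ofG x (1, FreeGroup.lift x f) * kgen x none * (ofG x (1, FreeGroup.lift x f))⁻¹ =
            (ofG x (f, 1))⁻¹ * tG x * ofG x (f, 1) := by
          rw [h1, kgen, mul_assoc _ _ (tG x), ← t_comm]
          group
        rw [h2]
        exact A.mul_mem (A.mul_mem (A.inv_mem (hf f)) ht) (hf f)
      | some s =>
        rw [kgen, ← map_inv, ← map_mul, ← map_mul]
        simpa using hf (FreeGroup.of s)
    | one => simp
    | mul a b _ _ ha hb =>
      have := A.mul_mem ha hb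
      convert this using 1
      group
    | inv a _ ha =>
      have := A.inv_mem ha
      convert this using 1
      group
  have key : ∀ g : G1 x, g * (ofG x (1, pi1 x g))⁻¹ ∈ A := by
    intro g
    induction g using HNNExtension.induction_on with
    | of d =>
      obtain ⟨f, q⟩ := d
      rw [pi1_of, ← map_inv, ← map_mul]
      simpa using hf f
    | t =>
      rw [pi1_t]
      have : ofG x ((1 : FreeGroup S), (1 : Q)) = 1 := map_one _
      rw [this]
      simpa using ht
    | mul a b ha hb =>
      have h1 := A.mul_mem ha (hconj (pi1 x a) _ hb)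
      have h2 : ofG x (1, pi1 x (a * b)) = ofG x (1, pi1 x a) * ofG x (1, pi1 x b) := by
        rw [← map_mul]
        simp
      rw [h2]
      convert h1 using 1
      group
    | inv a ha =>
      have h1 := hconj (pi1 x a)⁻¹ _ (A.inv_mem ha)
      have h2 : ofG x (1, (pi1 x a)⁻¹) = (ofG x (1, pi1 x a))⁻¹ := by
        rw [← map_inv (ofG x)]
        simp
      rw [map_inv, h2]
      rw [h2] at h1
      convert h1 using 1
      group
  apply le_antisymm
  · rw [hA, Subgroup.closure_le]
    rintro _ ⟨s, rfl⟩
    cases s <;> simp [kgen]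
  · intro g hg
    have := key g
    rw [MonoidHom.mem_ker.1 hg] at this
    have h1 : ofG x ((1 : FreeGroup S), (1 : Q)) = 1 := map_one _
    rw [h1] at this
    simpa using this

theorem ker_pi1_fg [Finite S] (hx : Function.Surjective (FreeGroup.lift x)) :
    Group.FG (pi1 x).ker := by
  rw [Group.fg_iff_subgroup_fg, ← ker_pi1 x hx, Subgroup.fg_iff]
  exact ⟨_, rfl, Set.finite_range _⟩

theorem closure_of_surj (hx : Function.Surjective (FreeGroup.lift x)) :
    Subgroup.closure (Set.range x) = ⊤ := by
  rw [← FreeGroup.range_lift_eq_closure]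
  exact MonoidHom.range_eq_top.2 hx

/-- generators of `G1` -/
def ggen : Option S ⊕ S → G1 x
  | .inl s => kgen x s
  | .inr s => ofG x (1, x s)

theorem closure_ggen (hx : Function.Surjective (FreeGroup.lift x)) :
    Subgroup.closure (Set.range (ggen x)) = ⊤ := by
  set H := Subgroup.closure (Set.range (ggen x)) with hH
  have h1 : (pi1 x).ker ≤ H := by
    rw [← ker_pi1 x hx]
    apply Subgroup.closure_mono
    rintro _ ⟨s, rfl⟩
    exact ⟨.inl s, rfl⟩
  have h2 : ∀ q, ofG x (1, q) ∈ H := by
    intro q
    have hq : q ∈ Subgroup.closure (Set.range x) := by rw [closure_of_surj x hx]; trivial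
    induction hq using Subgroup.closure_induction with
    | mem y hy =>
      obtain ⟨s, rfl⟩ := hy
      exact Subgroup.subset_closure ⟨.inr s, rfl⟩
    | one => exact (by simp : ofG x (1 : FreeGroup S × Q) ∈ H)
    | mul a b _ _ ha hb =>
      have := H.mul_mem ha hb
      rw [← map_mul] at this
      simpa using this
    | inv a _ ha =>
      have := H.inv_mem ha
      rw [← map_inv] at this
      simpa using this
  rw [eq_top_iff]
  intro g _
  have h3 : g * (ofG x (1, pi1 x g))⁻¹ ∈ H := h1 (by simp [MonoidHom.mem_ker])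
  have := H.mul_mem h3 (h2 (pi1 x g))
  simpa using this

/-- pushing chains of the Cayley graph of `Q` into that of `G1` -/
noncomputable def push : (Ed Q S →₀ ℤ) →ₗ[ℤ] (Ed (G1 x) (Option S ⊕ S) →₀ ℤ) :=
  Finsupp.lmapDomain ℤ ℤ (fun e => ⟨ofG x (1, e.g), .inr e.s⟩)

@[simp] theorem push_single (q : Q) (s : S) (n : ℤ) :
    push x (Finsupp.single ⟨q, s⟩ n) = Finsupp.single ⟨ofG x (1, q), .inr s⟩ n := by
  simp [push]

theorem of_right_mul (a b : Q) : ofG x (1, a * b) = ofG x (1, a) * ofG x (1, b) := by
  rw [← map_mul]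
  simp

theorem push_perm (q : Q) (z : Ed Q S →₀ ℤ) :
    push x (perm Q _ q z) = perm (G1 x) _ (ofG x (1, q)) (push x z) := by
  induction z using Finsupp.induction_linear with
  | zero => simp
  | add a b ha hb => simp only [map_add, ha, hb]
  | single e n =>
    obtain ⟨a, s⟩ := e
    simp [of_right_mul]

theorem bd_push (z : Ed Q S →₀ ℤ) :
    bd (ggen x) (push x z) = Finsupp.mapDomain (fun q => ofG x (1, q)) (bd x z) := by
  induction z using Finsupp.induction_linear with
  | zero => simp
  | add a b ha hb => simp only [map_add, ha, hb, Finsupp.mapDomain_add]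
  | single e n =>
    obtain ⟨a, s⟩ := e
    rw [push_single, bd_single, bd_single, Finsupp.mapDomain_sub, Finsupp.mapDomain_single,
      Finsupp.mapDomain_single, of_right_mul]
    rfl

/-- relators of `G1` -/
noncomputable def grel {J : Type} (r : J → (Ed Q S →₀ ℤ)) :
    J ⊕ (S × S) ⊕ S → (Ed (G1 x) (Option S ⊕ S) →₀ ℤ)
  | .inl j => push x (r j)
  | .inr (.inl p) =>
      Finsupp.single ⟨1, .inl (some p.1)⟩ 1 + Finsupp.single ⟨ggen x (.inl (some p.1)), .inr p.2⟩ 1
      - (Finsupp.single ⟨1, .inr p.2⟩ 1 + Finsupp.single ⟨ggen x (.inr p.2), .inl (some p.1)⟩ 1)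
  | .inr (.inr s) =>
      Finsupp.single ⟨1, .inl none⟩ 1 + (Finsupp.single ⟨tG x, .inl (some s)⟩ 1 +
        Finsupp.single ⟨tG x * ggen x (.inl (some s)), .inr s⟩ 1)
      - (Finsupp.single ⟨1, .inl (some s)⟩ 1 + Finsupp.single ⟨ggen x (.inl (some s)), .inr s⟩ 1
        + Finsupp.single ⟨ggen x (.inl (some s)) * ggen x (.inr s), .inl none⟩ 1)

theorem ab_comm (s s' : S) : ggen x (.inl (some s)) * ggen x (.inr s') =
    ggen x (.inr s') * ggen x (.inl (some s)) := by
  simp only [ggen, kgen]
  rw [← map_mul, ← map_mul]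
  simp

theorem tab_comm (s : S) : tG x * ggen x (.inl (some s)) * ggen x (.inr s) =
    ggen x (.inl (some s)) * ggen x (.inr s) * tG x := by
  simp only [ggen, kgen]
  rw [mul_assoc, ← map_mul]
  have := t_comm x (FreeGroup.of s)
  simpa using this

theorem commute_of_gen {H : Type} [Group H] (φ : FreeGroup S →* H) (y : H)
    (h : ∀ s, Commute y (φ (FreeGroup.of s))) (f : FreeGroup S) : Commute y (φ f) := by
  induction f using FreeGroup.induction_on with
  | C1 => simp
  | of s => exact h s
  | inv_of s hs =>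
    rw [map_inv]
    exact hs.inv_right
  | mul a b ha hb =>
    rw [map_mul]
    exact ha.mul_right hb

theorem isFP2_G1 [Finite S] {J : Type} [Finite J] (hx : Function.Surjective (FreeGroup.lift x))
    (r : J → (Ed Q S →₀ ℤ)) (hr : ∀ j, bd x (r j) = 0)
    (hker : ∀ z, bd x z = 0 → z ∈ LinearMap.range (rel (G := Q) r)) : IsFP (G1 x) 2 := by
  classical
  have hU : ∀ z, bd x z = 0 → push x z ∈ LinearMap.range (rel (G := G1 x) (grel x r)) := by
    intro z hz
    obtain ⟨w, rfl⟩ := hker z hz
    clear hz
    induction w using Finsupp.induction_linear with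
    | zero => simp
    | add a b ha hb =>
      rw [map_add, map_add]
      exact add_mem ha hb
    | single e n =>
      obtain ⟨q, j⟩ := e
      rw [rel_single, map_smul, push_perm]
      exact Submodule.smul_mem _ _ (rel_inv _ _ (rel_mem (grel x r) (.inl j)))
  choose σ hσ using exists_path x (closure_of_surj x hx)
  let φF : FreeGroup S →* SD (quo (grel x r)) := FreeGroup.lift
    (fun s => ⟨Submodule.Quotient.mk (Finsupp.single ⟨1, .inl (some s)⟩ 1), ggen x (.inl (some s))⟩)
  let φQ : Q →* SD (quo (grel x r)) := MonoidHom.mk'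
    (fun q => ⟨Submodule.Quotient.mk (push x (σ q)), ofG x (1, q)⟩) (by
      intro a b
      ext
      · simp only [SD.mul_l]
        rw [quo_mk, ← Submodule.Quotient.mk_add, Submodule.Quotient.eq, ← push_perm, ← map_add,
          ← map_sub]
        apply hU
        rw [map_sub, map_add, bd_perm, hσ, hσ, hσ]
        simp
      · simp only [SD.mul_r]
        exact of_right_mul x a b)
  have hφF : ∀ s, φF (FreeGroup.of s) =
      ⟨Submodule.Quotient.mk (Finsupp.single ⟨1, .inl (some s)⟩ 1), ggen x (.inl (some s))⟩ := by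
    intro s
    simp [φF]
  have hφQ : ∀ s, φQ (x s) =
      ⟨Submodule.Quotient.mk (Finsupp.single ⟨1, .inr s⟩ 1), ggen x (.inr s)⟩ := by
    intro s
    ext
    · change Submodule.Quotient.mk (push x (σ (x s))) = Submodule.Quotient.mk _
      have h1 : (Finsupp.single ⟨1, .inr s⟩ 1 : Ed (G1 x) (Option S ⊕ S) →₀ ℤ) =
          push x (Finsupp.single ⟨1, s⟩ 1) := by
        rw [push_single]
        have : ofG x ((1 : FreeGroup S), (1 : Q)) = 1 := map_one _
        rw [this]
      rw [h1, Submodule.Quotient.eq, ← map_sub]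
      apply hU
      rw [map_sub, hσ]
      simp
    · rfl
  have hc : ∀ f q, Commute (φF f) (φQ q) := by
    intro f q
    obtain ⟨f', rfl⟩ := hx q
    apply commute_of_gen (φQ.comp (FreeGroup.lift x))
    intro s'
    apply Commute.symm
    apply commute_of_gen φF
    intro s
    apply Commute.symm
    rw [MonoidHom.comp_apply, hφF, FreeGroup.lift_apply_of, hφQ]
    ext
    · simp only [SD.mul_l]
      rw [quo_mk, quo_mk, ← Submodule.Quotient.mk_add, ← Submodule.Quotient.mk_add,
        Submodule.Quotient.eq]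
      have := rel_mem (G := G1 x) (grel x r) (.inr (.inl (s, s')))
      simpa [grel] using this
    · exact ab_comm x s s'
  let φD : FreeGroup S × Q →* SD (quo (grel x r)) := φF.noncommCoprod φQ hc
  let τ : SD (quo (grel x r)) := ⟨Submodule.Quotient.mk (Finsupp.single ⟨1, .inl none⟩ 1), tG x⟩
  have hτ : ∀ f, Commute τ (φD (f, FreeGroup.lift x f)) := by
    intro f
    apply commute_of_gen (φD.comp ((MonoidHom.id _).prod (FreeGroup.lift x)))
    intro s
    have h1 : (φD.comp ((MonoidHom.id _).prod (FreeGroup.lift x))) (FreeGroup.of s) =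
        φF (FreeGroup.of s) * φQ (x s) := by
      simp [φD]
    rw [h1, hφF, hφQ]
    ext
    · simp only [SD.mul_l, SD.mul_r, τ]
      rw [quo_mk, ← Submodule.Quotient.mk_add, quo_mk, quo_mk, ← Submodule.Quotient.mk_add,
        ← Submodule.Quotient.mk_add, Submodule.Quotient.eq]
      have := rel_mem (G := G1 x) (grel x r) (.inr (.inr s))
      simpa [grel] using this
    · simp only [SD.mul_r, τ]
      rw [← mul_assoc]
      exact tab_comm x s
  let Φ : G1 x →* SD (quo (grel x r)) := HNNExtension.lift φD τ (by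
    rintro ⟨_, f, rfl⟩
    exact hτ f)
  have hΦt : Φ (tG x) = τ := by simp [Φ]
  have hΦo : ∀ d, Φ (ofG x d) = φF d.1 * φQ d.2 := by
    intro d
    simp [Φ, φD]
  refine isFP2_of_hom (ggen x) (closure_ggen x hx) (grel x r) ?_ Φ ?_ ?_
  · rintro (j | ⟨s, s'⟩ | s)
    · rw [grel, bd_push, hr, Finsupp.mapDomain_zero]
    · simp only [grel, map_sub, map_add, bd_single, one_mul]
      rw [ab_comm]
      abel
    · simp only [grel, map_sub, map_add, bd_single, one_mul]
      rw [tab_comm]
      simp only [ggen, kgen]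
      abel
  · intro g
    have h1 : SD.right.comp φF = (ofG x).comp (MonoidHom.inl _ _) := by
      ext s
      simp [hφF, ggen, kgen]
    have : SD.right.comp Φ = MonoidHom.id _ := by
      apply HNNExtension.hom_ext
      · apply MonoidHom.ext
        rintro ⟨f, q⟩
        simp only [MonoidHom.comp_apply, MonoidHom.id_apply]
        rw [hΦo, map_mul]
        have h2 := DFunLike.congr_fun h1 f
        simp only [MonoidHom.comp_apply] at h2
        rw [h2]
        change ofG x (f, 1) * ofG x (1, q) = _
        rw [← map_mul]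
        simp
      · simp only [MonoidHom.comp_apply, MonoidHom.id_apply]
        rw [hΦt]
        rfl
    exact DFunLike.congr_fun this g
  · rintro ((_ | s) | s)
    · change (Φ (tG x)).l = _
      rw [hΦt]
    · change (Φ (ofG x (FreeGroup.of s, 1))).l = _
      rw [hΦo]
      simp [hφF]
    · change (Φ (ofG x (1, x s))).l = _
      rw [hΦo]
      simp [hφQ]

/-- the fibre product -/
noncomputable abbrev PP : Subgroup (G1 x × FreeGroup S) :=
  ((pi1 x).comp (MonoidHom.fst (G1 x) (FreeGroup S))).eqLocus
    ((FreeGroup.lift x).comp (MonoidHom.snd (G1 x) (FreeGroup S)))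

theorem mem_PP (p : G1 x × FreeGroup S) : p ∈ PP x ↔ pi1 x p.1 = FreeGroup.lift x p.2 := Iff.rfl

theorem not_isFP2_PP [Finite S] (hx : Function.Surjective (FreeGroup.lift x))
    (N : ℕ → Subgroup (FreeGroup S)) (hN : Monotone N) (hn : ∀ m, (N m).Normal)
    (h1 : ∀ f, FreeGroup.lift x f = 1 → ∃ m, f ∈ N m)
    (h2 : ∀ m, ∃ f, FreeGroup.lift x f = 1 ∧ f ∉ N m) : ¬ IsFP (PP x) 2 := by
  classical
  haveI := Fintype.ofFinite S
  intro hP
  let C' : Subgroup (G1 x) := (Cg x).map (ofG x)
  let pr : PP x →* G1 x := (MonoidHom.fst _ _).comp (PP x).subtype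
  let ρ1 := perm (G1 x) (G1 x ⧸ C')
  let κ0 : FreeGroup S × Q →* SD ρ1 := MonoidHom.mk' (fun d => ⟨0, ofG x d⟩) (by
    intro a b
    ext <;> simp)
  let κ : G1 x →* SD ρ1 := HNNExtension.lift κ0
    ⟨Finsupp.single ((1 : G1 x) : G1 x ⧸ C') 1, tG x⟩ (by
      rintro ⟨_, f, rfl⟩
      ext1
      · simp only [SD.mul_l, κ0, MonoidHom.mk'_apply, map_zero, add_zero, zero_add, ρ1,
          perm_single]
        congr 1
        change _ = ((_ * 1 : G1 x) : G1 x ⧸ C')
        rw [QuotientGroup.eq]
        simp only [inv_one, one_mul, mul_one]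
        exact Subgroup.mem_map_of_mem _ (mem_Cg x f)
      · exact t_comm x f)
  have hκr : ∀ g, (κ g).r = g := by
    intro g
    have : SD.right.comp κ = MonoidHom.id _ := by
      apply HNNExtension.hom_ext
      · apply MonoidHom.ext
        intro d
        simp [κ, κ0]
      · simp [κ]
    exact DFunLike.congr_fun this g
  let ψ : PP x → G1 x ⧸ C' := fun p => (pr p : G1 x ⧸ C')
  have hψ : Function.Surjective ψ := by
    intro y
    obtain ⟨g, rfl⟩ := QuotientGroup.mk_surjective y
    obtain ⟨f, hf⟩ := hx (pi1 x g)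
    exact ⟨⟨(g, f), hf.symm⟩, rfl⟩
  obtain ⟨Z, D', hZ, hD, hdef⟩ := der_lift hP (ρ1.comp pr) (perm (PP x) (PP x))
    (Finsupp.lmapDomain ℤ ℤ ψ) (by
      intro g y
      induction y using Finsupp.induction_linear with
      | zero => simp
      | add a b ha hb => simp only [map_add, ha, hb]
      | single p n =>
        simp only [perm_single, Finsupp.lmapDomain_apply, Finsupp.mapDomain_single,
          MonoidHom.comp_apply, ρ1]
        rfl) (Finsupp.mapDomain_surjective hψ) (fun p => (κ (pr p)).l) (by
      intro g h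
      simp only [map_mul, SD.mul_l, hκr, MonoidHom.comp_apply])
  let E : ℕ → Subgroup (PP x) := fun m =>
    { carrier := {p | ∃ f, p.1.1 = ofG x (f, FreeGroup.lift x f) ∧ f * p.1.2⁻¹ ∈ N m}
      one_mem' := ⟨1, by
        have : ofG x ((1 : FreeGroup S), (1 : Q)) = 1 := map_one _
        simp [this], by simp⟩
      mul_mem' := by
        rintro a b ⟨f, hf, hf'⟩ ⟨g, hg, hg'⟩
        refine ⟨f * g, ?_, ?_⟩
        · change a.1.1 * b.1.1 = _
          rw [hf, hg, ← map_mul]
          simp
        · change f * g * (a.1.2 * b.1.2)⁻¹ ∈ N m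
          have := (N m).mul_mem ((hn m).conj_mem _ hg' f) hf'
          convert this using 1
          group
      inv_mem' := by
        rintro a ⟨f, hf, hf'⟩
        refine ⟨f⁻¹, ?_, ?_⟩
        · change a.1.1⁻¹ = _
          rw [hf, ← map_inv]
          simp
        · change f⁻¹ * (a.1.2⁻¹)⁻¹ ∈ N m
          have := (hn m).conj_mem _ ((N m).inv_mem hf') f⁻¹
          convert this using 1
          group }
  have hE : Monotone E := by
    rintro m m' hm p ⟨f, hf, hf'⟩
    exact ⟨f, hf, hN hm hf'⟩
  have hfib : ∀ p p', ψ p = ψ p' → ∃ m, p⁻¹ * p' ∈ E m := by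
    intro p p' h
    obtain ⟨_, ⟨f, rfl⟩, hf⟩ := QuotientGroup.eq.1 h
    have hf2 : (p⁻¹ * p').1.1 = ofG x (f, FreeGroup.lift x f) := hf.symm
    have hq := (mem_PP x _).1 (p⁻¹ * p').2
    rw [hf2, pi1_of] at hq
    obtain ⟨m, hm⟩ := h1 (f * (p⁻¹ * p').1.2⁻¹) (by
      rw [map_mul, map_inv, ← hq]
      simp)
    exact ⟨m, f, hf2, hm⟩
  let a : FreeGroup S →* PP x := MonoidHom.mk'
    (fun f => ⟨(ofG x (f, 1), 1), by simp [mem_PP]⟩) (by
      intro f g
      apply Subtype.ext
      apply Prod.ext
      · change _ = ofG x (f, 1) * ofG x (g, 1)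
        rw [← map_mul]
        simp
      · simp)
  let tP : PP x := ⟨(tG x, 1), by simp [mem_PP]⟩
  let W : Finset (PP x →₀ ℤ) := Z ∪ Finset.univ.image (fun s => D' (a (FreeGroup.of s))) ∪
    {D' tP - Finsupp.single 1 1}
  have hW : ∀ w : PP x →₀ ℤ, ∃ m0, w ∈ W → ∀ m, m0 ≤ m →
      Finsupp.mapDomain (fun p : PP x => (p : PP x ⧸ E m)) w = 0 := by
    intro w
    by_cases hw : w ∈ W
    · obtain ⟨m0, hm0⟩ := die ψ E hE hfib w (by
        simp only [W, Finset.mem_union, Finset.mem_image, Finset.mem_singleton] at hw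
        rcases hw with (hw | ⟨s, -, rfl⟩) | rfl
        · exact hZ w hw
        · have := hD (a (FreeGroup.of s))
          rw [Finsupp.lmapDomain_apply] at this
          rw [this]
          change (κ (ofG x (FreeGroup.of s, 1))).l = 0
          simp [κ, κ0]
        · have := hD tP
          rw [Finsupp.lmapDomain_apply] at this
          rw [Finsupp.mapDomain_sub, this, Finsupp.mapDomain_single]
          change (κ (tG x)).l - _ = 0
          simp only [κ, HNNExtension.lift_t]
          exact sub_self _)
      exact ⟨m0, fun _ => hm0⟩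
    · exact ⟨0, fun h => absurd h hw⟩
  choose μ hμ using hW
  let m := W.sup μ
  have hm : ∀ w ∈ W, Finsupp.mapDomain (fun p : PP x => (p : PP x ⧸ E m)) w = 0 :=
    fun w hw => hμ w hw m (Finset.le_sup hw)
  let q : (PP x →₀ ℤ) →ₗ[ℤ] (PP x ⧸ E m →₀ ℤ) :=
    Finsupp.lmapDomain ℤ ℤ (fun p : PP x => (p : PP x ⧸ E m))
  have hq : ∀ g y, q (perm _ _ g y) = perm (PP x) _ g (q y) := by
    intro g y
    induction y using Finsupp.induction_linear with
    | zero => simp
    | add a b ha hb => simp only [map_add, ha, hb]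
    | single p n =>
      simp only [perm_single, Finsupp.lmapDomain_apply, Finsupp.mapDomain_single, q]
      rfl
  have hδ : ∀ g h, q (D' (g * h)) = q (D' g) + perm (PP x) _ g (q (D' h)) := by
    intro g h
    have h3 : Submodule.span ℤ (Set.range (fun p : PP x × Z =>
        perm (PP x) (PP x) p.1 (p.2 : PP x →₀ ℤ))) ≤ LinearMap.ker q := by
      rw [Submodule.span_le]
      rintro _ ⟨⟨g, z⟩, rfl⟩
      change q _ = 0
      rw [hq]
      have : q z = 0 := hm z (by simp [W])
      rw [this, map_zero]
    have h4 := h3 (hdef g h)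
    rw [LinearMap.mem_ker, map_sub, map_sub, hq] at h4
    rw [sub_sub, sub_eq_zero] at h4
    exact h4
  have hδ1 : q (D' 1) = 0 := by
    have := hδ 1 1
    simpa using this
  have hδa : ∀ f, q (D' (a f)) = 0 := by
    intro f
    induction f using FreeGroup.induction_on with
    | C1 => rw [map_one, hδ1]
    | of s => exact hm _ (by simp [W])
    | inv_of s hs =>
      have := hδ (a (FreeGroup.of s)⁻¹) (a (FreeGroup.of s))
      rw [← map_mul, inv_mul_cancel, map_one, hδ1, hs] at this
      simpa using this.symm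
    | mul f g hf hg => rw [map_mul, hδ, hf, hg]; simp
  have hδt : q (D' tP) = Finsupp.single ((1 : PP x) : PP x ⧸ E m) 1 := by
    have : q (D' tP - Finsupp.single 1 1) = 0 := hm _ (by simp [W])
    rw [map_sub, sub_eq_zero] at this
    rw [this]
    simp [q]
  obtain ⟨f, hf1, hf2⟩ := h2 m
  have hcomm : a f * tP = tP * a f := by
    apply Subtype.ext
    apply Prod.ext
    · change ofG x (f, 1) * tG x = tG x * ofG x (f, 1)
      have := t_comm x f
      rw [hf1] at this
      exact this.symm
    · rfl
  have h5 := hδ (a f) tP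
  rw [hcomm, hδ, hδa, hδt, map_zero, add_zero, zero_add, perm_single] at h5
  have h6 := Finsupp.single_left_injective one_ne_zero h5
  have h7 : ((1 : PP x) : PP x ⧸ E m) = ((a f * 1 : PP x) : PP x ⧸ E m) := h6
  rw [QuotientGroup.eq] at h7
  obtain ⟨f', hf', hf''⟩ := h7
  apply hf2
  have h8 : ofG x (f, 1) = ofG x (f', FreeGroup.lift x f') := by
    rw [← hf']
    simp [a]
  have h9 := congrArg Prod.fst (HNNExtension.of_injective _ h8)
  simp only at h9
  subst h9
  simpa [a] using hf''

end Pool.Agent.H426Z
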