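import Pool.Agent.H426Z.Res

/-! Derivations: lifting them along surjections for groups of type `FP_2`, and a criterion for
type `FP_2` through Cayley graphs. -/

set_option autoImplicit false
open CategoryTheory CategoryTheory.Limits

namespace Pool.Agent.H426Z

section lift
variable {G : Type} [Group G]

theorem der_lin {M : Type} [AddCommGroup M] (ρ : Representation ℤ G M) (D : G → M)
    (hD : ∀ g h, D (g * h) = D g + ρ g (D h)) (g : G) (x : G →₀ ℤ) :
    Finsupp.linearCombination ℤ D (perm G G g x) =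
      aug G x • D g + ρ g (Finsupp.linearCombination ℤ D x) := by
  induction x using Finsupp.induction_linear with
  | zero => simp
  | add a b ha hb =>
    simp only [map_add, ha, hb, add_smul]
    abel
  | single s n => simp [hD, smul_add]

attribute [local instance 10000] Rep.hV2

theorem der_lift (hG : IsFP G 2) {M N : Type} [AddCommGroup M] [AddCommGroup N]
    (ρ : Representation ℤ G M) (σ : Representation ℤ G N) (p : N →ₗ[ℤ] M)
    (hp : ∀ g y, p (σ g y) = ρ g (p y)) (hs : Function.Surjective p) (D : G → M)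
    (hD : ∀ g h, D (g * h) = D g + ρ g (D h)) :
    ∃ (Z : Finset N) (D' : G → N), (∀ z ∈ Z, p z = 0) ∧ (∀ g, p (D' g) = D g) ∧
      ∀ g h, D' (g * h) - D' g - σ g (D' h) ∈
        Submodule.span ℤ (Set.range (fun q : G × Z => σ q.1 (q.2 : N))) := by
  classical
  obtain ⟨R, hR⟩ := hG
  obtain ⟨s, hs2⟩ := hR 2 le_rfl
  let e : Rep.of (perm G G) ⟶ Rep.trivial ℤ G ℤ := Rep.ofHom ⟨aug G, fun g => by
    apply Finsupp.lhom_ext'
    intro s
    ext
    simp⟩
  haveI : Epi e := (Rep.epi_iff_surjective e).2 (fun n =>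
    ⟨Finsupp.single 1 n, aug_single _ _⟩)
  let π0 : R.complex.X 0 ⟶ Rep.trivial ℤ G ℤ := R.π.f 0
  have hπ0 : Epi π0 := inferInstanceAs (Epi (R.π.f 0))
  have hd0 : R.complex.d 1 0 ≫ π0 = 0 := R.complex_d_comp_π_f_zero
  have ex0 := (rep_exact_iff _ _ hd0).1 R.exact₀
  have ex1 := (rep_exact_iff _ _ _).1 (R.exact_succ 0)
  let α := Projective.factorThru π0 e
  have hα : ∀ y, aug G (α.hom y) = π0.hom y := fun y => by
    have := congrArg (fun f => f.hom y) (Projective.factorThru_comp π0 e)
    exact this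
  let d1 := R.complex.d 1 0
  let d2 := R.complex.d 2 1
  have hd1 : ∀ y, π0.hom (d1.hom y) = 0 := fun y => by
    have := congrArg (fun f => f.hom y) hd0
    exact this
  have hd2 : ∀ y, d1.hom (d2.hom y) = 0 := fun y => by
    have := congrArg (fun f => f.hom y) (R.complex.d_comp_d 2 1 0)
    exact this
  let φ := Finsupp.linearCombination ℤ D
  let f : R.complex.X 1 ⟶ Rep.of ρ := Rep.ofHom (X := (R.complex.X 1).V) (ρ := (R.complex.X 1).ρ)
    ⟨φ ∘ₗ α.hom.toLinearMap ∘ₗ d1.hom.toLinearMap, fun g => by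
      ext y
      change φ (α.hom (d1.hom ((R.complex.X 1).ρ g y))) = ρ g (φ (α.hom (d1.hom y)))
      rw [Rep.hom_comm_apply, Rep.hom_comm_apply]
      change φ (perm G G g _) = _
      rw [der_lin ρ D hD, hα, hd1]
      simp [φ]⟩
  have hf : ∀ y, f.hom y = φ (α.hom (d1.hom y)) := fun y => rfl
  let P : Rep.of σ ⟶ Rep.of ρ := Rep.ofHom ⟨p, fun g => by ext y; exact hp g y⟩
  haveI : Epi P := (Rep.epi_iff_surjective P).2 hs
  let F := Projective.factorThru f P
  have hF : ∀ y, p (F.hom y) = φ (α.hom (d1.hom y)) := fun y => by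
    have := congrArg (fun f => f.hom y) (Projective.factorThru_comp f P)
    exact this
  have hFe : ∀ g y, F.hom ((R.complex.X 1).ρ g y) = σ g (F.hom y) := fun g y =>
    Rep.hom_comm_apply F g y
  obtain ⟨u, hu⟩ := (Rep.epi_iff_surjective π0).1 hπ0 (1 : ℤ)
  obtain ⟨m, hm⟩ := hs (φ (α.hom u))
  have hy : ∀ g : G, ∃ y, d1.hom y = (R.complex.X 0).ρ g u - u := by
    intro g
    apply ex0
    rw [map_sub, Rep.hom_comm_apply]
    simp
  choose y hy using hy
  refine ⟨s.image (fun z => F.hom (d2.hom z)), fun g => F.hom (y g) - σ g m + m, ?_, ?_, ?_⟩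
  · intro z hz
    obtain ⟨w, -, rfl⟩ := Finset.mem_image.1 hz
    rw [hF, hd2]
    simp
  · intro g
    rw [map_add, map_sub, hF, hy, hp, hm, map_sub, Rep.hom_comm_apply, map_sub]
    change φ (perm G G g _) - _ - _ + _ = _
    rw [der_lin ρ D hD, hα, hu]
    simp only [φ, one_smul]
    abel
  · intro g h
    have h1 : d1.hom (y (g * h) - y g - (R.complex.X 1).ρ g (y h)) = 0 := by
      rw [map_sub, map_sub, Rep.hom_comm_apply, hy, hy, hy, map_sub, map_mul,
        Module.End.mul_apply]
      abel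
    obtain ⟨x, hx⟩ := ex1 _ h1
    have h2 : F.hom (y (g * h)) - σ (g * h) m + m - (F.hom (y g) - σ g m + m) -
        σ g (F.hom (y h) - σ h m + m) = F.hom (d2.hom x) := by
      change _ = F.hom ((R.complex.d (0 + 2) (0 + 1)).hom x)
      rw [hx, map_sub, map_sub, hFe, map_add, map_sub, map_mul, Module.End.mul_apply]
      abel
    rw [h2]
    have hx2 := hs2 x
    clear hx h2
    induction hx2 using Submodule.span_induction with
    | mem x hx =>
      obtain ⟨⟨g', z⟩, rfl⟩ := hx
      refine Submodule.subset_span ⟨(g', ⟨_, Finset.mem_image_of_mem _ z.2⟩), ?_⟩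
      simp only
      rw [Rep.hom_comm_apply, hFe]
    | zero => simp
    | add a b _ _ ha hb =>
      rw [map_add, map_add]
      exact add_mem ha hb
    | smul n a _ ha =>
      rw [map_zsmul, map_zsmul]
      exact Submodule.smul_mem _ _ ha

end lift

/-- an element dying in the limit dies at a finite stage -/
theorem die {P Y : Type} [Group P] (ψ : P → Y) (E : ℕ → Subgroup P) (hE : Monotone E)
    (h : ∀ p p', ψ p = ψ p' → ∃ m, p⁻¹ * p' ∈ E m) (x : P →₀ ℤ)
    (hx : Finsupp.mapDomain ψ x = 0) :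
    ∃ m0, ∀ m, m0 ≤ m → Finsupp.mapDomain (fun p : P => (p : P ⧸ E m)) x = 0 := by
  classical
  have h' : ∀ q : P × P, ∃ m, ψ q.1 = ψ q.2 → q.1⁻¹ * q.2 ∈ E m := by
    intro q
    by_cases hq : ψ q.1 = ψ q.2
    · obtain ⟨m, hm⟩ := h _ _ hq
      exact ⟨m, fun _ => hm⟩
    · exact ⟨0, fun h => absurd h hq⟩
  choose μ hμ using h'
  refine ⟨(x.support ×ˢ x.support).sup μ, fun m hm => ?_⟩
  let lam : Y → P ⧸ E m := fun y =>
    if hy : ∃ p ∈ x.support, ψ p = y then (hy.choose : P ⧸ E m) else ((1 : P) : P ⧸ E m)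
  have h1 : Finsupp.mapDomain (fun p : P => (p : P ⧸ E m)) x =
      Finsupp.mapDomain (lam ∘ ψ) x := by
    apply Finsupp.mapDomain_congr
    intro p hp
    have hy : ∃ p' ∈ x.support, ψ p' = ψ p := ⟨p, hp, rfl⟩
    simp only [Function.comp, lam, dif_pos hy]
    symm
    rw [QuotientGroup.eq]
    apply hE (le_trans _ hm) (hμ (hy.choose, p) hy.choose_spec.2)
    exact Finset.le_sup (f := μ) (Finset.mem_product.2 ⟨hy.choose_spec.1, hp⟩)
  rw [h1, Finsupp.mapDomain_comp, hx, Finsupp.mapDomain_zero]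

/-- semidirect product of a module with the acting group -/
@[ext] structure SD {G M : Type} [Group G] [AddCommGroup M] (ρ : Representation ℤ G M) where
  l : M
  r : G

namespace SD
variable {G M : Type} [Group G] [AddCommGroup M] {ρ : Representation ℤ G M}

noncomputable instance : Mul (SD ρ) := ⟨fun a b => ⟨a.l + ρ a.r b.l, a.r * b.r⟩⟩
instance : One (SD ρ) := ⟨⟨0, 1⟩⟩
noncomputable instance : Inv (SD ρ) := ⟨fun a => ⟨- ρ a.r⁻¹ a.l, a.r⁻¹⟩⟩

@[simp] theorem mul_l (a b : SD ρ) : (a * b).l = a.l + ρ a.r b.l := rfl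
@[simp] theorem mul_r (a b : SD ρ) : (a * b).r = a.r * b.r := rfl
@[simp] theorem one_l : (1 : SD ρ).l = 0 := rfl
@[simp] theorem one_r : (1 : SD ρ).r = 1 := rfl
@[simp] theorem inv_l (a : SD ρ) : (a⁻¹).l = - ρ a.r⁻¹ a.l := rfl
@[simp] theorem inv_r (a : SD ρ) : (a⁻¹).r = a.r⁻¹ := rfl

noncomputable instance : Group (SD ρ) where
  mul_assoc a b c := by
    ext
    · simp [add_assoc]
    · simp [mul_assoc]
  one_mul a := by ext <;> simp
  mul_one a := by ext <;> simp
  inv_mul_cancel a := by ext <;> simp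

/-- projection to the group -/
noncomputable def right : SD ρ →* G where
  toFun a := a.r
  map_one' := rfl
  map_mul' _ _ := rfl

@[simp] theorem right_apply (a : SD ρ) : right a = a.r := rfl

end SD

/-- a free `G`-set with basis `S` -/
@[ext] structure Ed (G S : Type) where
  g : G
  s : S

section cay
variable {G : Type} [Group G] {S J : Type}

instance : MulAction G (Ed G S) where
  smul h e := ⟨h * e.g, e.s⟩
  one_smul e := by
    change Ed.mk (1 * e.g) e.s = e
    rw [one_mul]
  mul_smul a b e := by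
    change Ed.mk (a * b * e.g) e.s = Ed.mk (a * (b * e.g)) e.s
    rw [mul_assoc]

@[simp] theorem Ed.smul_mk (h g : G) (s : S) : h • (Ed.mk g s) = Ed.mk (h * g) s := rfl

theorem freeFin_Ed [Finite S] : FreeFin G (Ed G S) := by
  classical
  haveI := Fintype.ofFinite S
  refine ⟨fun g e h => ?_, Finset.univ.image (fun s => Ed.mk 1 s), fun e => ?_⟩
  · obtain ⟨a, s⟩ := e
    have := congrArg Ed.g h
    simpa using this
  · exact ⟨e.g, Ed.mk 1 e.s, Finset.mem_image_of_mem _ (Finset.mem_univ _), by simp⟩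

theorem freeFin_self : FreeFin G G :=
  ⟨fun g s h => by simpa using h, {1}, fun s => ⟨s, 1, by simp, by simp⟩⟩

/-- the boundary map of the Cayley graph -/
noncomputable def bd (x : S → G) : (Ed G S →₀ ℤ) →ₗ[ℤ] (G →₀ ℤ) :=
  Finsupp.linearCombination ℤ
    (fun e => Finsupp.single (e.g * x e.s) 1 - Finsupp.single e.g 1)

@[simp] theorem bd_single (x : S → G) (g : G) (s : S) (n : ℤ) :
    bd x (Finsupp.single ⟨g, s⟩ n) = Finsupp.single (g * x s) n - Finsupp.single g n := by
  simp [bd, smul_sub]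

theorem bd_perm (x : S → G) (g : G) (z : Ed G S →₀ ℤ) :
    bd x (perm G _ g z) = perm G G g (bd x z) := by
  induction z using Finsupp.induction_linear with
  | zero => simp
  | add a b ha hb => simp only [map_add, ha, hb]
  | single e n =>
    obtain ⟨a, s⟩ := e
    simp [mul_assoc]

/-- the equivariant map sending a basis to given elements -/
noncomputable def rel {T : Type} [MulAction G T] (r : J → (T →₀ ℤ)) :
    (Ed G J →₀ ℤ) →ₗ[ℤ] (T →₀ ℤ) :=
  Finsupp.linearCombination ℤ (fun e => perm G T e.g (r e.s))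

@[simp] theorem rel_single {T : Type} [MulAction G T] (r : J → (T →₀ ℤ)) (g : G) (j : J) (n : ℤ) :
    rel r (Finsupp.single ⟨g, j⟩ n) = n • perm G T g (r j) := by
  simp [rel]

theorem rel_perm {T : Type} [MulAction G T] (r : J → (T →₀ ℤ)) (g : G) (z : Ed G J →₀ ℤ) :
    rel r (perm G _ g z) = perm G T g (rel r z) := by
  induction z using Finsupp.induction_linear with
  | zero => simp
  | add a b ha hb => simp only [map_add, ha, hb]
  | single e n =>
    obtain ⟨a, s⟩ := e
    simp

theorem rel_mem {T : Type} [MulAction G T] (r : J → (T →₀ ℤ)) (j : J) :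
    r j ∈ LinearMap.range (rel (G := G) r) :=
  ⟨Finsupp.single ⟨1, j⟩ 1, by simp⟩

theorem rel_inv {T : Type} [MulAction G T] (r : J → (T →₀ ℤ)) (g : G) :
    LinearMap.range (rel (G := G) r) ≤ (LinearMap.range (rel (G := G) r)).comap (perm G T g) := by
  rintro _ ⟨z, rfl⟩
  exact ⟨perm G _ g z, rel_perm r g z⟩

theorem exists_path (x : S → G) (hx : Subgroup.closure (Set.range x) = ⊤) (g : G) :
    ∃ z, bd x z = Finsupp.single g 1 - Finsupp.single 1 1 := by
  have hg : g ∈ Subgroup.closure (Set.range x) := by rw [hx]; trivial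
  induction hg using Subgroup.closure_induction with
  | mem y hy =>
    obtain ⟨s, rfl⟩ := hy
    exact ⟨Finsupp.single ⟨1, s⟩ 1, by simp⟩
  | one => exact ⟨0, by simp⟩
  | mul a b _ _ ha hb =>
    obtain ⟨za, ha⟩ := ha
    obtain ⟨zb, hb⟩ := hb
    refine ⟨za + perm G _ a zb, ?_⟩
    rw [map_add, bd_perm, ha, hb]
    simp
  | inv a _ ha =>
    obtain ⟨za, ha⟩ := ha
    refine ⟨- perm G _ a⁻¹ za, ?_⟩
    rw [map_neg, bd_perm, ha]
    simp

theorem exact_zero (x : S → G) (hx : Subgroup.closure (Set.range x) = ⊤) (y : G →₀ ℤ)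
    (hy : aug G y = 0) : ∃ z, bd x z = y := by
  have key : ∀ y : G →₀ ℤ, ∃ z, bd x z = y - Finsupp.single 1 (aug G y) := by
    intro y
    induction y using Finsupp.induction_linear with
    | zero => exact ⟨0, by simp⟩
    | add a b ha hb =>
      obtain ⟨za, ha⟩ := ha
      obtain ⟨zb, hb⟩ := hb
      refine ⟨za + zb, ?_⟩
      rw [map_add, ha, hb, map_add, Finsupp.single_add]
      abel
    | single g n =>
      obtain ⟨z, hz⟩ := exists_path x hx g
      refine ⟨n • z, ?_⟩
      rw [map_smul, hz]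
      simp [smul_sub]
  obtain ⟨z, hz⟩ := key y
  exact ⟨z, by simpa [hy] using hz⟩

/-- the quotient of the edge module by the relators -/
noncomputable abbrev quo (r : J → (Ed G S →₀ ℤ)) :
    Representation ℤ G ((Ed G S →₀ ℤ) ⧸ LinearMap.range (rel (G := G) r)) :=
  (perm G (Ed G S)).quotient _ (rel_inv r)

theorem quo_mk (r : J → (Ed G S →₀ ℤ)) (g : G) (z : Ed G S →₀ ℤ) :
    quo r g (Submodule.Quotient.mk z) = Submodule.Quotient.mk (perm G _ g z) := rfl

theorem isFP2_of_hom [Finite S] [Finite J] (x : S → G)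
    (hx : Subgroup.closure (Set.range x) = ⊤) (r : J → (Ed G S →₀ ℤ))
    (hr : ∀ j, bd x (r j) = 0) (Φ : G →* SD (quo r)) (h1 : ∀ g, (Φ g).r = g)
    (h2 : ∀ s, (Φ (x s)).l = Submodule.Quotient.mk (Finsupp.single ⟨1, s⟩ 1)) : IsFP G 2 := by
  refine (isFP_of_explicit freeFin_self freeFin_Ed freeFin_Ed (bd x) (rel r) (bd_perm x)
    (rel_perm r) ?_ ?_ (exact_zero x hx) ?_).1
  · intro z
    induction z using Finsupp.induction_linear with
    | zero => simp
    | add a b ha hb => simp only [map_add, ha, hb, add_zero]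
    | single e n =>
      obtain ⟨a, s⟩ := e
      simp
  · intro z
    induction z using Finsupp.induction_linear with
    | zero => simp
    | add a b ha hb => simp only [map_add, ha, hb, add_zero]
    | single e n =>
      obtain ⟨a, s⟩ := e
      simp [bd_perm, hr]
  · intro y hy
    have key : ∀ z : Ed G S →₀ ℤ,
        Finsupp.linearCombination ℤ (fun g => (Φ g).l) (bd x z) = Submodule.Quotient.mk z := by
      intro z
      induction z using Finsupp.induction_linear with
      | zero => simp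
      | add a b ha hb => simp only [map_add, ha, hb, Submodule.Quotient.mk_add]
      | single e n =>
        obtain ⟨a, s⟩ := e
        rw [bd_single, map_sub, Finsupp.linearCombination_single, Finsupp.linearCombination_single,
          map_mul, SD.mul_l, h1, h2, quo_mk, perm_single, Ed.smul_mk, mul_one, smul_add,
          add_sub_cancel_left, ← Submodule.Quotient.mk_smul, Finsupp.smul_single, smul_eq_mul,
          mul_one]
    have := key y
    rw [hy, map_zero, eq_comm, Submodule.Quotient.mk_eq_zero] at this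
    exact this

theorem isFP2_free [Finite S] : IsFP (FreeGroup S) 2 := by
  let r : Empty → (Ed (FreeGroup S) S →₀ ℤ) := fun _ => 0
  let Φ : FreeGroup S →* SD (quo r) := FreeGroup.lift
    (fun s => ⟨Submodule.Quotient.mk (Finsupp.single ⟨1, s⟩ 1), FreeGroup.of s⟩)
  refine isFP2_of_hom FreeGroup.of (FreeGroup.closure_range_of S) r (fun j => j.elim) Φ ?_ ?_
  · intro g
    have : SD.right.comp Φ = MonoidHom.id _ := by
      ext s
      simp [Φ]
    exact DFunLike.congr_fun this g
  · intro s
    simp [Φ]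

end cay

end Pool.Agent.H426Z
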