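import Pool.Agent.H426Z.Slab
import Pool.Agent.H426Z.Der

/-! The Bestvina-Brady group of an acyclic flag complex of dimension two: an explicit finite free
resolution. -/

set_option autoImplicit false

namespace Pool.Agent.H426Z

open Finset

variable {V : Type} (Γ : SimpleGraph V) (v0 : V)

/-- the Bestvina-Brady group -/
abbrev BB : Type := (chi Γ).ker

theorem mem_BB (g : AG Γ) : g ∈ (chi Γ).ker ↔ ht Γ g = 0 := by
  rw [MonoidHom.mem_ker, ht]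
  exact toAdd_eq_zero.symm

@[simp] theorem ht_BB (q : BB Γ) : ht Γ q.1 = 0 := (mem_BB Γ _).1 q.2

/-- projection to height zero -/
def pj (g : AG Γ) : BB Γ := ⟨g * (gen Γ v0) ^ (- ht Γ g), by rw [mem_BB]; simp⟩

theorem pj_mul (q : BB Γ) (g : AG Γ) : pj Γ v0 (q.1 * g) = q * pj Γ v0 g := by
  apply Subtype.ext
  simp [pj, mul_assoc]

theorem pj_coe (q : BB Γ) : pj Γ v0 q.1 = q := by
  apply Subtype.ext
  simp [pj]

theorem pj_pow (q : BB Γ) (j : ℕ) : pj Γ v0 (q.1 * gen Γ v0 ^ j) = q := by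
  apply Subtype.ext
  simp [pj]

theorem pj_back (g : AG Γ) (j : ℕ) (h : ht Γ g = j) : (pj Γ v0 g).1 * gen Γ v0 ^ j = g := by
  simp [pj, h]

/-- the generators -/
def xg (s : Fin 2 × V) : BB Γ := pj Γ v0 (gen Γ v0 ^ (s.1 : ℕ) * gen Γ s.2)

/-- edges of the Cayley graph as edges of the slab -/
def ph1 (e : Ed (BB Γ) (Fin 2 × V)) : Cell Γ := (e.g.1 * gen Γ v0 ^ (e.s.1 : ℕ), {e.s.2})

open Classical in
/-- an element of a finite set -/
noncomputable def pick (σ : Finset V) : V := if h : σ.Nonempty then h.choose else v0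

theorem pick_single (v : V) : pick v0 {v} = v := by
  unfold pick
  rw [dif_pos (singleton_nonempty v)]
  exact mem_singleton.1 (singleton_nonempty v).choose_spec

/-- edges of the slab as edges of the Cayley graph -/
noncomputable def ps1 (c : Cell Γ) : Ed (BB Γ) (Fin 2 × V) :=
  ⟨pj Γ v0 c.1, (if ht Γ c.1 = 0 then 0 else 1, pick v0 c.2)⟩

theorem ps1_ph1 (e : Ed (BB Γ) (Fin 2 × V)) : ps1 Γ v0 (ph1 Γ v0 e) = e := by
  obtain ⟨q, j, v⟩ := e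
  simp only [ps1, ph1, pj_pow, pick_single]
  fin_cases j <;> simp

theorem ph1_mem (e : Ed (BB Γ) (Fin 2 × V)) : ph1 Γ v0 e ∈ SlabK Γ 1 := by
  obtain ⟨q, j, v⟩ := e
  refine ⟨⟨by simp [ph1, Clq], ?_, ?_⟩, by simp [ph1]⟩
  · fin_cases j <;> simp [ph1]
  · fin_cases j <;> simp [ph1]

theorem ph1_ps1 {c : Cell Γ} (h : c ∈ SlabK Γ 1) : ph1 Γ v0 (ps1 Γ v0 c) = c := by
  obtain ⟨b, σ⟩ := c
  obtain ⟨⟨-, h1, h2⟩, h3⟩ := h
  obtain ⟨v, rfl⟩ := card_eq_one.1 h3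
  simp only [card_singleton, Nat.cast_one] at h1 h2
  simp only [ps1, ph1, pick_single, Prod.mk.injEq, and_true]
  apply pj_back
  split_ifs with h
  · simp [h]
  · simp
    omega

/-- the linear maps -/
noncomputable def Ph1 : (Ed (BB Γ) (Fin 2 × V) →₀ ℤ) →ₗ[ℤ] (Cell Γ →₀ ℤ) :=
  Finsupp.lmapDomain ℤ ℤ (ph1 Γ v0)

/-- the linear maps -/
noncomputable def Ps1 : (Cell Γ →₀ ℤ) →ₗ[ℤ] (Ed (BB Γ) (Fin 2 × V) →₀ ℤ) :=
  Finsupp.lmapDomain ℤ ℤ (ps1 Γ v0)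

/-- collapsing vertices to height zero -/
noncomputable def al0 : (Cell Γ →₀ ℤ) →ₗ[ℤ] (BB Γ →₀ ℤ) :=
  Finsupp.lmapDomain ℤ ℤ (fun c => pj Γ v0 c.1)

/-- vertices of height zero -/
noncomputable def be0 : (BB Γ →₀ ℤ) →ₗ[ℤ] (Cell Γ →₀ ℤ) :=
  Finsupp.lmapDomain ℤ ℤ (fun q => (q.1, ∅))

theorem Ph1_single (e : Ed (BB Γ) (Fin 2 × V)) (n : ℤ) :
    Ph1 Γ v0 (Finsupp.single e n) = Finsupp.single (ph1 Γ v0 e) n := by simp [Ph1]

theorem Ps1_single (c : Cell Γ) (n : ℤ) :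
    Ps1 Γ v0 (Finsupp.single c n) = Finsupp.single (ps1 Γ v0 c) n := by simp [Ps1]

theorem al0_single (c : Cell Γ) (n : ℤ) :
    al0 Γ v0 (Finsupp.single c n) = Finsupp.single (pj Γ v0 c.1) n := by simp [al0]

theorem be0_single (q : BB Γ) (n : ℤ) :
    be0 Γ (Finsupp.single q n) = Finsupp.single (q.1, ∅) n := by simp [be0]

theorem Ps1_Ph1 (z : Ed (BB Γ) (Fin 2 × V) →₀ ℤ) : Ps1 Γ v0 (Ph1 Γ v0 z) = z := by
  refine map_eq_of_supp (s := Set.univ) (Ps1 Γ v0 ∘ₗ Ph1 Γ v0) LinearMap.id ?_ (by simp)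
  intro e _
  simp only [LinearMap.comp_apply, Ph1_single, Ps1_single, ps1_ph1, LinearMap.id_apply]

theorem Ph1_Ps1 {y : Cell Γ →₀ ℤ} (hy : y ∈ Finsupp.supported ℤ ℤ (SlabK Γ 1)) :
    Ph1 Γ v0 (Ps1 Γ v0 y) = y := by
  refine map_eq_of_supp (Ph1 Γ v0 ∘ₗ Ps1 Γ v0) LinearMap.id ?_ hy
  intro e he
  simp only [LinearMap.comp_apply, Ph1_single, Ps1_single, ph1_ps1 Γ v0 he, LinearMap.id_apply]

theorem Ph1_mem (z : Ed (BB Γ) (Fin 2 × V) →₀ ℤ) :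
    Ph1 Γ v0 z ∈ Finsupp.supported ℤ ℤ (SlabK Γ 1) := by
  refine map_mem_of_supp (s := Set.univ) _ _ ?_ (by simp)
  intro e _
  rw [Ph1_single]
  exact Finsupp.single_mem_supported _ _ (ph1_mem Γ v0 e)

variable [LinearOrder V]

theorem cb_vertex (b : AG Γ) : cb Γ (Finsupp.single (b, ∅) 1) = 0 := by
  rw [cb_single]
  simp

theorem cb_edge (b : AG Γ) (v : V) : cb Γ (Finsupp.single (b, {v}) 1) =
    Finsupp.single (b * gen Γ v, ∅) 1 - Finsupp.single (b, ∅) 1 := by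
  rw [cb_single, sum_singleton, erase_singleton]
  simp [sgn, filter_singleton]

theorem cb_slabK (k : ℕ) {y : Cell Γ →₀ ℤ} (hy : y ∈ Finsupp.supported ℤ ℤ (SlabK Γ (k + 1))) :
    cb Γ y ∈ Finsupp.supported ℤ ℤ (SlabK Γ k) := by
  refine map_mem_of_supp _ _ ?_ hy
  rintro ⟨b, σ⟩ ⟨⟨h1, h2, h3⟩, h4⟩
  rw [cb_single]
  apply Submodule.sum_mem
  intro v hv
  have h5 := card_erase_add_one hv
  simp only at h1 h2 h3 h4
  apply Submodule.smul_mem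
  apply sub_mem
  · refine Finsupp.single_mem_supported _ _ ⟨⟨Clq.mono Γ h1 (erase_subset _ _), ?_, ?_⟩, ?_⟩
    all_goals simp only [ht_mul, ht_gen]
    all_goals omega
  · refine Finsupp.single_mem_supported _ _ ⟨⟨Clq.mono Γ h1 (erase_subset _ _), ?_, ?_⟩, ?_⟩
    all_goals simp only
    all_goals omega

theorem bd_eq (z : Ed (BB Γ) (Fin 2 × V) →₀ ℤ) :
    bd (xg Γ v0) z = al0 Γ v0 (cb Γ (Ph1 Γ v0 z)) := by
  refine map_eq_of_supp (s := Set.univ) (bd (xg Γ v0)) (al0 Γ v0 ∘ₗ cb Γ ∘ₗ Ph1 Γ v0) ?_ (by simp)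
  rintro ⟨q, j, v⟩ -
  simp only [LinearMap.comp_apply, Ph1_single, ph1, cb_edge, map_sub, al0_single, bd_single,
    pj_pow, xg]
  rw [mul_assoc, pj_mul]

/-- the squares at height zero -/
abbrev Sq : Type := {σ : Finset V // Clq Γ σ ∧ σ.card = 2}

/-- the relators -/
noncomputable def rB : Sq Γ ⊕ Fin 2 → (Ed (BB Γ) (Fin 2 × V) →₀ ℤ)
  | .inl σ => Ps1 Γ v0 (cb Γ (Finsupp.single (1, σ.1) 1))
  | .inr j => Finsupp.single ⟨1, (j, v0)⟩ 1

omit [LinearOrder V] in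
theorem sq_mem (q : BB Γ) (σ : Sq Γ) : (q.1, σ.1) ∈ SlabK Γ 2 :=
  ⟨⟨σ.2.1, by simp [σ.2.2], by simp⟩, σ.2.2⟩

theorem perm_rB_inl (q : BB Γ) (σ : Sq Γ) :
    perm (BB Γ) _ q (rB Γ v0 (.inl σ)) = Ps1 Γ v0 (cb Γ (Finsupp.single (q.1, σ.1) 1)) := by
  have key : ∀ (b : AG Γ) (τ : Finset V),
      perm (BB Γ) _ q (Ps1 Γ v0 (Finsupp.single (b, τ) 1)) =
        Ps1 Γ v0 (Finsupp.single (q.1 * b, τ) 1) := by
    intro b τ
    rw [Ps1_single, Ps1_single, perm_single]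
    simp [ps1, pj_mul]
  simp only [rB, cb_single, map_sum, map_smul, map_sub, key, mul_one, one_mul]

theorem bd_rB (j : Sq Γ ⊕ Fin 2) : bd (xg Γ v0) (rB Γ v0 j) = 0 := by
  rcases j with σ | j
  · have h : Finsupp.single ((1, σ.1) : Cell Γ) (1 : ℤ) ∈ _ :=
      Finsupp.single_mem_supported ℤ (1 : ℤ) (sq_mem Γ 1 σ)
    rw [bd_eq, rB, Ph1_Ps1 Γ v0 (cb_slabK Γ 1 h), cb_cb_single Γ _ _ σ.2.1, map_zero]
  · have : xg Γ v0 (j, v0) = 1 := by
      have := pj_pow Γ v0 1 (j + 1)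
      rw [pow_succ] at this
      simpa [xg] using this
    simp [rB, this]

theorem vert_mem (q : BB Γ) (j : Fin 2) : (Finsupp.single ⟨q, (j, v0)⟩ 1 :
    Ed (BB Γ) (Fin 2 × V) →₀ ℤ) ∈ LinearMap.range (rel (G := BB Γ) (rB Γ v0)) :=
  ⟨Finsupp.single ⟨q, .inr j⟩ 1, by simp [rB]⟩

theorem collapse {c : Cell Γ →₀ ℤ} (hc : c ∈ Finsupp.supported ℤ ℤ (SlabK Γ 0)) :
    c - be0 Γ (al0 Γ v0 c) ∈
      (LinearMap.range (rel (G := BB Γ) (rB Γ v0))).map (cb Γ ∘ₗ Ph1 Γ v0) := by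
  refine map_mem_of_supp (LinearMap.id - be0 Γ ∘ₗ al0 Γ v0) _ ?_ hc
  rintro ⟨b, σ⟩ ⟨⟨-, h2, h3⟩, h4⟩
  simp only [card_eq_zero] at h4
  subst h4
  simp only [card_empty, Nat.cast_zero, add_zero] at h2 h3
  simp only [LinearMap.sub_apply, LinearMap.id_apply, LinearMap.comp_apply, al0_single, be0_single]
  have h5 : ht Γ b = 0 ∨ ht Γ b = 1 ∨ ht Γ b = 2 := by omega
  rcases h5 with h | h | h
  · have := pj_back Γ v0 b 0 h
    rw [pow_zero, mul_one] at this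
    rw [this, sub_self]
    exact zero_mem _
  · have := pj_back Γ v0 b 1 h
    refine ⟨_, vert_mem Γ v0 (pj Γ v0 b) 0, ?_⟩
    rw [pow_one] at this
    simp [Ph1_single, ph1, cb_edge, this]
  · have := pj_back Γ v0 b 2 h
    refine ⟨_, add_mem (vert_mem Γ v0 (pj Γ v0 b) 0) (vert_mem Γ v0 (pj Γ v0 b) 1), ?_⟩
    rw [pow_two, ← mul_assoc] at this
    simp [Ph1_single, ph1, cb_edge, this]

theorem ker_bd (hA : Acyc Γ) (z : Ed (BB Γ) (Fin 2 × V) →₀ ℤ) (hz : bd (xg Γ v0) z = 0) :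
    z ∈ LinearMap.range (rel (G := BB Γ) (rB Γ v0)) := by
  have h1 := collapse Γ v0 (cb_slabK Γ 0 (Ph1_mem Γ v0 z))
  rw [← bd_eq, hz, map_zero, sub_zero] at h1
  obtain ⟨u, hu, e⟩ := h1
  rw [LinearMap.comp_apply] at e
  obtain ⟨n, w, hw, e2⟩ := slab_exact_deg Γ hA 1 (Ph1_mem Γ v0 (z - u))
    (by rw [map_sub, map_sub, e, sub_self])
  rw [if_neg one_ne_zero, zero_smul, zero_add] at e2
  have h2 : Ps1 Γ v0 (cb Γ w) ∈ LinearMap.range (rel (G := BB Γ) (rB Γ v0)) := by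
    refine map_mem_of_supp (Ps1 Γ v0 ∘ₗ cb Γ) _ ?_ hw
    rintro ⟨b, σ⟩ ⟨⟨h1, h2, h3⟩, h4⟩
    simp only at h1 h2 h3 h4
    have hb : b ∈ (chi Γ).ker := by
      rw [mem_BB]
      omega
    refine ⟨Finsupp.single ⟨⟨b, hb⟩, .inl ⟨σ, h1, h4⟩⟩ 1, ?_⟩
    rw [rel_single, one_smul, perm_rB_inl]
    rfl
  rw [← e2, Ps1_Ph1] at h2
  have := add_mem h2 hu
  rwa [sub_add_cancel] at this

theorem closure_xg (hA : Acyc Γ) : Subgroup.closure (Set.range (xg Γ v0)) = ⊤ := by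
  classical
  rw [eq_top_iff]
  intro q _
  set H := Subgroup.closure (Set.range (xg Γ v0))
  have hm : ∀ p : BB Γ, ((p.1, ∅) : Cell Γ) ∈ SlabK Γ 0 := fun p =>
    ⟨⟨by simp [Clq], by simp, by simp⟩, rfl⟩
  obtain ⟨n, w, hw, e⟩ := slab_exact_deg Γ hA 0
    (sub_mem (Finsupp.single_mem_supported ℤ (1 : ℤ) (hm q))
      (Finsupp.single_mem_supported ℤ (1 : ℤ) (hm 1)))
    (by rw [map_sub, cb_vertex, cb_vertex, sub_self])
  have e2 := congrArg (al0 Γ v0) e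
  rw [← Ph1_Ps1 Γ v0 hw, map_add, ← bd_eq, if_pos rfl, map_sub, map_smul, al0_single, al0_single,
    al0_single, pj_coe, pj_coe] at e2
  have p1 : pj Γ v0 1 = 1 := pj_coe Γ v0 1
  simp only at e2
  rw [p1] at e2
  have key : ∀ (θ : BB Γ → ℤ), (∀ g s, θ (g * xg Γ v0 s) = θ g) → θ q - θ 1 = n * θ 1 := by
    intro θ hθ
    have h1 : ∀ z, Finsupp.linearCombination ℤ θ (bd (xg Γ v0) z) = 0 := by
      intro z
      refine map_eq_of_supp (s := Set.univ) (Finsupp.linearCombination ℤ θ ∘ₗ bd (xg Γ v0)) 0 ?_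
        (by simp)
      rintro ⟨g, s⟩ -
      simp [hθ]
    have := congrArg (Finsupp.linearCombination ℤ θ) e2
    rw [map_add, h1] at this
    simpa using this
  have k1 := key (fun _ => 1) (fun _ _ => rfl)
  have k2 := key (fun g => if g ∈ H then 1 else 0) (fun g s => by
    have : xg Γ v0 s ∈ H := Subgroup.subset_closure ⟨s, rfl⟩
    simp only [H.mul_mem_cancel_right this])
  simp only [sub_self, mul_one] at k1
  rw [← k1, if_pos H.one_mem] at k2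
  by_contra hq
  rw [if_neg hq] at k2
  simp at k2

theorem xg_surj (hA : Acyc Γ) : Function.Surjective (FreeGroup.lift (xg Γ v0)) := by
  rw [← MonoidHom.range_eq_top, FreeGroup.range_lift_eq_closure]
  exact closure_xg Γ v0 hA

theorem rel_inj (hA : Acyc Γ) : Function.Injective (rel (G := BB Γ) (rB Γ v0)) := by
  classical
  rw [injective_iff_map_eq_zero]
  intro a ha
  let P2 : (Ed (BB Γ) (Sq Γ ⊕ Fin 2) →₀ ℤ) →ₗ[ℤ] (Cell Γ →₀ ℤ) :=
    Finsupp.linearCombination ℤ (fun e => Sum.elim (fun σ => Finsupp.single (e.g.1, σ.1) 1)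
      (fun _ => 0) e.s)
  let Vt : (Ed (BB Γ) (Sq Γ ⊕ Fin 2) →₀ ℤ) →ₗ[ℤ] (Cell Γ →₀ ℤ) :=
    Finsupp.linearCombination ℤ (fun e => Sum.elim (fun _ => 0)
      (fun j : Fin 2 => Finsupp.single (e.g.1 * gen Γ v0 ^ j.val, {v0}) 1) e.s)
  let pR : (Ed (BB Γ) (Sq Γ ⊕ Fin 2) →₀ ℤ) →ₗ[ℤ] (Ed (BB Γ) (Sq Γ ⊕ Fin 2) →₀ ℤ) :=
    Finsupp.linearCombination ℤ (fun e => Sum.elim (fun _ => 0)
      (fun _ => Finsupp.single e 1) e.s)
  let lam : (Cell Γ →₀ ℤ) →ₗ[ℤ] (Ed (BB Γ) (Sq Γ ⊕ Fin 2) →₀ ℤ) :=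
    Finsupp.linearCombination ℤ (fun c =>
      if ht Γ c.1 = 0 then - Finsupp.single ⟨pj Γ v0 c.1, .inr 0⟩ 1
      else if ht Γ c.1 = 2 then Finsupp.single ⟨pj Γ v0 c.1, .inr 1⟩ 1 else 0)
  let mu : (Cell Γ →₀ ℤ) →ₗ[ℤ] (Ed (BB Γ) (Sq Γ ⊕ Fin 2) →₀ ℤ) :=
    Finsupp.linearCombination ℤ (fun c =>
      if h : Clq Γ c.2 ∧ c.2.card = 2 then Finsupp.single ⟨pj Γ v0 c.1, .inl ⟨c.2, h⟩⟩ 1 else 0)
  have hu : a ∈ Finsupp.supported ℤ ℤ (Set.univ : Set (Ed (BB Γ) (Sq Γ ⊕ Fin 2))) := by simp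
  have h1 : Ph1 Γ v0 (rel (rB Γ v0) a) = cb Γ (P2 a) + Vt a := by
    refine map_eq_of_supp (Ph1 Γ v0 ∘ₗ rel (rB Γ v0)) (cb Γ ∘ₗ P2 + Vt) ?_ hu
    rintro ⟨q, σ | j⟩ -
    · have h := Finsupp.single_mem_supported ℤ (1 : ℤ) (sq_mem Γ q σ)
      simp only [LinearMap.comp_apply, LinearMap.add_apply, rel_single, one_smul, perm_rB_inl,
        P2, Vt, Finsupp.linearCombination_single, Sum.elim_inl, add_zero]
      exact Ph1_Ps1 Γ v0 (cb_slabK Γ 1 h)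
    · simp [rB, P2, Vt, Ph1_single, ph1]
  have h2 : P2 a ∈ Finsupp.supported ℤ ℤ (SlabK Γ 2) := by
    refine map_mem_of_supp _ _ ?_ hu
    rintro ⟨q, σ | j⟩ -
    · simp only [P2, Finsupp.linearCombination_single, Sum.elim_inl, one_smul]
      exact Finsupp.single_mem_supported ℤ (1 : ℤ) (sq_mem Γ q σ)
    · simp [P2]
  have h3 : lam (cb Γ (Vt a)) = pR a := by
    refine map_eq_of_supp (lam ∘ₗ cb Γ ∘ₗ Vt) pR ?_ hu
    rintro ⟨q, σ | j⟩ -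
    · simp [Vt, pR]
    · simp only [LinearMap.comp_apply, Vt, pR, Finsupp.linearCombination_single, Sum.elim_inr,
        one_smul, cb_edge, map_sub, lam]
      fin_cases j
      · simp [pj_coe]
      · have := pj_pow Γ v0 q 2
        rw [pow_two, ← mul_assoc] at this
        simp [this]
  have h4 : Vt (pR a) = Vt a := by
    refine map_eq_of_supp (Vt ∘ₗ pR) Vt ?_ hu
    rintro ⟨q, σ | j⟩ -
    · simp [Vt, pR]
    · simp [Vt, pR]
  have h5 : mu (P2 a) + pR a = a := by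
    refine map_eq_of_supp (mu ∘ₗ P2 + pR) LinearMap.id ?_ hu
    rintro ⟨q, σ | j⟩ -
    · simp only [LinearMap.comp_apply, LinearMap.add_apply, P2, pR, mu,
        Finsupp.linearCombination_single, Sum.elim_inl, one_smul, add_zero, LinearMap.id_apply]
      rw [dif_pos σ.2, pj_coe]
    · simp [P2, pR]
  rw [ha, map_zero] at h1
  have h6 := congrArg (cb Γ) h1
  rw [map_zero, map_add, cb_cb Γ (Finsupp.supported_mono (fun _ h => h.1.1) h2), zero_add] at h6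
  rw [← h6, map_zero] at h3
  rw [← h3, map_zero] at h4
  rw [← h4, add_zero] at h1
  obtain ⟨n, w, hw, e⟩ := slab_exact_deg Γ hA 2 h2 h1.symm
  have h7 : cb Γ w = 0 := by
    refine map_eq_of_supp (cb Γ) 0 ?_ hw
    rintro ⟨b, σ⟩ ⟨⟨-, h2, h3⟩, h4⟩
    simp only at h2 h3 h4
    omega
  rw [h7, if_neg two_ne_zero, zero_smul, zero_add] at e
  rw [e, ← h3, map_zero, add_zero] at h5
  exact h5.symm

include v0 in
theorem isFP3_BB [Finite V] (hA : Acyc Γ) : IsFP (BB Γ) 3 := by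
  refine (isFP_of_explicit freeFin_self freeFin_Ed freeFin_Ed (bd (xg Γ v0)) (rel (rB Γ v0))
    (bd_perm _) (rel_perm _) ?_ ?_ (exact_zero _ (closure_xg Γ v0 hA)) (ker_bd Γ v0 hA)).2
    (rel_inj Γ v0 hA)
  · intro z
    induction z using Finsupp.induction_linear with
    | zero => simp
    | add a b ha hb => simp only [map_add, ha, hb, add_zero]
    | single e n =>
      obtain ⟨a, s⟩ := e
      simp
  · intro z
    induction z using Finsupp.induction_linear with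
    | zero => simp
    | add a b ha hb => simp only [map_add, ha, hb, add_zero]
    | single e n =>
      obtain ⟨a, s⟩ := e
      simp [bd_perm, bd_rB]

end Pool.Agent.H426Z
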