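import Pool.Agent.H426Z.NF

/-! The cube complex of a right-angled Artin group and a Morse lemma for it. -/

set_option autoImplicit false

namespace Pool.Agent.H426Z

open Finset

section simp
variable {V : Type} [LinearOrder V]

/-- the sign of a vertex in a simplex -/
def sgn (v : V) (σ : Finset V) : ℤ := (-1) ^ (σ.filter (· < v)).card

theorem sgn_sq (v : V) (σ : Finset V) : sgn v σ * sgn v σ = 1 := by
  unfold sgn
  rw [← mul_pow]
  simp

theorem sgn_lt {u v : V} {σ : Finset V} (hu : u ∈ σ) (h : u < v) :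
    sgn v σ * sgn u (σ.erase v) = - (sgn u σ * sgn v (σ.erase u)) := by
  unfold sgn
  have h1 : (σ.erase v).filter (· < u) = σ.filter (· < u) := by
    ext w
    simp only [mem_filter, mem_erase]
    constructor
    · rintro ⟨⟨-, h2⟩, h3⟩
      exact ⟨h2, h3⟩
    · rintro ⟨h2, h3⟩
      exact ⟨⟨(h3.trans h).ne, h2⟩, h3⟩
  have h2 : (σ.filter (· < v)).card = ((σ.erase u).filter (· < v)).card + 1 := by
    rw [filter_erase, card_erase_add_one (mem_filter.2 ⟨hu, h⟩)]
  rw [h1, h2, pow_succ]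
  ring

theorem sgn_anti {u v : V} {σ : Finset V} (hu : u ∈ σ) (hv : v ∈ σ) (h : u ≠ v) :
    sgn v σ * sgn u (σ.erase v) = - (sgn u σ * sgn v (σ.erase u)) := by
  rcases lt_or_gt_of_ne h with h1 | h1
  · exact sgn_lt hu h1
  · rw [sgn_lt hv h1, neg_neg]

theorem antisym_sum {X : Type} (σ : Finset V) (f : V → V → (X →₀ ℤ))
    (h : ∀ u ∈ σ, ∀ v ∈ σ, u ≠ v → f u v = - f v u) :
    ∑ v ∈ σ, ∑ u ∈ σ.erase v, f v u = 0 := by
  have h1 : ∑ v ∈ σ, ∑ u ∈ σ.erase v, f v u = ∑ u ∈ σ, ∑ v ∈ σ.erase u, f v u := by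
    apply sum_comm'
    intro v u
    simp only [mem_erase]
    tauto
  have h2 : ∑ u ∈ σ, ∑ v ∈ σ.erase u, f v u = - ∑ u ∈ σ, ∑ v ∈ σ.erase u, f u v := by
    rw [← sum_neg_distrib]
    apply sum_congr rfl
    intro u hu
    rw [← sum_neg_distrib]
    apply sum_congr rfl
    intro v hv
    exact h v (mem_of_mem_erase hv) u hu (ne_of_mem_erase hv)
  rw [h2] at h1
  ext x
  have := DFunLike.congr_fun h1 x
  simp only [Finsupp.neg_apply] at this
  simp only [Finsupp.zero_apply]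
  omega

/-- the augmented simplicial boundary -/
noncomputable def sb : (Finset V →₀ ℤ) →ₗ[ℤ] (Finset V →₀ ℤ) :=
  Finsupp.linearCombination ℤ (fun σ => ∑ v ∈ σ, sgn v σ • Finsupp.single (σ.erase v) 1)

theorem sb_single (σ : Finset V) :
    sb (Finsupp.single σ 1) = ∑ v ∈ σ, sgn v σ • Finsupp.single (σ.erase v) 1 := by
  simp only [sb, Finsupp.linearCombination_single, one_smul]

/-- the cone over a vertex -/
noncomputable def cone (v : V) : (Finset V →₀ ℤ) →ₗ[ℤ] (Finset V →₀ ℤ) :=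
  Finsupp.linearCombination ℤ
    (fun σ => if v ∈ σ then 0 else sgn v (insert v σ) • Finsupp.single (insert v σ) 1)

theorem cone_single (v : V) (σ : Finset V) : cone v (Finsupp.single σ 1) =
    if v ∈ σ then 0 else sgn v (insert v σ) • Finsupp.single (insert v σ) 1 := by
  simp only [cone, Finsupp.linearCombination_single, one_smul]

theorem sb_cone (v : V) (σ : Finset V) :
    sb (cone v (Finsupp.single σ 1)) + cone v (sb (Finsupp.single σ 1)) = Finsupp.single σ 1 := by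
  rw [sb_single, map_sum, cone_single]
  simp only [map_smul, cone_single]
  by_cases hv : v ∈ σ
  · rw [if_pos hv, map_zero, zero_add, sum_eq_single v]
    · rw [if_neg (notMem_erase v σ), insert_erase hv, smul_smul, sgn_sq, one_smul]
    · intro u _ huv
      rw [if_pos (mem_erase.2 ⟨huv.symm, hv⟩), smul_zero]
    · intro h
      exact absurd hv h
  · rw [if_neg hv, map_smul, sb_single, sum_insert hv, erase_insert hv, smul_add, smul_smul,
      sgn_sq, one_smul, add_assoc, smul_sum, ← sum_add_distrib, add_eq_left]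
    apply sum_eq_zero
    intro u hu
    have huv : u ≠ v := fun h => hv (h ▸ hu)
    have h1 : insert v (σ.erase u) = (insert v σ).erase u := by
      rw [erase_insert_of_ne huv.symm]
    rw [if_neg (fun h => hv (mem_of_mem_erase h)), h1, smul_smul, smul_smul, ← add_smul]
    have h2 := sgn_anti (mem_insert_of_mem hu) (mem_insert_self v σ) huv
    rw [erase_insert hv] at h2
    have h3 := sgn_sq u σ
    have h4 := sgn_sq u (insert v σ)
    have : sgn v (insert v σ) * sgn u (insert v σ) + sgn u σ * sgn v ((insert v σ).erase u) = 0 := by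
      linear_combination (sgn u σ * sgn u (insert v σ)) * h2 -
        (sgn v (insert v σ) * sgn u (insert v σ)) * h3 -
        (sgn u σ * sgn v ((insert v σ).erase u)) * h4
    rw [this, zero_smul]

end simp

theorem supp_ind {X : Type} {s : Set X} {P : (X →₀ ℤ) → Prop} (h0 : P 0)
    (hadd : ∀ a b, P a → P b → P (a + b)) (hsm : ∀ (n : ℤ) a, P a → P (n • a))
    (hs : ∀ x ∈ s, P (Finsupp.single x 1)) {y : X →₀ ℤ} (hy : y ∈ Finsupp.supported ℤ ℤ s) :
    P y := by
  rw [Finsupp.supported_eq_span_single] at hy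
  induction hy using Submodule.span_induction with
  | mem x hx =>
    obtain ⟨a, ha, rfl⟩ := hx
    exact hs a ha
  | zero => exact h0
  | add a b _ _ ha hb => exact hadd a b ha hb
  | smul n a _ ha => exact hsm n a ha

theorem map_mem_of_supp {X M : Type} [AddCommGroup M] {s : Set X} (l : (X →₀ ℤ) →ₗ[ℤ] M)
    (T : Submodule ℤ M) (h : ∀ x ∈ s, l (Finsupp.single x 1) ∈ T) {y : X →₀ ℤ}
    (hy : y ∈ Finsupp.supported ℤ ℤ s) : l y ∈ T := by
  refine supp_ind (P := fun y => l y ∈ T) ?_ ?_ ?_ h hy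
  · simp
  · intro a b ha hb
    rw [map_add]
    exact add_mem ha hb
  · intro n a ha
    rw [map_smul]
    exact T.smul_mem _ ha

theorem map_eq_of_supp {X M : Type} [AddCommGroup M] {s : Set X} (l l' : (X →₀ ℤ) →ₗ[ℤ] M)
    (h : ∀ x ∈ s, l (Finsupp.single x 1) = l' (Finsupp.single x 1)) {y : X →₀ ℤ}
    (hy : y ∈ Finsupp.supported ℤ ℤ s) : l y = l' y := by
  have := map_mem_of_supp (l - l') ⊥ (fun x hx => by simp [h x hx]) hy
  simpa [sub_eq_zero] using this

variable {V : Type} [LinearOrder V] (Γ : SimpleGraph V)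

/-- cubes: a base vertex and a set of directions -/
abbrev Cell : Type := AG Γ × Finset V

/-- the cubical boundary -/
noncomputable def cb : (Cell Γ →₀ ℤ) →ₗ[ℤ] (Cell Γ →₀ ℤ) :=
  Finsupp.linearCombination ℤ (fun c => ∑ v ∈ c.2, sgn v c.2 •
    (Finsupp.single (c.1 * gen Γ v, c.2.erase v) 1 - Finsupp.single (c.1, c.2.erase v) 1))

theorem cb_single (b : AG Γ) (σ : Finset V) : cb Γ (Finsupp.single (b, σ) 1) =
    ∑ v ∈ σ, sgn v σ •
      (Finsupp.single (b * gen Γ v, σ.erase v) 1 - Finsupp.single (b, σ.erase v) 1) := by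
  simp only [cb, Finsupp.linearCombination_single, one_smul]

/-- cliques -/
def Clq (σ : Finset V) : Prop := ∀ u ∈ σ, ∀ v ∈ σ, u ≠ v → Γ.Adj u v

omit [LinearOrder V] in
theorem Clq.mono {σ τ : Finset V} (h : Clq Γ σ) (hτ : τ ⊆ σ) : Clq Γ τ :=
  fun u hu v hv => h u (hτ hu) v (hτ hv)

theorem cb_cb_single (b : AG Γ) (σ : Finset V) (h : Clq Γ σ) :
    cb Γ (cb Γ (Finsupp.single (b, σ) 1)) = 0 := by
  rw [cb_single, map_sum]
  simp only [map_smul, map_sub, cb_single, ← sum_sub_distrib, smul_sum]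
  apply antisym_sum
  intro u hu v hv huv
  rw [← smul_sub, ← smul_sub, smul_smul, smul_smul, sgn_anti hv hu huv.symm, neg_smul,
    erase_right_comm (a := u) (b := v), mul_assoc, mul_assoc, (gen_comm Γ (h u hu v hv huv)).eq]
  congr 2
  abel

theorem cb_cb {y : Cell Γ →₀ ℤ} (hy : y ∈ Finsupp.supported ℤ ℤ {c : Cell Γ | Clq Γ c.2}) :
    cb Γ (cb Γ y) = 0 :=
  map_eq_of_supp (cb Γ ∘ₗ cb Γ) 0 (fun c hc => cb_cb_single Γ c.1 c.2 hc) hy

/-- the product of the generators in a clique -/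
noncomputable def Pd (τ : Finset V) : AG Γ := (τ.toList.map (gen Γ)).prod

omit [LinearOrder V] in
@[simp] theorem Pd_empty : Pd Γ ∅ = 1 := by simp [Pd]

theorem Pd_erase {τ : Finset V} (h : Clq Γ τ) {v : V} (hv : v ∈ τ) :
    Pd Γ τ = Pd Γ (τ.erase v) * gen Γ v := by
  have h1 : τ.toList.Perm ((τ.erase v).toList ++ [v]) := by
    refine List.Perm.trans ?_ (List.perm_append_singleton _ _).symm
    have := Finset.toList_insert (notMem_erase v τ)
    rwa [insert_erase hv] at this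
  unfold Pd
  rw [List.Perm.prod_eq' (h1.map _)]
  · simp
  · rw [List.pairwise_map]
    apply τ.nodup_toList.pairwise_of_forall_ne
    intro a ha b hb hab
    exact gen_comm Γ (h a (mem_toList.1 ha) b (mem_toList.1 hb) hab)

omit [LinearOrder V] in
theorem Pd_comm {τ : Finset V} {v : V} (h : ∀ u ∈ τ, Γ.Adj u v) : Commute (Pd Γ τ) (gen Γ v) := by
  apply Commute.list_prod_left
  intro x hx
  obtain ⟨u, hu, rfl⟩ := List.mem_map.1 hx
  exact gen_comm Γ (h u (mem_toList.1 hu))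

/-- Morse data: a height and an orientation of the edges -/
structure Morse where
  f : AG Γ → ℤ
  o : AG Γ → V → Prop
  up : ∀ g v, o g v → f (g * gen Γ v) = f g + 1
  down : ∀ g v, ¬ o g v → f (g * gen Γ v) + 1 = f g
  par : ∀ g u v, Γ.Adj u v → (o (g * gen Γ u) v ↔ o g v)
  nomax : ∀ g v, o g v → o (g * gen Γ v) v

namespace Morse
variable {Γ} (M : Morse Γ)

omit [LinearOrder V] in
theorem par_Pd (g : AG Γ) {τ : Finset V} {v : V} (h : ∀ u ∈ τ, Γ.Adj u v) :
    M.o (g * Pd Γ τ) v ↔ M.o g v := by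
  have key : ∀ (l : List V) (g : AG Γ), (∀ u ∈ l, Γ.Adj u v) →
      (M.o (g * (l.map (gen Γ)).prod) v ↔ M.o g v) := by
    intro l
    induction l with
    | nil => simp
    | cons a l ih =>
      intro g hl
      rw [List.map_cons, List.prod_cons, ← mul_assoc, ih _ (fun u hu => hl u (by simp [hu])),
        M.par _ _ _ (hl a (by simp))]
  exact key _ _ (fun u hu => h u (mem_toList.1 hu))

open Classical in
/-- the upward directions -/
noncomputable def ups (g : AG Γ) (σ : Finset V) : Finset V := σ.filter (M.o g)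

omit [LinearOrder V] in
theorem mem_ups {g : AG Γ} {σ : Finset V} {v : V} : v ∈ M.ups g σ ↔ v ∈ σ ∧ M.o g v := by
  unfold ups
  simp only [mem_filter]

omit [LinearOrder V] in
theorem ups_sub (g : AG Γ) (σ : Finset V) : M.ups g σ ⊆ σ := fun _ h => (M.mem_ups.1 h).1

/-- the descending directions -/
def W (g : AG Γ) : Set V := {v | M.o (g * (gen Γ v)⁻¹) v ↔ M.o g v}

/-- the top vertex of a cube -/
noncomputable def top (c : Cell Γ) : AG Γ := c.1 * Pd Γ (M.ups c.1 c.2)

/-- the base vertex of the cube with given top vertex -/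
noncomputable def base (g : AG Γ) (σ : Finset V) : AG Γ := g * (Pd Γ (M.ups g σ))⁻¹

open Classical in
/-- orientation sign -/
noncomputable def eps (g : AG Γ) (σ : Finset V) : ℤ := (-1) ^ (σ.filter (fun v => ¬ M.o g v)).card

omit [LinearOrder V] in
theorem eps_sq (g : AG Γ) (σ : Finset V) : M.eps g σ * M.eps g σ = 1 := by
  unfold eps
  rw [← mul_pow]
  simp

theorem eps_up {g : AG Γ} {v : V} (σ : Finset V) (h : M.o g v) :
    M.eps g (σ.erase v) = M.eps g σ := by
  unfold eps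
  congr 2
  ext u
  simp only [mem_filter, mem_erase]
  constructor
  · tauto
  · rintro ⟨h1, h2⟩
    exact ⟨⟨fun h3 => h2 (h3 ▸ h), h1⟩, h2⟩

theorem eps_down {g : AG Γ} {v : V} {σ : Finset V} (hv : v ∈ σ) (h : ¬ M.o g v) :
    M.eps g (σ.erase v) = - M.eps g σ := by
  classical
  unfold eps
  rw [filter_erase, ← card_erase_add_one (s := σ.filter (fun v => ¬ M.o g v)) (a := v)
    (mem_filter.2 ⟨hv, h⟩), pow_succ]
  simp

theorem ups_erase (g : AG Γ) (σ : Finset V) (v : V) :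
    M.ups g (σ.erase v) = (M.ups g σ).erase v := by
  ext u
  simp only [mem_ups, mem_erase]
  tauto

theorem top_aux {b : AG Γ} {σ : Finset V} (h : Clq Γ σ) {v : V} (hv : v ∈ σ) :
    (M.o (M.top (b, σ)) v ↔ M.o b v) ∧ v ∈ M.W (M.top (b, σ)) := by
  have hadj : ∀ u ∈ (M.ups b σ).erase v, Γ.Adj u v := fun u hu =>
    h u (M.ups_sub _ _ (mem_of_mem_erase hu)) v hv (ne_of_mem_erase hu)
  by_cases ho : M.o b v
  · have h1 : M.top (b, σ) = b * Pd Γ ((M.ups b σ).erase v) * gen Γ v := by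
      unfold top
      rw [Pd_erase Γ (h.mono Γ (M.ups_sub _ _)) (M.mem_ups.2 ⟨hv, ho⟩), mul_assoc]
    have h2 : M.o (b * Pd Γ ((M.ups b σ).erase v)) v := (M.par_Pd b hadj).2 ho
    have h3 := M.nomax _ _ h2
    rw [h1]
    refine ⟨⟨fun _ => ho, fun _ => h3⟩, ?_⟩
    simp only [W, Set.mem_ofPred_eq, mul_inv_cancel_right]
    exact ⟨fun _ => h3, fun _ => h2⟩
  · have h1 : (M.ups b σ).erase v = M.ups b σ :=
      erase_eq_of_notMem (fun h => ho (M.mem_ups.1 h).2)
    rw [h1] at hadj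
    have h2 : ¬ M.o (M.top (b, σ)) v := fun h => ho ((M.par_Pd b hadj).1 h)
    refine ⟨⟨fun h => absurd h h2, fun h => absurd h ho⟩, ?_⟩
    simp only [W, Set.mem_ofPred_eq]
    refine ⟨fun h3 => ?_, fun h => absurd h h2⟩
    have := M.nomax _ _ h3
    rwa [inv_mul_cancel_right] at this

theorem ups_top {b : AG Γ} {σ : Finset V} (h : Clq Γ σ) :
    M.ups (M.top (b, σ)) σ = M.ups b σ := by
  ext v
  simp only [mem_ups]
  exact and_congr_right (fun hv => (M.top_aux h hv).1)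

theorem base_top {b : AG Γ} {σ : Finset V} (h : Clq Γ σ) : M.base (M.top (b, σ)) σ = b := by
  unfold base
  rw [M.ups_top h]
  simp [top]

theorem top_base {g : AG Γ} {σ : Finset V} (h : Clq Γ σ) (hW : ∀ v ∈ σ, v ∈ M.W g) :
    M.top (M.base g σ, σ) = g := by
  have key : M.ups (M.base g σ) σ = M.ups g σ := by
    ext v
    simp only [mem_ups]
    refine and_congr_right (fun hv => ?_)
    have hadj : ∀ u ∈ (M.ups g σ).erase v, Γ.Adj u v := fun u hu =>
      h u (M.ups_sub _ _ (mem_of_mem_erase hu)) v hv (ne_of_mem_erase hu)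
    rw [← M.par_Pd (M.base g σ) hadj]
    by_cases ho : M.o g v
    · have h1 : M.base g σ * Pd Γ ((M.ups g σ).erase v) = g * (gen Γ v)⁻¹ := by
        unfold base
        rw [Pd_erase Γ (h.mono Γ (M.ups_sub _ _)) (M.mem_ups.2 ⟨hv, ho⟩)]
        group
      rw [h1]
      exact hW v hv
    · have h1 : (M.ups g σ).erase v = M.ups g σ :=
        erase_eq_of_notMem (fun h => ho (M.mem_ups.1 h).2)
      rw [h1]
      simp [base]
  unfold top
  simp only
  rw [key]
  simp [base]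

theorem ups_shift {b : AG Γ} {σ : Finset V} (h : Clq Γ σ) {v : V} (hv : v ∈ σ) :
    M.ups (b * gen Γ v) (σ.erase v) = (M.ups b σ).erase v := by
  rw [← ups_erase]
  ext u
  simp only [mem_ups]
  refine and_congr_right (fun hu => ?_)
  exact M.par _ _ _ (h v hv u (mem_of_mem_erase hu) (ne_of_mem_erase hu).symm)

theorem face_up {b : AG Γ} {σ : Finset V} (h : Clq Γ σ) {v : V} (hv : v ∈ σ) (ho : M.o b v) :
    M.top (b * gen Γ v, σ.erase v) = M.top (b, σ) ∧
      M.f (M.top (b, σ.erase v)) + 1 = M.f (M.top (b, σ)) := by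
  have hadj : ∀ u ∈ (M.ups b σ).erase v, Γ.Adj u v := fun u hu =>
    h u (M.ups_sub _ _ (mem_of_mem_erase hu)) v hv (ne_of_mem_erase hu)
  have h1 : M.top (b, σ) = b * Pd Γ ((M.ups b σ).erase v) * gen Γ v := by
    unfold top
    rw [Pd_erase Γ (h.mono Γ (M.ups_sub _ _)) (M.mem_ups.2 ⟨hv, ho⟩), mul_assoc]
  constructor
  · rw [h1]
    unfold top
    simp only
    rw [M.ups_shift h hv, mul_assoc, mul_assoc, (Pd_comm Γ hadj).eq]
  · rw [h1, M.up _ _ ((M.par_Pd b hadj).2 ho)]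
    unfold top
    simp only
    rw [ups_erase]

theorem face_down {b : AG Γ} {σ : Finset V} (h : Clq Γ σ) {v : V} (hv : v ∈ σ) (ho : ¬ M.o b v) :
    M.top (b, σ.erase v) = M.top (b, σ) ∧
      M.f (M.top (b * gen Γ v, σ.erase v)) + 1 = M.f (M.top (b, σ)) := by
  have hadj : ∀ u ∈ (M.ups b σ).erase v, Γ.Adj u v := fun u hu =>
    h u (M.ups_sub _ _ (mem_of_mem_erase hu)) v hv (ne_of_mem_erase hu)
  have h1 : (M.ups b σ).erase v = M.ups b σ :=
    erase_eq_of_notMem (fun h => ho (M.mem_ups.1 h).2)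
  constructor
  · unfold top
    simp only
    rw [ups_erase, h1]
  · unfold top
    simp only
    rw [M.ups_shift h hv, mul_assoc, ← (Pd_comm Γ hadj).eq, ← mul_assoc,
      M.down _ _ (fun h => ho ((M.par_Pd b hadj).1 h)), h1]

/-- the cubes with a given top vertex -/
noncomputable def iota (g : AG Γ) : (Finset V →₀ ℤ) →ₗ[ℤ] (Cell Γ →₀ ℤ) :=
  Finsupp.linearCombination ℤ (fun σ => M.eps g σ • Finsupp.single (M.base g σ, σ) 1)

omit [LinearOrder V] in
theorem iota_single (g : AG Γ) (σ : Finset V) :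
    M.iota g (Finsupp.single σ 1) = M.eps g σ • Finsupp.single (M.base g σ, σ) 1 := by
  simp only [iota, Finsupp.linearCombination_single, one_smul]

/-- a family of cubes closed under faces -/
structure Closed (U : Set (Cell Γ)) : Prop where
  clq : ∀ c ∈ U, Clq Γ c.2
  face : ∀ b σ, (b, σ) ∈ U → ∀ v ∈ σ, (b, σ.erase v) ∈ U ∧ (b * gen Γ v, σ.erase v) ∈ U

/-- the filtration by the height of the top vertex -/
noncomputable def F (U : Set (Cell Γ)) (n : ℤ) : Submodule ℤ (Cell Γ →₀ ℤ) :=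
  Finsupp.supported ℤ ℤ {c | c ∈ U ∧ M.f (M.top c) ≤ n}

theorem cb_rel {U : Set (Cell Γ)} (hU : Closed U) {b : AG Γ} {σ : Finset V} (hc : (b, σ) ∈ U) :
    cb Γ (Finsupp.single (b, σ) 1) - M.eps (M.top (b, σ)) σ •
      M.iota (M.top (b, σ)) (sb (Finsupp.single σ 1)) ∈ M.F U (M.f (M.top (b, σ)) - 1) := by
  have h : Clq Γ σ := hU.clq _ hc
  rw [cb_single, sb_single, map_sum, smul_sum, ← sum_sub_distrib]
  apply Submodule.sum_mem
  intro v hv
  have hf := hU.face b σ hc v hv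
  have h' : Clq Γ (σ.erase v) := h.mono Γ (erase_subset _ _)
  rw [map_smul, iota_single, smul_comm (M.eps _ σ), ← smul_sub, smul_smul (M.eps _ σ)]
  apply Submodule.smul_mem
  by_cases ho : M.o b v
  · obtain ⟨h1, h2⟩ := M.face_up h hv ho
    rw [M.eps_up σ ((M.top_aux h hv).1.2 ho), eps_sq, one_smul, ← h1, M.base_top h', h1,
      sub_sub_cancel_left]
    apply Submodule.neg_mem
    exact Finsupp.single_mem_supported _ _ ⟨hf.1, by omega⟩
  · obtain ⟨h1, h2⟩ := M.face_down h hv ho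
    rw [M.eps_down hv (fun h3 => ho ((M.top_aux h hv).1.1 h3)), mul_neg, eps_sq, neg_smul, one_smul,
      ← h1, M.base_top h', h1, sub_neg_eq_add, sub_add_cancel]
    exact Finsupp.single_mem_supported _ _ ⟨hf.2, by omega⟩

omit [LinearOrder V] in
theorem F_mono (U : Set (Cell Γ)) {n m : ℤ} (h : n ≤ m) : M.F U n ≤ M.F U m :=
  Finsupp.supported_mono (fun _ hc => ⟨hc.1, hc.2.trans h⟩)

theorem cb_F {U : Set (Cell Γ)} (hU : Closed U) {n : ℤ} {y : Cell Γ →₀ ℤ} (hy : y ∈ M.F U n) :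
    cb Γ y ∈ M.F U n := by
  refine map_mem_of_supp _ _ ?_ hy
  rintro ⟨b, σ⟩ ⟨hc, hn⟩
  have h : Clq Γ σ := hU.clq _ hc
  rw [cb_single]
  apply Submodule.sum_mem
  intro v hv
  have hf := hU.face b σ hc v hv
  apply Submodule.smul_mem
  by_cases ho : M.o b v
  · obtain ⟨h1, h2⟩ := M.face_up h hv ho
    exact sub_mem (Finsupp.single_mem_supported _ _ ⟨hf.2, by rw [h1]; exact hn⟩)
      (Finsupp.single_mem_supported _ _ ⟨hf.1, by omega⟩)
  · obtain ⟨h1, h2⟩ := M.face_down h hv ho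
    exact sub_mem (Finsupp.single_mem_supported _ _ ⟨hf.2, by omega⟩)
      (Finsupp.single_mem_supported _ _ ⟨hf.1, by rw [h1]; exact hn⟩)

/-- simplices of the descending link -/
def DL (g : AG Γ) : Set (Finset V) := {σ | Clq Γ σ ∧ ∀ v ∈ σ, v ∈ M.W g}

/-- the descending link at `g` is acyclic and its cubes lie in `U` -/
def Good (U : Set (Cell Γ)) (g : AG Γ) : Prop :=
  (∀ σ ∈ M.DL g, (M.base g σ, σ) ∈ U) ∧
  ∃ c : (Finset V →₀ ℤ) →ₗ[ℤ] (Finset V →₀ ℤ), ∀ σ ∈ M.DL g,
    c (Finsupp.single σ 1) ∈ Finsupp.supported ℤ ℤ (M.DL g) ∧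
    sb (c (Finsupp.single σ 1)) + c (sb (Finsupp.single σ 1)) = Finsupp.single σ 1

theorem sb_DL {g : AG Γ} {σ : Finset V} (h : σ ∈ M.DL g) :
    sb (Finsupp.single σ 1) ∈ Finsupp.supported ℤ ℤ (M.DL g) := by
  rw [sb_single]
  apply Submodule.sum_mem
  intro v _
  apply Submodule.smul_mem
  exact Finsupp.single_mem_supported _ _
    ⟨h.1.mono Γ (erase_subset _ _), fun u hu => h.2 u (mem_of_mem_erase hu)⟩

theorem step {U : Set (Cell Γ)} (hU : Closed U) (n : ℤ) (hg : ∀ g, M.f g = n + 1 → M.Good U g)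
    {y : Cell Γ →₀ ℤ} (hy : y ∈ M.F U (n + 1)) (hd : cb Γ y ∈ M.F U n) :
    ∃ y' ∈ M.F U n, ∃ w ∈ M.F U (n + 1), y = y' + cb Γ w := by
  classical
  have hg' : ∀ g, ∃ c : (Finset V →₀ ℤ) →ₗ[ℤ] (Finset V →₀ ℤ), M.f g = n + 1 → ∀ σ ∈ M.DL g,
      c (Finsupp.single σ 1) ∈ Finsupp.supported ℤ ℤ (M.DL g) ∧
      sb (c (Finsupp.single σ 1)) + c (sb (Finsupp.single σ 1)) = Finsupp.single σ 1 := by
    intro g
    by_cases h : M.f g = n + 1
    · obtain ⟨c, hc⟩ := (hg g h).2
      exact ⟨c, fun _ => hc⟩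
    · exact ⟨0, fun h' => absurd h' h⟩
  choose c hc using hg'
  let H : (Cell Γ →₀ ℤ) →ₗ[ℤ] (Cell Γ →₀ ℤ) := Finsupp.linearCombination ℤ (fun e =>
    if M.f (M.top e) = n + 1 then M.eps (M.top e) e.2 •
      M.iota (M.top e) (c (M.top e) (Finsupp.single e.2 1)) else 0)
  have hH : ∀ e, H (Finsupp.single e 1) = if M.f (M.top e) = n + 1 then M.eps (M.top e) e.2 •
      M.iota (M.top e) (c (M.top e) (Finsupp.single e.2 1)) else 0 := by
    intro e
    simp only [H, Finsupp.linearCombination_single, one_smul]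
  have H1 : ∀ g, M.f g = n + 1 → ∀ x ∈ Finsupp.supported ℤ ℤ (M.DL g),
      H (M.iota g x) = M.iota g (c g x) := by
    intro g hgn x hx
    refine map_eq_of_supp (H ∘ₗ M.iota g) (M.iota g ∘ₗ c g) ?_ hx
    intro σ hσ
    simp only [LinearMap.comp_apply]
    rw [iota_single, map_smul, hH, M.top_base hσ.1 hσ.2, if_pos hgn, smul_smul, eps_sq, one_smul]
  have H2 : ∀ x ∈ M.F U n, H x = 0 := by
    intro x hx
    refine map_eq_of_supp H 0 ?_ hx
    rintro e ⟨-, he⟩
    rw [hH, if_neg (by omega)]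
    rfl
  have H3 : ∀ g, M.f g = n + 1 → ∀ x ∈ Finsupp.supported ℤ ℤ (M.DL g),
      M.iota g x ∈ M.F U (n + 1) := by
    intro g hgn x hx
    refine map_mem_of_supp _ _ ?_ hx
    intro σ hσ
    rw [iota_single]
    apply Submodule.smul_mem
    exact Finsupp.single_mem_supported _ _
      ⟨(hg g hgn).1 σ hσ, by rw [M.top_base hσ.1 hσ.2, hgn]⟩
  have H4 : ∀ g, M.f g = n + 1 → ∀ x ∈ Finsupp.supported ℤ ℤ (M.DL g),
      cb Γ (M.iota g x) - M.iota g (sb x) ∈ M.F U n := by
    intro g hgn x hx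
    refine map_mem_of_supp (cb Γ ∘ₗ M.iota g - M.iota g ∘ₗ sb) _ ?_ hx
    intro σ hσ
    have h1 := M.cb_rel hU ((hg g hgn).1 σ hσ)
    rw [M.top_base hσ.1 hσ.2, hgn, add_sub_cancel_right] at h1
    have h2 := Submodule.smul_mem _ (M.eps g σ) h1
    rw [smul_sub, smul_smul, eps_sq, one_smul, ← map_smul, ← iota_single] at h2
    exact h2
  have H5 : H y ∈ M.F U (n + 1) := by
    refine map_mem_of_supp _ _ ?_ hy
    rintro ⟨b, σ⟩ ⟨he, -⟩
    rw [hH]
    split_ifs with h
    · apply Submodule.smul_mem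
      have hσ : σ ∈ M.DL (M.top (b, σ)) :=
        ⟨hU.clq _ he, fun v hv => (M.top_aux (hU.clq _ he) hv).2⟩
      exact H3 _ h _ (hc _ h σ hσ).1
    · exact zero_mem _
  have H6 : y - cb Γ (H y) - H (cb Γ y) ∈ M.F U n := by
    refine map_mem_of_supp (LinearMap.id - cb Γ ∘ₗ H - H ∘ₗ cb Γ) _ ?_ hy
    rintro ⟨b, σ⟩ ⟨he, hn⟩
    simp only [LinearMap.sub_apply, LinearMap.id_apply, LinearMap.comp_apply]
    by_cases h : M.f (M.top (b, σ)) = n + 1
    · have hσ : σ ∈ M.DL (M.top (b, σ)) :=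
        ⟨hU.clq _ he, fun v hv => (M.top_aux (hU.clq _ he) hv).2⟩
      set g := M.top (b, σ) with hgdef
      have e1 : (Finsupp.single (b, σ) 1 : Cell Γ →₀ ℤ) =
          M.eps g σ • M.iota g (Finsupp.single σ 1) := by
        rw [iota_single, smul_smul, eps_sq, one_smul, hgdef, M.base_top hσ.1]
      have e2 := H2 _ (H4 g h _ (Finsupp.single_mem_supported ℤ 1 hσ))
      rw [map_sub, sub_eq_zero, H1 g h _ (M.sb_DL hσ)] at e2
      have e3 := H4 g h _ (hc g h σ hσ).1
      have e4 := (hc g h σ hσ).2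
      rw [hH, if_pos h, ← hgdef]
      simp only
      rw [e1, map_smul, map_smul, map_smul, e2, ← smul_sub, ← smul_sub]
      apply Submodule.smul_mem
      have e5 : M.iota g (Finsupp.single σ 1) = M.iota g (sb (c g (Finsupp.single σ 1))) +
          M.iota g (c g (sb (Finsupp.single σ 1))) := by
        rw [← map_add, e4]
      rw [e5]
      convert Submodule.neg_mem _ e3 using 1
      abel
    · have e1 : (Finsupp.single (b, σ) 1 : Cell Γ →₀ ℤ) ∈ M.F U n :=
        Finsupp.single_mem_supported _ _ ⟨he, by omega⟩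
      rw [H2 _ e1, H2 _ (M.cb_F hU e1), map_zero, sub_zero, sub_zero]
      exact e1
  rw [H2 _ hd, sub_zero] at H6
  exact ⟨_, H6, H y, H5, by abel⟩

theorem descend {U : Set (Cell Γ)} (hU : Closed U) (n : ℤ) (hg : ∀ g, n < M.f g → M.Good U g)
    {y : Cell Γ →₀ ℤ} (hy : y ∈ Finsupp.supported ℤ ℤ U) (hd : cb Γ y ∈ M.F U n) :
    ∃ y' ∈ M.F U n, ∃ w ∈ Finsupp.supported ℤ ℤ U, y = y' + cb Γ w := by
  have hsub : ∀ m, M.F U m ≤ Finsupp.supported ℤ ℤ U := fun m =>
    Finsupp.supported_mono (fun _ hc => hc.1)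
  have key : ∀ (k : ℕ) (y : Cell Γ →₀ ℤ), y ∈ M.F U (n + k) → cb Γ y ∈ M.F U n →
      ∃ y' ∈ M.F U n, ∃ w ∈ Finsupp.supported ℤ ℤ U, y = y' + cb Γ w := by
    intro k
    induction k with
    | zero =>
      intro y hy _
      exact ⟨y, by simpa using hy, 0, zero_mem _, by simp⟩
    | succ k ih =>
      intro y hy hd
      obtain ⟨y1, hy1, w1, hw1, e1⟩ := M.step hU (n + k) (fun g h => hg g (by omega))
        (y := y) (by rw [add_assoc]; exact_mod_cast hy) (M.F_mono U (by omega) hd)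
      have e2 : cb Γ y1 = cb Γ y := by
        rw [e1, map_add, cb_cb Γ (Finsupp.supported_mono (fun c hc => hU.clq c hc.1) hw1),
          add_zero]
      obtain ⟨y2, hy2, w2, hw2, e3⟩ := ih y1 hy1 (e2 ▸ hd)
      refine ⟨y2, hy2, w2 + w1, add_mem hw2 (hsub _ hw1), ?_⟩
      rw [e1, e3, map_add, add_assoc]
  have hk : ∃ k : ℕ, y ∈ M.F U (n + k) := by
    refine supp_ind (P := fun y => ∃ k : ℕ, y ∈ M.F U (n + k)) ⟨0, zero_mem _⟩ ?_ ?_ ?_ hy
    · rintro a b ⟨k1, h1⟩ ⟨k2, h2⟩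
      exact ⟨k1 + k2, add_mem (M.F_mono U (by omega) h1) (M.F_mono U (by omega) h2)⟩
    · rintro m a ⟨k, h⟩
      exact ⟨k, Submodule.smul_mem _ _ h⟩
    · intro c hc
      exact ⟨(M.f (M.top c) - n).toNat, Finsupp.single_mem_supported _ _ ⟨hc, by omega⟩⟩
  obtain ⟨k, hk⟩ := hk
  exact key k y hk hd

end Morse

end Pool.Agent.H426Z
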