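import Pool.Agent.H426Z.BB

/-! The Bestvina-Brady group of a flag complex carrying a flat connection with non-trivial holonomy
is not finitely presented. -/

set_option autoImplicit false

namespace Pool.Agent.H426Z

/-- an unrestricted wreath product -/
@[ext] structure WR (G H : Type) where
  k : G → H
  r : G

namespace WR
variable {G H : Type} [Group G] [Group H]

instance : Mul (WR G H) := ⟨fun a b => ⟨fun g => a.k g * b.k (g * a.r), a.r * b.r⟩⟩
instance : One (WR G H) := ⟨⟨fun _ => 1, 1⟩⟩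
instance : Inv (WR G H) := ⟨fun a => ⟨fun g => (a.k (g * a.r⁻¹))⁻¹, a.r⁻¹⟩⟩

@[simp] theorem mul_k (a b : WR G H) (g : G) : (a * b).k g = a.k g * b.k (g * a.r) := rfl
@[simp] theorem mul_r (a b : WR G H) : (a * b).r = a.r * b.r := rfl
@[simp] theorem one_k (g : G) : (1 : WR G H).k g = 1 := rfl
@[simp] theorem one_r : (1 : WR G H).r = 1 := rfl
@[simp] theorem inv_k (a : WR G H) (g : G) : (a⁻¹).k g = (a.k (g * a.r⁻¹))⁻¹ := rfl
@[simp] theorem inv_r (a : WR G H) : (a⁻¹).r = a.r⁻¹ := rfl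

instance : Group (WR G H) where
  mul_assoc a b c := by ext <;> simp [mul_assoc]
  one_mul a := by ext <;> simp
  mul_one a := by ext <;> simp
  inv_mul_cancel a := by ext <;> simp

/-- projection to the group -/
def right : WR G H →* G where
  toFun a := a.r
  map_one' := rfl
  map_mul' _ _ := rfl

@[simp] theorem right_apply (a : WR G H) : right a = a.r := rfl

end WR

variable {V : Type} (Γ : SimpleGraph V) (v0 : V) {H : Type} [Group H] (c : V → V → H)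

/-- equal or adjacent -/
def Near (a b : V) : Prop := a = b ∨ Γ.Adj a b

/-- flat connections -/
def Flat : Prop := ∀ a b d, Near Γ a b → Near Γ b d → Near Γ a d → c a b * c b d = c a d

/-- holonomy along a path -/
def hol : V → List V → H
  | _, [] => 1
  | a, b :: l => c a b * hol b l

/-- end point of a path -/
def lst : V → List V → V
  | a, [] => a
  | _, b :: l => lst b l

/-- paths -/
def IsPath : V → List V → Prop
  | _, [] => True
  | a, b :: l => Γ.Adj a b ∧ IsPath b l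

theorem ne_one_of_ht {g : AG Γ} (h : 0 < ht Γ g) : g ≠ 1 := by
  rintro rfl
  simp at h

variable [DecidableEq V]

open Classical in
/-- a first letter -/
noncomputable def pv (g : AG Γ) : V := if h : ∃ x, Fst Γ x g then h.choose.1 else v0

theorem pv_fst {g : AG Γ} (h : g ≠ 1) : ∃ x, Fst Γ x g ∧ x.1 = pv Γ v0 g := by
  have h1 := exists_fst Γ h
  refine ⟨h1.choose, h1.choose_spec, ?_⟩
  unfold pv
  rw [dif_pos h1]

/-- inclusion of the sets of first letters -/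
def Sub (a b : AG Γ) : Prop := ∀ y, Fst Γ y a → Fst Γ y b

theorem near_of_sub {a b h : AG Γ} (ha : a ≠ 1) (hb : b ≠ 1) (h1 : Sub Γ a h) (h2 : Sub Γ b h) :
    Near Γ (pv Γ v0 a) (pv Γ v0 b) := by
  obtain ⟨x, hx, ex⟩ := pv_fst Γ v0 ha
  obtain ⟨y, hy, ey⟩ := pv_fst Γ v0 hb
  rw [← ex, ← ey]
  by_cases hxy : x = y
  · exact Or.inl (by rw [hxy])
  · exact Or.inr (fst_adj Γ (h1 x hx) (h2 y hy) hxy)

theorem exists_far (g : AG Γ) {u v : V} (h : Γ.Adj u v) : ∃ t, Sub Γ g t ∧ Sub Γ (g * gen Γ u) t ∧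
    Sub Γ (g * gen Γ v) t ∧ Sub Γ (g * gen Γ u * gen Γ v) t := by
  have up : ∀ (g : AG Γ) v, ¬ Desc Γ (v, false) g → Sub Γ g (g * gen Γ v) :=
    fun g v h y hy => fst_up Γ (x := (v, true)) h hy
  have dn : ∀ (g : AG Γ) v, Desc Γ (v, false) g → Sub Γ (g * gen Γ v) g :=
    fun g v h y hy => fst_down Γ (x := (v, true)) h hy
  have p1 : Desc Γ (v, false) (g * gen Γ u) ↔ Desc Γ (v, false) g :=
    desc_par Γ (x := (u, true)) (y := (v, false)) h g
  have p2 : Desc Γ (u, false) (g * gen Γ v) ↔ Desc Γ (u, false) g :=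
    desc_par Γ (x := (v, true)) (y := (u, false)) h.symm g
  have e : g * gen Γ u * gen Γ v = g * gen Γ v * gen Γ u := by
    rw [mul_assoc, mul_assoc, (gen_comm Γ h).eq]
  have rf : ∀ a, Sub Γ a a := fun a y hy => hy
  have tr : ∀ {a b d}, Sub Γ a b → Sub Γ b d → Sub Γ a d := fun h1 h2 y hy => h2 y (h1 y hy)
  by_cases hu : Desc Γ (u, false) g
  · by_cases hv : Desc Γ (v, false) g
    · exact ⟨g, rf _, dn _ _ hu, dn _ _ hv, tr (dn _ _ (p1.2 hv)) (dn _ _ hu)⟩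
    · refine ⟨g * gen Γ v, up _ _ hv, tr (dn _ _ hu) (up _ _ hv), rf _, ?_⟩
      rw [e]
      exact dn _ _ (p2.2 hu)
  · by_cases hv : Desc Γ (v, false) g
    · exact ⟨g * gen Γ u, up _ _ hu, rf _, tr (dn _ _ hv) (up _ _ hu), dn _ _ (p1.2 hv)⟩
    · refine ⟨g * gen Γ u * gen Γ v, tr (up _ _ hu) (up _ _ (fun h => hv (p1.1 h))),
        up _ _ (fun h => hv (p1.1 h)), ?_, rf _⟩
      rw [e]
      exact up _ _ (fun h => hu (p2.1 h))

/-- the holonomy homomorphism -/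
noncomputable def Th : FreeGroup V →* WR (AG Γ) H :=
  FreeGroup.lift (fun v => ⟨fun g => c (pv Γ v0 g) (pv Γ v0 (g * gen Γ v)), gen Γ v⟩)

theorem Th_of (v : V) : Th Γ v0 c (FreeGroup.of v) =
    ⟨fun g => c (pv Γ v0 g) (pv Γ v0 (g * gen Γ v)), gen Γ v⟩ := by
  simp [Th]

theorem Th_r (w : FreeGroup V) : (Th Γ v0 c w).r = PresentedGroup.mk (rels Γ) w := by
  have : WR.right.comp (Th Γ v0 c) = PresentedGroup.mk (rels Γ) := by
    apply FreeGroup.ext_hom
    intro v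
    simp only [MonoidHom.comp_apply, Th_of]
    rfl
  exact DFunLike.congr_fun this w

/-- trivial holonomy above height `m` -/
def GoodW (m : ℕ) : Subgroup (WR (AG Γ) H) where
  carrier := {a | a.r = 1 ∧ ∀ g, (m : ℤ) < ht Γ g → a.k g = 1}
  one_mem' := ⟨rfl, fun _ _ => rfl⟩
  mul_mem' := by
    rintro a b ⟨h1, h2⟩ ⟨h3, h4⟩
    exact ⟨by simp [h1, h3], fun g hg => by simp [h1, h2 g hg, h4 g hg]⟩
  inv_mem' := by
    rintro a ⟨h1, h2⟩
    exact ⟨by simp [h1], fun g hg => by simp [h1, h2 g hg]⟩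

omit [DecidableEq V] in
theorem GoodW_mono : Monotone (GoodW Γ (H := H)) := by
  rintro m n h a ⟨h1, h2⟩
  exact ⟨h1, fun g hg => h2 g (by omega)⟩

omit [DecidableEq V] in
theorem GoodW_conj {m n : ℕ} {a : WR (AG Γ) H} (ha : a ∈ GoodW Γ m) (b : WR (AG Γ) H)
    (h : (m : ℤ) ≤ n + ht Γ b.r) : b * a * b⁻¹ ∈ GoodW Γ n := by
  obtain ⟨h1, h2⟩ := ha
  refine ⟨by simp [h1], fun g hg => ?_⟩
  simp [h1, h2 (g * b.r) (by simp; omega)]

theorem good_of_trivial (hc : Flat Γ c) (w : FreeGroup V)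
    (hw : PresentedGroup.mk (rels Γ) w = 1) : ∃ m, Th Γ v0 c w ∈ GoodW Γ m := by
  let K : Subgroup (FreeGroup V) :=
    { carrier := {w | ∃ m, Th Γ v0 c w ∈ GoodW Γ m}
      one_mem' := ⟨0, by simp⟩
      mul_mem' := by
        rintro a b ⟨m, hm⟩ ⟨n, hn⟩
        refine ⟨max m n, ?_⟩
        rw [map_mul]
        exact mul_mem (GoodW_mono Γ (le_max_left _ _) hm) (GoodW_mono Γ (le_max_right _ _) hn)
      inv_mem' := by
        rintro a ⟨m, hm⟩
        refine ⟨m, ?_⟩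
        rw [map_inv]
        exact inv_mem hm }
  haveI : K.Normal := ⟨by
    rintro a ⟨m, hm⟩ b
    refine ⟨m + (ht Γ (Th Γ v0 c b).r).natAbs, ?_⟩
    rw [map_mul, map_mul, map_inv]
    exact GoodW_conj Γ hm _ (by omega)⟩
  have hK : Subgroup.normalClosure (rels Γ) ≤ K := by
    apply Subgroup.normalClosure_le_normal
    rintro _ ⟨u, v, h, rfl⟩
    refine ⟨0, ?_, fun g hg => ?_⟩
    · rw [Th_r]
      exact PresentedGroup.one_of_mem ⟨u, v, h, rfl⟩
    · obtain ⟨t, t1, t2, t3, t4⟩ := exists_far Γ g h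
      have n1 : g ≠ 1 := ne_one_of_ht Γ (by simpa using hg)
      have n2 : g * gen Γ u ≠ 1 := ne_one_of_ht Γ (by simp; omega)
      have n3 : g * gen Γ v ≠ 1 := ne_one_of_ht Γ (by simp; omega)
      have n4 : g * gen Γ u * gen Γ v ≠ 1 := ne_one_of_ht Γ (by simp; omega)
      have e : g * gen Γ u * gen Γ v = g * gen Γ v * gen Γ u := by
        rw [mul_assoc, mul_assoc, (gen_comm Γ h).eq]
      have f1 := hc _ _ _ (near_of_sub Γ v0 n1 n2 t1 t2) (near_of_sub Γ v0 n2 n4 t2 t4)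
        (near_of_sub Γ v0 n1 n4 t1 t4)
      have f2 := hc _ _ _ (near_of_sub Γ v0 n1 n3 t1 t3) (near_of_sub Γ v0 n3 n4 t3 t4)
        (near_of_sub Γ v0 n1 n4 t1 t4)
      have e2 : g * (gen Γ u * gen Γ v) * (gen Γ u)⁻¹ = g * gen Γ v := by
        rw [← mul_assoc, e, mul_inv_cancel_right]
      have e3 : g * (gen Γ u * gen Γ v * (gen Γ u)⁻¹) * (gen Γ v)⁻¹ = g := by
        rw [← mul_assoc g, e2, mul_inv_cancel_right]
      simp only [map_mul, map_inv, Th_of, WR.mul_k, WR.inv_k, WR.mul_r, WR.inv_r]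
      rw [e3, e2, f1, ← e, ← f2]
      group
  exact hK (PresentedGroup.mk_eq_one_iff.1 hw)

theorem pv_mem (W : Set V) {g : AG Γ} (hg : g ∈ Subgroup.closure (gen Γ '' W)) (h : g ≠ 1) :
    pv Γ v0 g ∈ W := by
  obtain ⟨x, hx, ex⟩ := pv_fst Γ v0 h
  rw [← ex]
  exact fst_mem Γ W hg hx

theorem Th_edge (hc : Flat Γ c) {a b : V} (h : Γ.Adj a b) (N : ℕ) (hN : 0 < N) :
    gen Γ a ^ N * (Th Γ v0 c ((FreeGroup.of b * (FreeGroup.of a)⁻¹) ^ N)).r = gen Γ b ^ N ∧
      (Th Γ v0 c ((FreeGroup.of b * (FreeGroup.of a)⁻¹) ^ N)).k (gen Γ a ^ N) = c a b := by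
  let W : Set V := {a, b}
  let S := Subgroup.closure (gen Γ '' W)
  have ha : gen Γ a ∈ S := Subgroup.subset_closure ⟨a, by simp [W], rfl⟩
  have hb : gen Γ b ∈ S := Subgroup.subset_closure ⟨b, by simp [W], rfl⟩
  have hW : ∀ x ∈ W, ∀ y ∈ W, Near Γ x y := by
    rintro x (rfl | rfl) y (rfl | rfl)
    · exact Or.inl rfl
    · exact Or.inr h
    · exact Or.inr h.symm
    · exact Or.inl rfl
  have fl : ∀ x ∈ S, ∀ y ∈ S, ∀ z ∈ S, 0 < ht Γ x → 0 < ht Γ y → 0 < ht Γ z →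
      c (pv Γ v0 x) (pv Γ v0 y) * c (pv Γ v0 y) (pv Γ v0 z) = c (pv Γ v0 x) (pv Γ v0 z) := by
    intro x hx y hy z hz h1 h2 h3
    have m1 := pv_mem Γ v0 W hx (ne_one_of_ht Γ h1)
    have m2 := pv_mem Γ v0 W hy (ne_one_of_ht Γ h2)
    have m3 := pv_mem Γ v0 W hz (ne_one_of_ht Γ h3)
    exact hc _ _ _ (hW _ m1 _ m2) (hW _ m2 _ m3) (hW _ m1 _ m3)
  have key : ∀ (n : ℕ) (g : AG Γ), g ∈ S → 0 < ht Γ g →
      (Th Γ v0 c ((FreeGroup.of b * (FreeGroup.of a)⁻¹) ^ n)).r = (gen Γ b * (gen Γ a)⁻¹) ^ n ∧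
      (Th Γ v0 c ((FreeGroup.of b * (FreeGroup.of a)⁻¹) ^ n)).k g =
        c (pv Γ v0 g) (pv Γ v0 (g * (gen Γ b * (gen Γ a)⁻¹) ^ n)) := by
    intro n g hg hh
    induction n with
    | zero =>
      have := fl g hg g hg g hg hh hh hh
      rw [mul_eq_left] at this
      simp [this]
    | succ n ih =>
      obtain ⟨i1, i2⟩ := ih
      rw [pow_succ, map_mul, WR.mul_r, WR.mul_k, i1, i2, pow_succ]
      set g' := g * (gen Γ b * (gen Γ a)⁻¹) ^ n with hg'
      have m1 : g' ∈ S := S.mul_mem hg (S.pow_mem (S.mul_mem hb (S.inv_mem ha)) n)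
      have h1 : 0 < ht Γ g' := by simpa [hg'] using hh
      simp only [map_mul, map_inv, Th_of, WR.mul_k, WR.inv_k, WR.mul_r, WR.inv_r, true_and,
        inv_mul_cancel_right]
      have m2 : g' * gen Γ b ∈ S := S.mul_mem m1 hb
      have m3 : g' * gen Γ b * (gen Γ a)⁻¹ ∈ S := S.mul_mem m2 (S.inv_mem ha)
      have h2 : 0 < ht Γ (g' * gen Γ b) := by simp; omega
      have h3 : 0 < ht Γ (g' * gen Γ b * (gen Γ a)⁻¹) := by simpa using h1
      rw [← fl _ m1 _ m3 _ m2 h1 h3 h2, mul_inv_cancel_right, fl _ hg _ m1 _ m3 hh h1 h3,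
        ← mul_assoc g, ← hg', mul_assoc g']
  have hh : ∀ v, 0 < ht Γ (gen Γ v ^ N) := by
    intro v
    simpa using hN
  obtain ⟨k1, k2⟩ := key N _ (S.pow_mem ha N) (hh a)
  have e : gen Γ a ^ N * (gen Γ b * (gen Γ a)⁻¹) ^ N = gen Γ b ^ N := by
    rw [← ((gen_comm Γ h).mul_right (Commute.refl _).inv_right).mul_pow, ← mul_assoc,
      (gen_comm Γ h).eq, mul_inv_cancel_right]
  have hp : ∀ v, pv Γ v0 (gen Γ v ^ N) = v := by
    intro v
    have hv : gen Γ v ∈ Subgroup.closure (gen Γ '' {v}) := Subgroup.subset_closure ⟨v, rfl, rfl⟩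
    exact pv_mem Γ v0 {v} (Subgroup.pow_mem _ hv N) (ne_one_of_ht Γ (hh v))
  rw [k1, k2, e, hp, hp]
  exact ⟨rfl, rfl⟩

omit [DecidableEq V] in
/-- the generators as words in the vertices -/
def lamF : FreeGroup (Fin 2 × V) →* FreeGroup V :=
  FreeGroup.lift (fun s => FreeGroup.of v0 ^ s.1.val * FreeGroup.of s.2 *
    (FreeGroup.of v0 ^ (s.1.val + 1))⁻¹)

omit [DecidableEq V] in
theorem mk_lamF (f : FreeGroup (Fin 2 × V)) :
    PresentedGroup.mk (rels Γ) (lamF v0 f) = (FreeGroup.lift (xg Γ v0) f).1 := by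
  have : (PresentedGroup.mk (rels Γ)).comp (lamF v0) =
      (chi Γ).ker.subtype.comp (FreeGroup.lift (xg Γ v0)) := by
    apply FreeGroup.ext_hom
    rintro ⟨j, v⟩
    simp only [MonoidHom.comp_apply, lamF, FreeGroup.lift_apply_of, map_mul, map_inv, map_pow,
      Subgroup.subtype_apply, xg, pj, ht_mul, ht_pow, ht_gen, mul_one]
    rw [zpow_neg, ← Nat.cast_succ, zpow_natCast]
    rfl
  exact DFunLike.congr_fun this f

/-- the long relators -/
def longW (N : ℕ) : V → List V → FreeGroup (Fin 2 × V)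
  | _, [] => 1
  | a, b :: l => (FreeGroup.of (0, b) * (FreeGroup.of (0, a))⁻¹) ^ N * longW N b l

theorem Th_long (hc : Flat Γ c) (N : ℕ) (hN : 0 < N) (a : V) (l : List V) (h : IsPath Γ a l) :
    gen Γ a ^ N * (Th Γ v0 c (lamF v0 (longW N a l))).r = gen Γ (lst a l) ^ N ∧
      (Th Γ v0 c (lamF v0 (longW N a l))).k (gen Γ a ^ N) = hol c a l := by
  induction l generalizing a with
  | nil => simp [longW, lst, hol]
  | cons b l ih =>
    obtain ⟨i1, i2⟩ := ih b h.2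
    obtain ⟨e1, e2⟩ := Th_edge Γ v0 c hc h.1 N hN
    have : lamF v0 ((FreeGroup.of (0, b) * (FreeGroup.of (0, a))⁻¹) ^ N) =
        (FreeGroup.of b * (FreeGroup.of a)⁻¹) ^ N := by
      rw [map_pow]
      congr 1
      simp [lamF]
    rw [longW, map_mul, this, map_mul, WR.mul_r, WR.mul_k, ← mul_assoc, e1, e2, i1, i2]
    exact ⟨rfl, rfl⟩

theorem not_fp (hc : Flat Γ c) (a : V) (l : List V) (h : IsPath Γ a l) (h1 : lst a l = a)
    (h2 : hol c a l ≠ 1) : ∃ N : ℕ → Subgroup (FreeGroup (Fin 2 × V)), Monotone N ∧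
      (∀ m, (N m).Normal) ∧ (∀ f, FreeGroup.lift (xg Γ v0) f = 1 → ∃ m, f ∈ N m) ∧
      ∀ m, ∃ f, FreeGroup.lift (xg Γ v0) f = 1 ∧ f ∉ N m := by
  refine ⟨fun m => (GoodW Γ m).comap ((Th Γ v0 c).comp (lamF v0)), ?_, ?_, ?_, ?_⟩
  · intro m n hmn
    exact Subgroup.comap_mono (GoodW_mono Γ hmn)
  · intro m
    refine ⟨fun f hf g => ?_⟩
    rw [Subgroup.mem_comap, map_mul, map_mul, map_inv]
    apply GoodW_conj Γ hf
    rw [MonoidHom.comp_apply, Th_r, mk_lamF, ht_BB, add_zero]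
  · intro f hf
    apply good_of_trivial Γ v0 c hc
    rw [mk_lamF, hf]
    rfl
  · intro m
    obtain ⟨e1, e2⟩ := Th_long Γ v0 c hc (m + 1) (by omega) a l h
    refine ⟨longW (m + 1) a l, ?_, fun hm => h2 ?_⟩
    · rw [h1, mul_eq_left, Th_r, mk_lamF] at e1
      exact Subtype.ext e1
    · rw [← e2]
      exact hm.2 _ (by simp)

end Pool.Agent.H426Z
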