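import Mathlib

/-! Data for the barycentric subdivision of the two-skeleton of the dodecahedral space. -/

set_option autoImplicit false

namespace Pool.Agent.H426Z.LD

/-- adjacency masks -/
def masks : List ℕ := [2064864, 2068000, 2077248, 2086016, 2091264, 229379, 851973, 1441801, 1605649, 1343494, 1638410, 917522, 688140, 1245204, 360472, 21311, 25727, 14527, 19167, 7519, 10143]

/-- all cliques -/
def CL : List (List (Fin 21)) :=
  [[], [0], [1], [2], [3], [4], [5], [6],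
   [7], [8], [9], [10], [11], [12], [13], [14],
   [15], [16], [17], [18], [19], [20], [0, 5], [0, 6],
   [0, 7], [0, 8], [0, 15], [0, 16], [0, 17], [0, 18], [0, 19], [0, 20],
   [1, 5], [1, 9], [1, 10], [1, 11], [1, 15], [1, 16], [1, 17], [1, 18],
   [1, 19], [1, 20], [2, 6], [2, 9], [2, 12], [2, 13], [2, 15], [2, 16],
   [2, 17], [2, 18], [2, 19], [2, 20], [3, 7], [3, 10], [3, 12], [3, 14],
   [3, 15], [3, 16], [3, 17], [3, 18], [3, 19], [3, 20], [4, 8], [4, 11],
   [4, 13], [4, 14], [4, 15], [4, 16], [4, 17], [4, 18], [4, 19], [4, 20],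
   [5, 15], [5, 16], [5, 17], [6, 16], [6, 18], [6, 19], [7, 17], [7, 18],
   [7, 20], [8, 15], [8, 19], [8, 20], [9, 15], [9, 18], [9, 20], [10, 16],
   [10, 19], [10, 20], [11, 17], [11, 18], [11, 19], [12, 15], [12, 17], [12, 19],
   [13, 16], [13, 17], [13, 20], [14, 15], [14, 16], [14, 18], [0, 5, 15], [0, 5, 16],
   [0, 5, 17], [0, 6, 16], [0, 6, 18], [0, 6, 19], [0, 7, 17], [0, 7, 18], [0, 7, 20], [0, 8, 15],
   [0, 8, 19], [0, 8, 20], [1, 5, 15], [1, 5, 16], [1, 5, 17], [1, 9, 15], [1, 9, 18], [1, 9, 20],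
   [1, 10, 16], [1, 10, 19], [1, 10, 20], [1, 11, 17], [1, 11, 18], [1, 11, 19], [2, 6, 16], [2, 6, 18],
   [2, 6, 19], [2, 9, 15], [2, 9, 18], [2, 9, 20], [2, 12, 15], [2, 12, 17], [2, 12, 19], [2, 13, 16],
   [2, 13, 17], [2, 13, 20], [3, 7, 17], [3, 7, 18], [3, 7, 20], [3, 10, 16], [3, 10, 19], [3, 10, 20],
   [3, 12, 15], [3, 12, 17], [3, 12, 19], [3, 14, 15], [3, 14, 16], [3, 14, 18], [4, 8, 15], [4, 8, 19],
   [4, 8, 20], [4, 11, 17], [4, 11, 18], [4, 11, 19], [4, 13, 16], [4, 13, 17], [4, 13, 20], [4, 14, 15],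
   [4, 14, 16], [4, 14, 18]]

/-- contraction data -/
def cd0 : List (ℤ × ℕ) :=
  [(1, 16)]

/-- contraction data -/
def cd1 : List (ℤ × ℕ) :=
  [(-1, 26)]

/-- contraction data -/
def cd2 : List (ℤ × ℕ) :=
  [(-1, 36)]

/-- contraction data -/
def cd3 : List (ℤ × ℕ) :=
  [(-1, 46)]

/-- contraction data -/
def cd4 : List (ℤ × ℕ) :=
  [(-1, 56)]

/-- contraction data -/
def cd5 : List (ℤ × ℕ) :=
  [(-1, 66)]

/-- contraction data -/
def cd6 : List (ℤ × ℕ) :=
  [(-1, 72)]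

/-- contraction data -/
def cd7 : List (ℤ × ℕ) :=
  [(1, 23), (-1, 26)]

/-- contraction data -/
def cd8 : List (ℤ × ℕ) :=
  [(1, 24), (-1, 26)]

/-- contraction data -/
def cd9 : List (ℤ × ℕ) :=
  [(-1, 81)]

/-- contraction data -/
def cd10 : List (ℤ × ℕ) :=
  [(-1, 84)]

/-- contraction data -/
def cd11 : List (ℤ × ℕ) :=
  [(1, 34), (-1, 36)]

/-- contraction data -/
def cd12 : List (ℤ × ℕ) :=
  [(1, 35), (-1, 36)]

/-- contraction data -/
def cd13 : List (ℤ × ℕ) :=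
  [(-1, 93)]

/-- contraction data -/
def cd14 : List (ℤ × ℕ) :=
  [(1, 45), (-1, 46)]

/-- contraction data -/
def cd15 : List (ℤ × ℕ) :=
  [(-1, 99)]

/-- contraction data -/
def cd17 : List (ℤ × ℕ) :=
  [(-1, 26), (1, 27)]

/-- contraction data -/
def cd18 : List (ℤ × ℕ) :=
  [(-1, 26), (1, 28)]

/-- contraction data -/
def cd19 : List (ℤ × ℕ) :=
  [(-1, 26), (1, 29)]

/-- contraction data -/
def cd20 : List (ℤ × ℕ) :=
  [(-1, 26), (1, 30)]

/-- contraction data -/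
def cd21 : List (ℤ × ℕ) :=
  [(-1, 26), (1, 31)]

/-- contraction data -/
def cd22 : List (ℤ × ℕ) :=
  [(1, 102)]

/-- contraction data -/
def cd25 : List (ℤ × ℕ) :=
  [(1, 111)]

/-- contraction data -/
def cd32 : List (ℤ × ℕ) :=
  [(1, 114)]

/-- contraction data -/
def cd33 : List (ℤ × ℕ) :=
  [(1, 117)]

/-- contraction data -/
def cd37 : List (ℤ × ℕ) :=
  [(-1, 102), (1, 103), (1, 114), (-1, 115)]

/-- contraction data -/
def cd38 : List (ℤ × ℕ) :=
  [(-1, 102), (1, 104), (1, 114), (-1, 116)]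

/-- contraction data -/
def cd39 : List (ℤ × ℕ) :=
  [(-1, 102), (1, 104), (1, 106), (-1, 107), (-1, 108), (1, 110), (1, 112), (-1, 113), (1, 114), (-1, 116), (-1, 118), (1, 119), (1, 121), (-1, 122), (1, 123), (-1, 125), (-1, 127), (1, 128), (1, 130), (-1, 131), (1, 133), (-1, 134), (-1, 136), (1, 137), (1, 138), (-1, 140), (-1, 142), (1, 143), (-1, 145), (1, 146), (-1, 151), (1, 152), (-1, 153), (1, 155), (1, 157), (-1, 158)]

/-- contraction data -/
def cd40 : List (ℤ × ℕ) :=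
  [(-1, 102), (1, 103), (-1, 105), (1, 106), (-1, 109), (1, 110), (1, 112), (-1, 113), (1, 114), (-1, 115), (-1, 118), (1, 119), (1, 120), (-1, 122), (1, 124), (-1, 125), (1, 126), (-1, 127), (1, 130), (-1, 131), (-1, 135), (1, 137), (1, 139), (-1, 140), (-1, 141), (1, 143), (1, 148), (-1, 149), (-1, 151), (1, 152), (-1, 154), (1, 155), (1, 156), (-1, 158), (-1, 160), (1, 161)]

/-- contraction data -/
def cd41 : List (ℤ × ℕ) :=
  [(1, 106), (-1, 107), (-1, 109), (1, 110), (-1, 111), (1, 112), (1, 117), (-1, 118), (1, 121), (-1, 122), (1, 124), (-1, 125), (-1, 127), (1, 128), (-1, 129), (1, 130), (1, 132), (-1, 134), (1, 139), (-1, 140), (-1, 142), (1, 143), (-1, 144), (1, 146), (1, 147), (-1, 149), (1, 150), (-1, 151), (-1, 154), (1, 155), (-1, 159), (1, 161)]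

/-- contraction data -/
def cd42 : List (ℤ × ℕ) :=
  [(-1, 102), (1, 104), (-1, 107), (-1, 108), (1, 110), (1, 112), (-1, 113), (1, 114), (-1, 116), (-1, 117), (1, 119), (1, 121), (-1, 122), (1, 123), (-1, 125), (1, 128), (1, 129), (-1, 131), (1, 133), (-1, 134), (-1, 136), (1, 137), (1, 138), (-1, 140), (-1, 142), (1, 143), (-1, 145), (1, 146), (-1, 151), (1, 152), (-1, 153), (1, 155), (1, 157), (-1, 158)]

/-- contraction data -/
def cd43 : List (ℤ × ℕ) :=
  [(1, 129)]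

/-- contraction data -/
def cd44 : List (ℤ × ℕ) :=
  [(1, 132)]

/-- contraction data -/
def cd47 : List (ℤ × ℕ) :=
  [(-1, 102), (1, 104), (1, 105), (-1, 107), (-1, 108), (1, 110), (1, 112), (-1, 113), (1, 114), (-1, 116), (-1, 117), (1, 119), (1, 121), (-1, 122), (1, 123), (-1, 125), (-1, 126), (1, 128), (1, 129), (-1, 131), (1, 133), (-1, 134), (-1, 136), (1, 137), (1, 138), (-1, 140), (-1, 142), (1, 143), (-1, 145), (1, 146), (-1, 151), (1, 152), (-1, 153), (1, 155), (1, 157), (-1, 158)]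

/-- contraction data -/
def cd48 : List (ℤ × ℕ) :=
  [(-1, 103), (1, 104), (1, 105), (-1, 107), (-1, 111), (1, 112), (1, 115), (-1, 116), (-1, 120), (1, 121), (1, 123), (-1, 125), (-1, 126), (1, 128), (1, 132), (-1, 134), (1, 135), (-1, 136), (1, 141), (-1, 142), (-1, 144), (1, 146), (1, 147), (-1, 148), (1, 150), (-1, 151), (-1, 153), (1, 155), (-1, 156), (1, 157), (-1, 159), (1, 160)]

/-- contraction data -/
def cd49 : List (ℤ × ℕ) :=
  [(-1, 102), (1, 104), (1, 106), (-1, 107), (-1, 108), (1, 110), (1, 112), (-1, 113), (1, 114), (-1, 116), (-1, 117), (1, 119), (1, 121), (-1, 122), (1, 123), (-1, 125), (-1, 127), (1, 128), (1, 129), (-1, 131), (1, 133), (-1, 134), (-1, 136), (1, 137), (1, 138), (-1, 140), (-1, 142), (1, 143), (-1, 145), (1, 146), (-1, 151), (1, 152), (-1, 153), (1, 155), (1, 157), (-1, 158)]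

/-- contraction data -/
def cd50 : List (ℤ × ℕ) :=
  [(-1, 102), (1, 104), (-1, 108), (1, 110), (1, 112), (-1, 113), (1, 114), (-1, 116), (-1, 117), (1, 119), (1, 121), (-1, 122), (1, 123), (-1, 125), (1, 129), (-1, 131), (1, 133), (-1, 134), (-1, 136), (1, 137), (1, 138), (-1, 140), (-1, 142), (1, 143), (-1, 145), (1, 146), (-1, 151), (1, 152), (-1, 153), (1, 155), (1, 157), (-1, 158)]

/-- contraction data -/
def cd51 : List (ℤ × ℕ) :=
  [(1, 106), (-1, 107), (-1, 109), (1, 110), (-1, 111), (1, 112), (-1, 118), (1, 119), (1, 121), (-1, 122), (1, 124), (-1, 125), (-1, 127), (1, 128), (1, 130), (-1, 131), (1, 132), (-1, 134), (1, 139), (-1, 140), (-1, 142), (1, 143), (-1, 144), (1, 146), (1, 147), (-1, 149), (1, 150), (-1, 151), (-1, 154), (1, 155), (-1, 159), (1, 161)]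

/-- contraction data -/
def cd52 : List (ℤ × ℕ) :=
  [(-1, 103), (1, 104), (1, 105), (-1, 107), (-1, 108), (-1, 111), (1, 112), (1, 115), (-1, 116), (-1, 120), (1, 121), (1, 123), (-1, 125), (-1, 126), (1, 128), (1, 133), (-1, 134), (1, 135), (-1, 136), (1, 138), (1, 141), (-1, 142), (-1, 145), (1, 146), (1, 147), (-1, 148), (1, 150), (-1, 151), (-1, 153), (1, 155), (-1, 156), (1, 157), (-1, 159), (1, 160)]

/-- contraction data -/
def cd53 : List (ℤ × ℕ) :=
  [(-1, 103), (1, 104), (1, 105), (-1, 106), (-1, 108), (1, 109), (1, 115), (-1, 116), (-1, 117), (1, 118), (-1, 120), (1, 123), (-1, 124), (-1, 126), (1, 127), (1, 129), (-1, 130), (-1, 132), (1, 133), (1, 135), (-1, 136), (1, 138), (-1, 139), (1, 141), (1, 144), (-1, 145), (-1, 148), (1, 149), (-1, 153), (1, 154), (-1, 156), (1, 157), (1, 160), (-1, 161)]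

/-- contraction data -/
def cd54 : List (ℤ × ℕ) :=
  [(1, 144)]

/-- contraction data -/
def cd55 : List (ℤ × ℕ) :=
  [(1, 147)]

/-- contraction data -/
def cd57 : List (ℤ × ℕ) :=
  [(-1, 102), (1, 104), (1, 105), (-1, 106), (-1, 108), (1, 109), (1, 114), (-1, 116), (-1, 117), (1, 118), (1, 123), (-1, 124), (-1, 126), (1, 127), (1, 129), (-1, 130), (-1, 132), (1, 133), (1, 135), (-1, 136), (1, 138), (-1, 139), (1, 144), (-1, 145), (-1, 148), (1, 149), (-1, 153), (1, 154), (-1, 156), (1, 157), (1, 160), (-1, 161)]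

/-- contraction data -/
def cd58 : List (ℤ × ℕ) :=
  [(-1, 103), (1, 104), (1, 105), (-1, 107), (-1, 111), (1, 112), (1, 115), (-1, 116), (-1, 120), (1, 121), (1, 123), (-1, 125), (-1, 126), (1, 128), (1, 133), (-1, 134), (1, 135), (-1, 136), (1, 141), (-1, 142), (-1, 145), (1, 146), (1, 147), (-1, 148), (1, 150), (-1, 151), (-1, 153), (1, 155), (-1, 156), (1, 157), (-1, 159), (1, 160)]

/-- contraction data -/
def cd59 : List (ℤ × ℕ) :=
  [(-1, 103), (1, 104), (1, 105), (-1, 107), (-1, 108), (1, 109), (-1, 111), (1, 112), (1, 115), (-1, 116), (-1, 120), (1, 121), (1, 123), (-1, 125), (-1, 126), (1, 128), (1, 133), (-1, 134), (1, 135), (-1, 136), (1, 138), (-1, 139), (1, 141), (-1, 142), (-1, 145), (1, 146), (1, 147), (-1, 148), (1, 150), (-1, 151), (-1, 153), (1, 155), (-1, 156), (1, 157), (-1, 159), (1, 160)]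

/-- contraction data -/
def cd60 : List (ℤ × ℕ) :=
  [(-1, 102), (1, 104), (-1, 108), (1, 110), (1, 112), (-1, 113), (1, 114), (-1, 116), (-1, 117), (1, 119), (1, 121), (-1, 122), (1, 123), (-1, 125), (1, 129), (-1, 131), (-1, 132), (1, 133), (-1, 136), (1, 137), (1, 138), (-1, 140), (-1, 142), (1, 143), (1, 144), (-1, 145), (-1, 151), (1, 152), (-1, 153), (1, 155), (1, 157), (-1, 158)]

/-- contraction data -/
def cd61 : List (ℤ × ℕ) :=
  [(-1, 103), (1, 104), (1, 105), (-1, 107), (-1, 108), (1, 110), (-1, 111), (1, 112), (1, 115), (-1, 116), (-1, 120), (1, 121), (1, 123), (-1, 125), (-1, 126), (1, 128), (1, 133), (-1, 134), (1, 135), (-1, 136), (1, 138), (-1, 140), (1, 141), (-1, 142), (-1, 145), (1, 146), (1, 147), (-1, 148), (1, 150), (-1, 151), (-1, 153), (1, 155), (-1, 156), (1, 157), (-1, 159), (1, 160)]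

/-- contraction data -/
def cd62 : List (ℤ × ℕ) :=
  [(1, 150)]

/-- contraction data -/
def cd63 : List (ℤ × ℕ) :=
  [(1, 102), (-1, 103), (1, 105), (-1, 106), (1, 109), (-1, 110), (-1, 111), (1, 113), (-1, 114), (1, 115), (1, 118), (-1, 119), (-1, 120), (1, 122), (-1, 124), (-1, 126), (1, 127), (-1, 130), (1, 131), (1, 135), (-1, 137), (-1, 139), (1, 140), (1, 141), (-1, 143), (-1, 148), (1, 149), (1, 150), (-1, 152), (1, 154), (-1, 156), (1, 158), (1, 160), (-1, 161)]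

/-- contraction data -/
def cd64 : List (ℤ × ℕ) :=
  [(-1, 106), (1, 107), (1, 109), (-1, 110), (-1, 112), (1, 113), (1, 118), (-1, 119), (-1, 121), (1, 122), (-1, 124), (1, 125), (1, 127), (-1, 128), (-1, 130), (1, 131), (-1, 132), (1, 134), (-1, 137), (-1, 139), (1, 140), (1, 142), (-1, 143), (1, 144), (-1, 146), (-1, 147), (1, 149), (1, 151), (-1, 152), (1, 154), (-1, 155), (1, 158), (1, 159), (-1, 161)]

/-- contraction data -/
def cd65 : List (ℤ × ℕ) :=
  [(1, 159)]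

/-- contraction data -/
def cd67 : List (ℤ × ℕ) :=
  [(-1, 102), (1, 104), (1, 105), (-1, 106), (-1, 108), (1, 109), (1, 114), (-1, 116), (-1, 117), (1, 118), (1, 123), (-1, 124), (-1, 126), (1, 127), (1, 129), (-1, 130), (-1, 132), (1, 133), (1, 135), (-1, 136), (1, 138), (-1, 139), (1, 144), (-1, 145), (-1, 147), (1, 149), (-1, 153), (1, 154), (-1, 156), (1, 157), (1, 159), (-1, 161)]

/-- contraction data -/
def cd68 : List (ℤ × ℕ) :=
  [(-1, 103), (1, 104), (1, 105), (-1, 106), (1, 109), (-1, 110), (-1, 111), (1, 113), (1, 115), (-1, 116), (1, 118), (-1, 119), (-1, 120), (1, 122), (1, 123), (-1, 124), (-1, 126), (1, 127), (-1, 130), (1, 131), (1, 135), (-1, 137), (-1, 139), (1, 140), (1, 141), (-1, 143), (-1, 148), (1, 149), (1, 150), (-1, 152), (-1, 153), (1, 154), (-1, 156), (1, 158), (1, 160), (-1, 161)]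

/-- contraction data -/
def cd69 : List (ℤ × ℕ) :=
  [(-1, 103), (1, 104), (1, 105), (-1, 107), (-1, 108), (1, 109), (-1, 111), (1, 112), (1, 115), (-1, 116), (-1, 120), (1, 121), (1, 123), (-1, 125), (-1, 126), (1, 128), (1, 133), (-1, 134), (1, 135), (-1, 136), (1, 138), (-1, 139), (1, 141), (-1, 142), (-1, 145), (1, 146), (-1, 148), (1, 149), (1, 150), (-1, 151), (-1, 153), (1, 155), (-1, 156), (1, 157), (1, 160), (-1, 161)]

/-- contraction data -/
def cd70 : List (ℤ × ℕ) :=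
  [(-1, 111), (1, 112), (1, 150), (-1, 151)]

/-- contraction data -/
def cd71 : List (ℤ × ℕ) :=
  [(-1, 111), (1, 113), (1, 150), (-1, 152)]

/-- contraction data -/
def cd73 : List (ℤ × ℕ) :=
  [(-1, 102), (1, 103)]

/-- contraction data -/
def cd74 : List (ℤ × ℕ) :=
  [(-1, 102), (1, 104)]

/-- contraction data -/
def cd75 : List (ℤ × ℕ) :=
  [(1, 105)]

/-- contraction data -/
def cd76 : List (ℤ × ℕ) :=
  [(1, 106)]

/-- contraction data -/
def cd77 : List (ℤ × ℕ) :=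
  [(1, 107)]

/-- contraction data -/
def cd78 : List (ℤ × ℕ) :=
  [(1, 108)]

/-- contraction data -/
def cd79 : List (ℤ × ℕ) :=
  [(1, 109)]

/-- contraction data -/
def cd80 : List (ℤ × ℕ) :=
  [(1, 110)]

/-- contraction data -/
def cd82 : List (ℤ × ℕ) :=
  [(-1, 111), (1, 112)]

/-- contraction data -/
def cd83 : List (ℤ × ℕ) :=
  [(-1, 111), (1, 113)]

/-- contraction data -/
def cd85 : List (ℤ × ℕ) :=
  [(-1, 102), (1, 104), (1, 106), (-1, 107), (-1, 108), (1, 110), (1, 112), (-1, 113), (1, 114), (-1, 116), (-1, 117), (1, 119), (1, 121), (-1, 122), (1, 123), (-1, 125), (-1, 127), (1, 128), (1, 130), (-1, 131), (1, 133), (-1, 134), (-1, 136), (1, 137), (1, 138), (-1, 140), (-1, 142), (1, 143), (-1, 145), (1, 146), (-1, 151), (1, 152), (-1, 153), (1, 155), (1, 157), (-1, 158)]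

/-- contraction data -/
def cd86 : List (ℤ × ℕ) :=
  [(1, 106), (-1, 107), (-1, 109), (1, 110), (-1, 111), (1, 112), (-1, 118), (1, 119), (1, 121), (-1, 122), (1, 124), (-1, 125), (-1, 127), (1, 128), (-1, 129), (1, 130), (1, 132), (-1, 134), (1, 139), (-1, 140), (-1, 142), (1, 143), (-1, 144), (1, 146), (1, 147), (-1, 149), (1, 150), (-1, 151), (-1, 154), (1, 155), (-1, 159), (1, 161)]

/-- contraction data -/
def cd87 : List (ℤ × ℕ) :=
  [(-1, 102), (1, 103), (1, 114), (-1, 115), (1, 120)]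

/-- contraction data -/
def cd88 : List (ℤ × ℕ) :=
  [(-1, 102), (1, 103), (-1, 105), (1, 106), (-1, 109), (1, 110), (1, 112), (-1, 113), (1, 114), (-1, 115), (-1, 118), (1, 119), (1, 120), (1, 121), (-1, 122), (1, 124), (-1, 125), (1, 126), (-1, 127), (1, 130), (-1, 131), (-1, 135), (1, 137), (1, 139), (-1, 140), (-1, 141), (1, 143), (1, 148), (-1, 149), (-1, 151), (1, 152), (-1, 154), (1, 155), (1, 156), (-1, 158), (-1, 160), (1, 161)]

/-- contraction data -/
def cd89 : List (ℤ × ℕ) :=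
  [(1, 106), (-1, 107), (-1, 109), (1, 110), (-1, 111), (1, 112), (1, 117), (-1, 118), (1, 121), (1, 124), (-1, 125), (-1, 127), (1, 128), (-1, 129), (1, 130), (1, 132), (-1, 134), (1, 139), (-1, 140), (-1, 142), (1, 143), (-1, 144), (1, 146), (1, 147), (-1, 149), (1, 150), (-1, 151), (-1, 154), (1, 155), (-1, 159), (1, 161)]

/-- contraction data -/
def cd90 : List (ℤ × ℕ) :=
  [(-1, 102), (1, 104), (1, 114), (-1, 116), (1, 123)]

/-- contraction data -/
def cd91 : List (ℤ × ℕ) :=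
  [(-1, 102), (1, 104), (1, 106), (-1, 107), (-1, 108), (1, 110), (1, 112), (-1, 113), (1, 114), (-1, 116), (-1, 118), (1, 119), (1, 121), (-1, 122), (1, 123), (1, 124), (-1, 125), (-1, 127), (1, 128), (1, 130), (-1, 131), (1, 133), (-1, 134), (-1, 136), (1, 137), (1, 138), (-1, 140), (-1, 142), (1, 143), (-1, 145), (1, 146), (-1, 151), (1, 152), (-1, 153), (1, 155), (1, 157), (-1, 158)]

/-- contraction data -/
def cd92 : List (ℤ × ℕ) :=
  [(-1, 102), (1, 103), (-1, 105), (1, 106), (-1, 109), (1, 110), (1, 112), (-1, 113), (1, 114), (-1, 115), (-1, 118), (1, 119), (1, 120), (-1, 122), (1, 124), (1, 126), (-1, 127), (1, 130), (-1, 131), (-1, 135), (1, 137), (1, 139), (-1, 140), (-1, 141), (1, 143), (1, 148), (-1, 149), (-1, 151), (1, 152), (-1, 154), (1, 155), (1, 156), (-1, 158), (-1, 160), (1, 161)]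

/-- contraction data -/
def cd94 : List (ℤ × ℕ) :=
  [(-1, 103), (1, 104), (1, 105), (-1, 107), (-1, 111), (1, 112), (1, 115), (-1, 116), (-1, 120), (1, 121), (1, 123), (-1, 125), (-1, 126), (1, 128), (1, 133), (-1, 134), (1, 135), (-1, 136), (1, 141), (-1, 142), (-1, 144), (1, 146), (1, 147), (-1, 148), (1, 150), (-1, 151), (-1, 153), (1, 155), (-1, 156), (1, 157), (-1, 159), (1, 160)]

/-- contraction data -/
def cd95 : List (ℤ × ℕ) :=
  [(-1, 102), (1, 104), (-1, 108), (1, 110), (1, 112), (-1, 113), (1, 114), (-1, 116), (-1, 117), (1, 119), (1, 121), (-1, 122), (1, 123), (-1, 125), (1, 129), (-1, 131), (-1, 132), (1, 133), (-1, 136), (1, 137), (1, 138), (-1, 140), (-1, 142), (1, 143), (-1, 145), (1, 146), (-1, 151), (1, 152), (-1, 153), (1, 155), (1, 157), (-1, 158)]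

/-- contraction data -/
def cd96 : List (ℤ × ℕ) :=
  [(-1, 102), (1, 104), (1, 105), (-1, 107), (-1, 108), (1, 110), (1, 112), (-1, 113), (1, 114), (-1, 116), (-1, 117), (1, 119), (1, 121), (-1, 122), (1, 123), (-1, 125), (-1, 126), (1, 128), (1, 129), (-1, 131), (1, 133), (-1, 134), (1, 135), (-1, 136), (1, 137), (1, 138), (-1, 140), (-1, 142), (1, 143), (-1, 145), (1, 146), (-1, 151), (1, 152), (-1, 153), (1, 155), (1, 157), (-1, 158)]

/-- contraction data -/
def cd97 : List (ℤ × ℕ) :=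
  [(-1, 103), (1, 104), (1, 105), (-1, 107), (-1, 111), (1, 112), (1, 115), (-1, 116), (-1, 120), (1, 121), (1, 123), (-1, 125), (-1, 126), (1, 128), (1, 132), (-1, 134), (1, 135), (1, 141), (-1, 142), (-1, 144), (1, 146), (1, 147), (-1, 148), (1, 150), (-1, 151), (-1, 153), (1, 155), (-1, 156), (1, 157), (-1, 159), (1, 160)]

/-- contraction data -/
def cd98 : List (ℤ × ℕ) :=
  [(1, 106), (-1, 107), (-1, 109), (1, 110), (-1, 111), (1, 112), (-1, 118), (1, 119), (1, 121), (-1, 122), (1, 124), (-1, 125), (-1, 127), (1, 128), (1, 130), (-1, 131), (1, 132), (-1, 134), (1, 137), (1, 139), (-1, 140), (-1, 142), (1, 143), (-1, 144), (1, 146), (1, 147), (-1, 149), (1, 150), (-1, 151), (-1, 154), (1, 155), (-1, 159), (1, 161)]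

/-- contraction data -/
def cd100 : List (ℤ × ℕ) :=
  [(-1, 102), (1, 104), (1, 105), (-1, 106), (-1, 108), (1, 109), (1, 114), (-1, 116), (-1, 117), (1, 118), (1, 123), (-1, 124), (-1, 126), (1, 127), (1, 129), (-1, 130), (-1, 132), (1, 133), (1, 135), (-1, 136), (1, 138), (-1, 139), (1, 144), (-1, 145), (-1, 147), (1, 149), (-1, 153), (1, 154), (-1, 156), (1, 157), (1, 160), (-1, 161)]

/-- contraction data -/
def cd101 : List (ℤ × ℕ) :=
  [(-1, 103), (1, 104), (1, 105), (-1, 107), (-1, 108), (1, 109), (-1, 111), (1, 112), (1, 115), (-1, 116), (-1, 120), (1, 121), (1, 123), (-1, 125), (-1, 126), (1, 128), (1, 133), (-1, 134), (1, 135), (-1, 136), (1, 138), (-1, 139), (1, 141), (-1, 142), (-1, 145), (1, 146), (-1, 148), (1, 149), (1, 150), (-1, 151), (-1, 153), (1, 155), (-1, 156), (1, 157), (-1, 159), (1, 160)]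

/-- contraction data -/
def cdL : List (List (ℤ × ℕ)) :=
  [cd0, cd1, cd2, cd3, cd4, cd5, cd6, cd7, cd8, cd9, cd10, cd11, cd12, cd13, cd14, cd15, [], cd17, cd18, cd19, cd20, cd21, cd22, [], [], cd25, [], [], [], [], [], [], cd32, cd33, [], [], [], cd37, cd38, cd39, cd40, cd41, cd42, cd43, cd44, [], [], cd47, cd48, cd49, cd50, cd51, cd52, cd53, cd54, cd55, [], cd57, cd58, cd59, cd60, cd61, cd62, cd63, cd64, cd65, [], cd67, cd68, cd69, cd70, cd71, [], cd73, cd74, cd75, cd76, cd77, cd78, cd79, cd80, [], cd82, cd83, [], cd85, cd86, cd87, cd88, cd89, cd90, cd91, cd92, [], cd94, cd95, cd96, cd97, cd98, [], cd100, cd101, [], [], [], [], [], [], [], [], [], [], [], [], [], [], [], [], [], [], [], [], [], [], [], [], [], [], [], [], [], [], [], [], [], [], [], [], [], [], [], [], [], [], [], [], [], [], [], [], [], [], [], [], [], [], [], [], [], [], [], []]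

/-- boundary data -/
def bdL0 : List (List (ℤ × ℕ)) :=
  [[],
   [(1, 0)],
   [(1, 0)],
   [(1, 0)],
   [(1, 0)],
   [(1, 0)],
   [(1, 0)],
   [(1, 0)],
   [(1, 0)],
   [(1, 0)],
   [(1, 0)],
   [(1, 0)],
   [(1, 0)],
   [(1, 0)],
   [(1, 0)],
   [(1, 0)],
   [(1, 0)],
   [(1, 0)],
   [(1, 0)],
   [(1, 0)],
   [(1, 0)],
   [(1, 0)],
   [(1, 6), (-1, 1)],
   [(1, 7), (-1, 1)],
   [(1, 8), (-1, 1)],
   [(1, 9), (-1, 1)],
   [(1, 16), (-1, 1)],
   [(1, 17), (-1, 1)],
   [(1, 18), (-1, 1)],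
   [(1, 19), (-1, 1)],
   [(1, 20), (-1, 1)],
   [(1, 21), (-1, 1)],
   [(1, 6), (-1, 2)],
   [(1, 10), (-1, 2)],
   [(1, 11), (-1, 2)],
   [(1, 12), (-1, 2)],
   [(1, 16), (-1, 2)],
   [(1, 17), (-1, 2)],
   [(1, 18), (-1, 2)],
   [(1, 19), (-1, 2)],
   [(1, 20), (-1, 2)],
   [(1, 21), (-1, 2)],
   [(1, 7), (-1, 3)],
   [(1, 10), (-1, 3)],
   [(1, 13), (-1, 3)],
   [(1, 14), (-1, 3)],
   [(1, 16), (-1, 3)],
   [(1, 17), (-1, 3)],
   [(1, 18), (-1, 3)],
   [(1, 19), (-1, 3)],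
   [(1, 20), (-1, 3)],
   [(1, 21), (-1, 3)],
   [(1, 8), (-1, 4)],
   [(1, 11), (-1, 4)],
   [(1, 13), (-1, 4)],
   [(1, 15), (-1, 4)],
   [(1, 16), (-1, 4)],
   [(1, 17), (-1, 4)],
   [(1, 18), (-1, 4)],
   [(1, 19), (-1, 4)]]

/-- boundary data -/
def bdL1 : List (List (ℤ × ℕ)) :=
  [[(1, 20), (-1, 4)],
   [(1, 21), (-1, 4)],
   [(1, 9), (-1, 5)],
   [(1, 12), (-1, 5)],
   [(1, 14), (-1, 5)],
   [(1, 15), (-1, 5)],
   [(1, 16), (-1, 5)],
   [(1, 17), (-1, 5)],
   [(1, 18), (-1, 5)],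
   [(1, 19), (-1, 5)],
   [(1, 20), (-1, 5)],
   [(1, 21), (-1, 5)],
   [(1, 16), (-1, 6)],
   [(1, 17), (-1, 6)],
   [(1, 18), (-1, 6)],
   [(1, 17), (-1, 7)],
   [(1, 19), (-1, 7)],
   [(1, 20), (-1, 7)],
   [(1, 18), (-1, 8)],
   [(1, 19), (-1, 8)],
   [(1, 21), (-1, 8)],
   [(1, 16), (-1, 9)],
   [(1, 20), (-1, 9)],
   [(1, 21), (-1, 9)],
   [(1, 16), (-1, 10)],
   [(1, 19), (-1, 10)],
   [(1, 21), (-1, 10)],
   [(1, 17), (-1, 11)],
   [(1, 20), (-1, 11)],
   [(1, 21), (-1, 11)],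
   [(1, 18), (-1, 12)],
   [(1, 19), (-1, 12)],
   [(1, 20), (-1, 12)],
   [(1, 16), (-1, 13)],
   [(1, 18), (-1, 13)],
   [(1, 20), (-1, 13)],
   [(1, 17), (-1, 14)],
   [(1, 18), (-1, 14)],
   [(1, 21), (-1, 14)],
   [(1, 16), (-1, 15)],
   [(1, 17), (-1, 15)],
   [(1, 19), (-1, 15)]]

/-- boundary data -/
def bdL2 : List (List (ℤ × ℕ)) :=
  [[(1, 72), (-1, 26), (1, 22)],
   [(1, 73), (-1, 27), (1, 22)],
   [(1, 74), (-1, 28), (1, 22)],
   [(1, 75), (-1, 27), (1, 23)],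
   [(1, 76), (-1, 29), (1, 23)],
   [(1, 77), (-1, 30), (1, 23)],
   [(1, 78), (-1, 28), (1, 24)],
   [(1, 79), (-1, 29), (1, 24)],
   [(1, 80), (-1, 31), (1, 24)],
   [(1, 81), (-1, 26), (1, 25)],
   [(1, 82), (-1, 30), (1, 25)],
   [(1, 83), (-1, 31), (1, 25)],
   [(1, 72), (-1, 36), (1, 32)],
   [(1, 73), (-1, 37), (1, 32)],
   [(1, 74), (-1, 38), (1, 32)],
   [(1, 84), (-1, 36), (1, 33)],
   [(1, 85), (-1, 39), (1, 33)],
   [(1, 86), (-1, 41), (1, 33)],
   [(1, 87), (-1, 37), (1, 34)],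
   [(1, 88), (-1, 40), (1, 34)],
   [(1, 89), (-1, 41), (1, 34)],
   [(1, 90), (-1, 38), (1, 35)],
   [(1, 91), (-1, 39), (1, 35)],
   [(1, 92), (-1, 40), (1, 35)],
   [(1, 75), (-1, 47), (1, 42)],
   [(1, 76), (-1, 49), (1, 42)],
   [(1, 77), (-1, 50), (1, 42)],
   [(1, 84), (-1, 46), (1, 43)],
   [(1, 85), (-1, 49), (1, 43)],
   [(1, 86), (-1, 51), (1, 43)]]

/-- boundary data -/
def bdL3 : List (List (ℤ × ℕ)) :=
  [[(1, 93), (-1, 46), (1, 44)],
   [(1, 94), (-1, 48), (1, 44)],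
   [(1, 95), (-1, 50), (1, 44)],
   [(1, 96), (-1, 47), (1, 45)],
   [(1, 97), (-1, 48), (1, 45)],
   [(1, 98), (-1, 51), (1, 45)],
   [(1, 78), (-1, 58), (1, 52)],
   [(1, 79), (-1, 59), (1, 52)],
   [(1, 80), (-1, 61), (1, 52)],
   [(1, 87), (-1, 57), (1, 53)],
   [(1, 88), (-1, 60), (1, 53)],
   [(1, 89), (-1, 61), (1, 53)],
   [(1, 93), (-1, 56), (1, 54)],
   [(1, 94), (-1, 58), (1, 54)],
   [(1, 95), (-1, 60), (1, 54)],
   [(1, 99), (-1, 56), (1, 55)],
   [(1, 100), (-1, 57), (1, 55)],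
   [(1, 101), (-1, 59), (1, 55)],
   [(1, 81), (-1, 66), (1, 62)],
   [(1, 82), (-1, 70), (1, 62)],
   [(1, 83), (-1, 71), (1, 62)],
   [(1, 90), (-1, 68), (1, 63)],
   [(1, 91), (-1, 69), (1, 63)],
   [(1, 92), (-1, 70), (1, 63)],
   [(1, 96), (-1, 67), (1, 64)],
   [(1, 97), (-1, 68), (1, 64)],
   [(1, 98), (-1, 71), (1, 64)],
   [(1, 99), (-1, 66), (1, 65)],
   [(1, 100), (-1, 67), (1, 65)],
   [(1, 101), (-1, 69), (1, 65)]]

/-- boundary data -/
def bdL : List (List (ℤ × ℕ)) := bdL0 ++ bdL1 ++ bdL2 ++ bdL3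

/-- connection data -/
def cnL : List (List (List (Fin 5 × Fin 5))) :=
  [[[], [], [], [], [], [], [], [], [], [], [], [], [], [], [], [], [], [], [], [], []],
   [[], [], [], [], [], [], [], [], [], [], [], [], [], [], [], [], [], [], [(0, 1), (1, 2), (2, 3), (3, 4)], [(0, 4), (1, 3), (2, 3), (3, 4)], [(0, 3), (1, 3), (2, 4), (3, 4)]],
   [[], [], [], [], [], [], [], [], [], [(0, 4), (1, 4), (2, 4), (3, 4)], [], [], [], [], [], [(0, 4), (1, 4), (2, 4), (3, 4)], [], [(0, 1), (1, 3), (2, 3), (3, 4)], [], [], [(0, 2), (1, 4), (2, 3), (3, 4)]],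
   [[], [], [], [], [], [], [], [], [], [], [(0, 1), (1, 4), (2, 3), (3, 4)], [], [(0, 2), (1, 2), (2, 4), (3, 4)], [], [], [(0, 3), (1, 2), (2, 3), (3, 4)], [(0, 1), (1, 4), (2, 3), (3, 4)], [], [], [(0, 2), (1, 2), (2, 4), (3, 4)], []],
   [[], [], [], [], [], [], [], [], [], [], [], [(0, 3), (1, 2), (2, 4), (3, 4)], [], [(0, 4), (1, 3), (2, 4), (3, 4)], [(0, 2), (1, 4), (2, 4), (3, 4)], [], [(0, 4), (1, 3), (2, 4), (3, 4)], [(0, 3), (1, 2), (2, 4), (3, 4)], [(0, 2), (1, 4), (2, 4), (3, 4)], [], []],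
   [[], [], [], [], [], [], [], [], [], [], [], [], [], [], [], [], [], [], [], [], []],
   [[], [], [], [], [], [], [], [], [], [], [], [], [], [], [], [], [], [], [], [], []],
   [[], [], [], [], [], [], [], [], [], [], [], [], [], [], [], [], [], [], [], [], []],
   [[], [], [], [], [], [], [], [], [], [], [], [], [], [], [], [], [], [], [], [], []],
   [[], [], [(0, 1), (1, 2), (2, 3), (3, 4)], [], [], [], [], [], [], [], [], [], [], [], [], [], [], [], [(0, 1), (1, 2), (2, 3), (3, 4)], [], [(0, 3), (1, 3), (2, 4), (3, 4)]],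
   [[], [], [], [(0, 3), (1, 3), (2, 4), (3, 4)], [], [], [], [], [], [], [], [], [], [], [], [], [], [], [], [(0, 4), (1, 3), (2, 3), (3, 4)], [(0, 3), (1, 3), (2, 4), (3, 4)]],
   [[], [], [], [], [(0, 4), (1, 3), (2, 3), (3, 4)], [], [], [], [], [], [], [], [], [], [], [], [], [], [(0, 1), (1, 2), (2, 3), (3, 4)], [(0, 4), (1, 3), (2, 3), (3, 4)], []],
   [[], [], [], [(0, 1), (1, 3), (2, 3), (3, 4)], [], [], [], [], [], [], [], [], [], [], [], [(0, 4), (1, 4), (2, 4), (3, 4)], [], [(0, 1), (1, 3), (2, 3), (3, 4)], [], [], []],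
   [[], [], [], [], [(0, 2), (1, 4), (2, 3), (3, 4)], [], [], [], [], [], [], [], [], [], [], [], [], [(0, 1), (1, 3), (2, 3), (3, 4)], [], [], [(0, 2), (1, 4), (2, 3), (3, 4)]],
   [[], [], [], [], [(0, 3), (1, 2), (2, 3), (3, 4)], [], [], [], [], [], [], [], [], [], [], [(0, 3), (1, 2), (2, 3), (3, 4)], [(0, 1), (1, 4), (2, 3), (3, 4)], [], [], [], []],
   [[], [], [(0, 1), (1, 2), (2, 3), (3, 4)], [(0, 2), (1, 4), (2, 4), (3, 4)], [], [], [], [], [], [], [], [], [(0, 1), (1, 2), (2, 3), (3, 4)], [], [(0, 2), (1, 4), (2, 4), (3, 4)], [], [], [], [], [], []],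
   [[], [], [], [(0, 3), (1, 3), (2, 4), (3, 4)], [(0, 2), (1, 4), (2, 3), (3, 4)], [], [], [], [], [], [], [], [], [], [(0, 3), (1, 3), (2, 4), (3, 4)], [], [], [], [], [], []],
   [[], [], [(0, 2), (1, 2), (2, 4), (3, 4)], [], [(0, 4), (1, 3), (2, 3), (3, 4)], [], [], [], [], [], [], [], [(0, 2), (1, 2), (2, 4), (3, 4)], [(0, 2), (1, 2), (2, 4), (3, 4)], [], [], [], [], [], [], []],
   [[], [(0, 4), (1, 4), (2, 4), (3, 4)], [], [], [(0, 3), (1, 2), (2, 3), (3, 4)], [], [], [], [], [(0, 4), (1, 4), (2, 4), (3, 4)], [], [(0, 4), (1, 4), (2, 4), (3, 4)], [], [], [], [], [], [], [], [], []],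
   [[], [(0, 3), (1, 2), (2, 4), (3, 4)], [], [(0, 1), (1, 3), (2, 3), (3, 4)], [], [], [], [], [], [], [(0, 3), (1, 2), (2, 4), (3, 4)], [(0, 3), (1, 2), (2, 4), (3, 4)], [], [], [], [], [], [], [], [], []],
   [[], [(0, 1), (1, 4), (2, 3), (3, 4)], [(0, 4), (1, 3), (2, 4), (3, 4)], [], [], [], [], [], [], [(0, 1), (1, 4), (2, 3), (3, 4)], [(0, 1), (1, 4), (2, 3), (3, 4)], [], [], [(0, 4), (1, 3), (2, 4), (3, 4)], [], [], [], [], [], [], []]]

/-- a loop with non-trivial holonomy -/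
def cyc : List (Fin 21) := [5, 1, 9, 2, 6, 0]

/-- adjacency -/
def adjB (a b : Fin 21) : Bool := (masks.getD a.val 0).testBit b.val

/-- boundary of a sorted list -/
def bdl {V : Type} : List V → List (ℤ × List V)
  | [] => []
  | a :: l => (1, l) :: (bdl l).map (fun p => (-p.1, a :: p.2))

/-- applying a map given on keys -/
def bnd (f : ℕ → List (ℤ × ℕ)) (l : List (ℤ × ℕ)) : List (ℤ × ℕ) :=
  l.flatMap (fun p => (f p.2).map (fun q => (p.1 * q.1, q.2)))

/-- the clique with a given index -/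
def key (i : ℕ) : List (Fin 21) := CL.getD i []

/-- the contraction on indices -/
def cd (i : ℕ) : List (ℤ × ℕ) := cdL.getD i []

/-- the boundary on indices -/
def bI (i : ℕ) : List (ℤ × ℕ) := bdL.getD i []

/-- Kronecker substitution -/
def kr (l : List (ℤ × ℕ)) : ℤ := (l.map (fun p => p.1 * ((256 ^ p.2 : ℕ) : ℤ))).sum

/-- total weight -/
def wt (l : List (ℤ × ℕ)) : ℕ := (l.map (fun p => p.1.natAbs)).sum

/-- the identity to be checked -/
def idl (i : ℕ) : List (ℤ × ℕ) := (-1, i) :: (bnd bI (cd i) ++ bnd cd (bI i))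

/-- the connection -/
def cn (a b : Fin 21) : Equiv.Perm (Fin 5) :=
  (((cnL.getD a.val []).getD b.val []).map (fun p => Equiv.swap p.1 p.2)).prod

theorem adj_symm : ∀ a b, adjB a b = true → adjB b a = true := by decide +kernel

theorem adj_irr : ∀ a, ¬ adjB a a = true := by decide +kernel

theorem CL_len : CL.length = 162 := by decide +kernel

theorem CL_ok : ∀ k ∈ CL, k.Pairwise (fun a b => a < b ∧ adjB a b = true) := by decide +kernel

theorem CL_1 : ∀ a, [a] ∈ CL := by decide +kernel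

theorem CL_2 : ∀ a b, adjB a b = true → a < b → [a, b] ∈ CL := by decide +kernel

theorem CL_3 : ∀ a b, adjB a b = true → a < b → ∀ c, adjB a c = true → adjB b c = true → b < c →
    [a, b, c] ∈ CL := by decide +kernel

theorem CL_4 : ∀ a b, adjB a b = true → ∀ c, adjB a c = true → adjB b c = true → ∀ d,
    adjB a d = true → adjB b d = true → adjB c d = true → False := by decide +kernel

theorem key_idx : ∀ i < 162, CL.idxOf (key i) = i := by decide +kernel

theorem bI_ok : ∀ i < 162, (bI i).map (fun p => (p.1, key p.2)) = bdl (key i) := by decide +kernel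

theorem cd_lt : ∀ i < 162, ∀ p ∈ cd i, p.2 < 162 := by decide +kernel

theorem bI_lt : ∀ i < 162, ∀ p ∈ bI i, p.2 < 162 := by decide +kernel

theorem idl_ok : ∀ i < 162, kr (idl i) = 0 ∧ wt (idl i) < 256 := by decide +kernel

theorem cn_flat : ∀ a b, (a = b ∨ adjB a b = true) → ∀ d, (b = d ∨ adjB b d = true) →
    (a = d ∨ adjB a d = true) → cn a b * cn b d = cn a d := by decide +kernel

end Pool.Agent.H426Z.LD
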