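import Pool.Agent.H426Z.LData
import Pool.Agent.H426Z.Hol
import Pool.Agent.H426Z.Abs

/-! The flag complex is acyclic and not simply connected; the counterexample. -/

set_option autoImplicit false

namespace Pool.Agent.H426Z

open Finset LD

section chains
variable {V : Type} [LinearOrder V]

/-- the chain attached to a list -/
noncomputable def ch (l : List (ℤ × List V)) : Finset V →₀ ℤ :=
  (l.map (fun p => p.1 • Finsupp.single p.2.toFinset (1 : ℤ))).sum

theorem sgn_insert_self {a : V} {s : Finset V} (h : ∀ b ∈ s, a < b) : sgn a (insert a s) = 1 := by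
  unfold sgn
  have : (insert a s).filter (· < a) = ∅ := by
    apply filter_eq_empty_iff.2
    intro b hb
    rcases mem_insert.1 hb with rfl | hb
    · exact lt_irrefl _
    · exact (h b hb).not_gt
  rw [this]
  simp

theorem sgn_insert {a v : V} {s : Finset V} (h : ∀ b ∈ s, a < b) (hv : v ∈ s) :
    sgn v (insert a s) = - sgn v s := by
  unfold sgn
  rw [filter_insert, if_pos (h v hv), card_insert_of_notMem, pow_succ]
  · ring
  · intro h1
    exact lt_irrefl _ (h a (mem_filter.1 h1).1)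

theorem sb_sorted (l : List V) (h : l.Pairwise (· < ·)) :
    sb (Finsupp.single l.toFinset 1) = ch (bdl l) := by
  induction l with
  | nil => simp [sb_single, ch, bdl]
  | cons a l ih =>
    rw [List.pairwise_cons] at h
    have ha : ∀ b ∈ l.toFinset, a < b := fun b hb => h.1 b (List.mem_toFinset.1 hb)
    have hna : a ∉ l.toFinset := fun h1 => lt_irrefl _ (ha a h1)
    have h1 : ∀ m : List (ℤ × List V), ch (m.map (fun p => (-p.1, a :: p.2))) =
        - Finsupp.lmapDomain ℤ ℤ (insert a) (ch m) := by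
      intro m
      induction m with
      | nil => simp [ch]
      | cons p m ihm =>
        unfold ch at ihm ⊢
        simp only [List.map_cons, List.sum_cons, ihm, map_add, map_smul, Finsupp.lmapDomain_apply,
          Finsupp.mapDomain_single, List.toFinset_cons, neg_smul, neg_add]
    have h2 : ch (bdl (a :: l)) = Finsupp.single l.toFinset 1 +
        ch ((bdl l).map (fun p => (-p.1, a :: p.2))) := by
      simp [bdl, ch]
    rw [h2, h1, ← ih h.2, List.toFinset_cons, sb_single, sb_single, sum_insert hna,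
      erase_insert hna, sgn_insert_self ha, one_smul, map_sum, ← sum_neg_distrib]
    congr 1
    apply sum_congr rfl
    intro v hv
    rw [sgn_insert ha hv, map_smul, Finsupp.lmapDomain_apply, Finsupp.mapDomain_single, neg_smul,
      erase_insert_of_ne (ha v hv).ne]

end chains

/-- the chain attached to a list of indices -/
noncomputable def chI (l : List (ℤ × ℕ)) : Finset (Fin 21) →₀ ℤ :=
  (l.map (fun p => p.1 • Finsupp.single (key p.2).toFinset (1 : ℤ))).sum

theorem kron (f : ℕ →₀ ℤ) (h1 : ∀ i, |f i| < 256)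
    (h2 : Finsupp.linearCombination ℤ (fun i => ((256 ^ i : ℕ) : ℤ)) f = 0) : f = 0 := by
  by_contra hne
  have hs : f.support.Nonempty := Finsupp.support_nonempty_iff.2 hne
  set i := f.support.min' hs with hi
  have hi1 : i ∈ f.support := min'_mem _ _
  rw [Finsupp.linearCombination_apply, Finsupp.sum, ← add_sum_erase _ _ hi1] at h2
  have h3 : (256 : ℤ) ^ i * 256 ∣ ∑ j ∈ f.support.erase i, f j • ((256 ^ j : ℕ) : ℤ) := by
    apply dvd_sum
    intro j hj
    have : i < j := lt_of_le_of_ne (min'_le _ _ (mem_of_mem_erase hj)) (ne_of_mem_erase hj).symm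
    rw [← pow_succ, smul_eq_mul]
    push_cast
    exact Dvd.dvd.mul_left (pow_dvd_pow _ this) _
  have h4 : (256 : ℤ) ^ i * 256 ∣ (256 : ℤ) ^ i * f i := by
    rw [← dvd_add_left h3, mul_comm ((256 : ℤ) ^ i) (f i)]
    rw [smul_eq_mul] at h2
    push_cast at h2 ⊢
    rw [h2]
    exact dvd_zero _
  have h5 : (256 : ℤ) ∣ f i := (mul_dvd_mul_iff_left (by positivity)).1 h4
  exact Finsupp.mem_support_iff.1 hi1 (Int.eq_zero_of_abs_lt_dvd h5 (h1 i))

theorem chI_zero (l : List (ℤ × ℕ)) (h1 : kr l = 0) (h2 : wt l < 256) : chI l = 0 := by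
  have key : ∀ l : List (ℤ × ℕ), ∃ f : ℕ →₀ ℤ, (∀ i, |f i| ≤ wt l) ∧
      Finsupp.linearCombination ℤ (fun i => ((256 ^ i : ℕ) : ℤ)) f = kr l ∧
      Finsupp.linearCombination ℤ (fun i => Finsupp.single (key i).toFinset (1 : ℤ)) f = chI l := by
    intro l
    induction l with
    | nil => exact ⟨0, by simp [wt], by simp [kr], by simp [chI]⟩
    | cons p l ih =>
      obtain ⟨f, f1, f2, f3⟩ := ih
      refine ⟨Finsupp.single p.2 p.1 + f, fun i => ?_, ?_, ?_⟩
      · have := f1 i
        simp only [wt, List.map_cons, List.sum_cons, Finsupp.add_apply, Nat.cast_add,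
          Int.natCast_natAbs] at this ⊢
        refine (abs_add_le _ _).trans (add_le_add ?_ this)
        rw [Finsupp.single_apply]
        split_ifs <;> simp
      · rw [map_add, f2, Finsupp.linearCombination_single]
        simp [kr]
      · rw [map_add, f3, Finsupp.linearCombination_single]
        simp only [chI, List.map_cons, List.sum_cons]
  obtain ⟨f, f1, f2, f3⟩ := key l
  have : f = 0 := kron f (fun i => lt_of_le_of_lt (f1 i) (by exact_mod_cast h2)) (f2.trans h1)
  rw [← f3, this, map_zero]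

theorem chI_append (a b : List (ℤ × ℕ)) : chI (a ++ b) = chI a + chI b := by simp [chI]

theorem chI_bnd (φ : (Finset (Fin 21) →₀ ℤ) →ₗ[ℤ] (Finset (Fin 21) →₀ ℤ))
    (f : ℕ → List (ℤ × ℕ)) (h : ∀ i < 162, φ (Finsupp.single (key i).toFinset 1) = chI (f i))
    (l : List (ℤ × ℕ)) (hl : ∀ p ∈ l, p.2 < 162) : φ (chI l) = chI (bnd f l) := by
  have h1 : ∀ (n : ℤ) (m : List (ℤ × ℕ)), chI (m.map (fun q => (n * q.1, q.2))) = n • chI m := by
    intro n m
    induction m with
    | nil => simp [chI]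
    | cons q m ih =>
      unfold chI at ih ⊢
      simp only [List.map_cons, List.sum_cons, ih, smul_add, mul_smul]
  induction l with
  | nil => simp [chI, bnd]
  | cons p l ih =>
    have := ih (fun q hq => hl q (List.mem_cons_of_mem _ hq))
    unfold bnd at this ⊢
    rw [List.flatMap_cons, chI_append, ← this, h1, ← h p.2 (hl p (List.mem_cons_self ..)),
      ← map_smul, ← map_add]
    simp only [chI, List.map_cons, List.sum_cons]

/-- the graph -/
def Gd : SimpleGraph (Fin 21) where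
  Adj a b := adjB a b = true
  symm := ⟨adj_symm⟩
  loopless := ⟨adj_irr⟩

theorem key_mem {i : ℕ} (h : i < 162) : key i ∈ CL := by
  unfold key
  rw [List.getD_eq_getElem _ _ (by rw [CL_len]; exact h)]
  exact List.getElem_mem _

theorem key_lt {i : ℕ} (h : i < 162) : (key i).Pairwise (· < ·) :=
  (CL_ok _ (key_mem h)).imp (fun h => h.1)

theorem key_clq {i : ℕ} (h : i < 162) : Clq Gd (key i).toFinset := by
  intro u hu v hv huv
  have h1 : (key i).Pairwise Gd.Adj := (CL_ok _ (key_mem h)).imp (fun h => h.2)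
  haveI : Std.Symm Gd.Adj := Gd.symm
  exact h1.forall (List.mem_toFinset.1 hu) (List.mem_toFinset.1 hv) huv

theorem clq_key {σ : Finset (Fin 21)} (h : Clq Gd σ) :
    σ.card ≤ 3 ∧ ∃ i < 162, σ = (key i).toFinset := by
  have h1 : (σ.sort (· ≤ ·)).Pairwise (· < ·) := (sortedLT_sort σ).pairwise
  have h2 : ∀ u ∈ σ.sort (· ≤ ·), ∀ v ∈ σ.sort (· ≤ ·), u < v → adjB u v = true :=
    fun u hu v hv huv => h u ((mem_sort _).1 hu) v ((mem_sort _).1 hv) huv.ne
  have h3 : (σ.sort (· ≤ ·)).length ≤ 3 ∧ σ.sort (· ≤ ·) ∈ CL := by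
    generalize σ.sort (· ≤ ·) = l at h1 h2
    rcases l with _ | ⟨a, _ | ⟨b, _ | ⟨c, _ | ⟨d, l⟩⟩⟩⟩
    · exact ⟨by simp, key_mem (i := 0) (by norm_num)⟩
    · exact ⟨by simp, CL_1 a⟩
    · simp only [List.pairwise_cons, List.mem_cons, List.not_mem_nil, or_false, forall_eq] at h1
      exact ⟨by simp, CL_2 a b (h2 a (by simp) b (by simp) h1.1) h1.1⟩
    · simp only [List.pairwise_cons, List.mem_cons, List.not_mem_nil, or_false, forall_eq,
        forall_eq_or_imp] at h1
      exact ⟨by simp, CL_3 a b (h2 a (by simp) b (by simp) h1.1.1) h1.1.1 c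
        (h2 a (by simp) c (by simp) h1.1.2) (h2 b (by simp) c (by simp) h1.2.1) h1.2.1⟩
    · simp only [List.pairwise_cons, List.mem_cons, forall_eq_or_imp] at h1
      exact (CL_4 a b (h2 a (by simp) b (by simp) h1.1.1) c (h2 a (by simp) c (by simp) h1.1.2.1)
        (h2 b (by simp) c (by simp) h1.2.1.1) d (h2 a (by simp) d (by simp) h1.1.2.2.1)
        (h2 b (by simp) d (by simp) h1.2.1.2.1) (h2 c (by simp) d (by simp) h1.2.2.1.1)).elim
  refine ⟨by simpa using h3.1, ?_⟩
  obtain ⟨i, hi, e⟩ := List.getElem_of_mem h3.2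
  refine ⟨i, by rwa [CL_len] at hi, ?_⟩
  unfold key
  rw [List.getD_eq_getElem _ _ hi, e, sort_toFinset]

theorem acyc_GL : Acyc Gd := by
  refine ⟨fun σ h => (clq_key h).1, ?_⟩
  let c : (Finset (Fin 21) →₀ ℤ) →ₗ[ℤ] (Finset (Fin 21) →₀ ℤ) :=
    Finsupp.linearCombination ℤ (fun σ => chI (cd (CL.idxOf (σ.sort (· ≤ ·)))))
  have hc : ∀ i < 162, c (Finsupp.single (key i).toFinset 1) = chI (cd i) := by
    intro i hi
    have h1 : (key i).toFinset.sort (· ≤ ·) = key i :=
      (List.toFinset_sort _ ((key_lt hi).imp ne_of_lt)).2 ((key_lt hi).imp le_of_lt)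
    simp only [c, Finsupp.linearCombination_single, one_smul, h1, key_idx i hi]
  have hb : ∀ i < 162, sb (Finsupp.single (key i).toFinset 1) = chI (bI i) := by
    intro i hi
    rw [sb_sorted _ (key_lt hi), ← bI_ok i hi]
    simp only [ch, chI, List.map_map]
    rfl
  refine ⟨c, fun σ hσ => ?_⟩
  obtain ⟨i, hi, rfl⟩ := (clq_key hσ).2
  constructor
  · rw [hc i hi]
    apply list_sum_mem
    intro x hx
    obtain ⟨p, hp, rfl⟩ := List.mem_map.1 hx
    exact Submodule.smul_mem _ _ (Finsupp.single_mem_supported _ _ (key_clq (cd_lt i hi p hp)))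
  · have h1 := chI_zero _ (idl_ok i hi).1 (idl_ok i hi).2
    rw [hc i hi, hb i hi, chI_bnd sb bI hb _ (cd_lt i hi), chI_bnd c cd hc _ (bI_lt i hi),
      ← chI_append]
    unfold idl chI at h1
    rw [List.map_cons, List.sum_cons, neg_smul, one_smul, neg_add_eq_zero] at h1
    exact h1.symm

theorem flat_GL : Flat Gd cn := fun a b d h1 h2 h3 => cn_flat a b h1 d h2 h3

theorem cyc_path : IsPath Gd 0 cyc := by
  simp only [cyc, IsPath, Gd]
  decide +kernel

theorem cyc_hol : hol cn 0 cyc ≠ 1 := by decide +kernel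

theorem counterexample : ∃ (G₁ G₂ Q : Type) (_ : Group G₁) (_ : Group G₂) (_ : Group Q)
    (π₁ : G₁ →* Q) (π₂ : G₂ →* Q), Function.Surjective π₁ ∧ Function.Surjective π₂ ∧
    Group.FG π₁.ker ∧ IsFP G₁ 2 ∧ IsFP G₂ 2 ∧ IsFP Q 3 ∧
    ¬ IsFP ↥((π₁.comp (MonoidHom.fst G₁ G₂)).eqLocus (π₂.comp (MonoidHom.snd G₁ G₂))) 2 := by
  have hs := xg_surj Gd 0 acyc_GL
  obtain ⟨N, n1, n2, n3, n4⟩ := not_fp Gd 0 cn flat_GL 0 cyc cyc_path rfl cyc_hol
  exact ⟨G1 (xg Gd 0), FreeGroup (Fin 2 × Fin 21), BB Gd, _, _, _, pi1 _, FreeGroup.lift (xg Gd 0),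
    pi1_surj _, hs, ker_pi1_fg _ hs,
    isFP2_G1 _ hs (rB Gd 0) (bd_rB Gd 0) (ker_bd Gd 0 acyc_GL), isFP2_free,
    isFP3_BB Gd 0 acyc_GL, not_isFP2_PP _ hs N n1 n2 n3 n4⟩

end Pool.Agent.H426Z
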