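import Mathlib

/-! Normal forms in right-angled Artin groups. -/

set_option autoImplicit false

namespace Pool.Agent.H426Z

variable {V : Type} (Γ : SimpleGraph V)

/-- the inverse letter -/
def linv (x : V × Bool) : V × Bool := (x.1, !x.2)

@[simp] theorem linv_fst (x : V × Bool) : (linv x).1 = x.1 := rfl
@[simp] theorem linv_linv (x : V × Bool) : linv (linv x) = x := by simp [linv]
theorem linv_ne (x : V × Bool) : linv x ≠ x := by
  obtain ⟨v, b⟩ := x
  cases b <;> simp [linv]

/-- `x` can be moved to the front of the word -/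
def ini (x : V × Bool) : List (V × Bool) → Prop
  | [] => False
  | y :: w => y = x ∨ (Γ.Adj x.1 y.1 ∧ ini x w)

/-- equivalence of words by swapping commuting neighbours -/
inductive Sw : List (V × Bool) → List (V × Bool) → Prop
  | refl (w : List (V × Bool)) : Sw w w
  | swap (x y : V × Bool) (w : List (V × Bool)) (h : Γ.Adj x.1 y.1) : Sw (x :: y :: w) (y :: x :: w)
  | cons (x : V × Bool) {w w' : List (V × Bool)} (h : Sw w w') : Sw (x :: w) (x :: w')
  | trans {a b c : List (V × Bool)} (h1 : Sw a b) (h2 : Sw b c) : Sw a c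

/-- reduced words -/
def Red : List (V × Bool) → Prop
  | [] => True
  | y :: w => ¬ ini Γ (linv y) w ∧ Red w

variable {Γ}

theorem Sw.symm {a b : List (V × Bool)} (h : Sw Γ a b) : Sw Γ b a := by
  induction h with
  | refl w => exact Sw.refl w
  | swap x y w h => exact Sw.swap y x w h.symm
  | cons x _ ih => exact Sw.cons x ih
  | trans _ _ ih1 ih2 => exact Sw.trans ih2 ih1

theorem Sw.perm {a b : List (V × Bool)} (h : Sw Γ a b) : a.Perm b := by
  induction h with
  | refl w => exact List.Perm.refl w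
  | swap x y w h => exact List.Perm.swap y x w
  | cons x _ ih => exact ih.cons x
  | trans _ _ ih1 ih2 => exact ih1.trans ih2

theorem ne_of_adj {x y : V × Bool} (h : Γ.Adj x.1 y.1) : x ≠ y := by
  rintro rfl
  exact Γ.irrefl h

theorem Sw.ini {a b : List (V × Bool)} (h : Sw Γ a b) (x : V × Bool) : ini Γ x a → ini Γ x b := by
  induction h with
  | refl w => exact id
  | swap y z w h =>
    simp only [H426Z.ini]
    rintro (rfl | ⟨h1, rfl | ⟨h2, h3⟩⟩)
    · exact Or.inr ⟨h, Or.inl rfl⟩
    · exact Or.inl rfl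
    · exact Or.inr ⟨h2, Or.inr ⟨h1, h3⟩⟩
  | cons y _ ih =>
    simp only [H426Z.ini]
    rintro (rfl | ⟨h1, h2⟩)
    · exact Or.inl rfl
    · exact Or.inr ⟨h1, ih h2⟩
  | trans _ _ ih1 ih2 => exact fun h => ih2 (ih1 h)

theorem Sw.ini_iff {a b : List (V × Bool)} (h : Sw Γ a b) (x : V × Bool) :
    H426Z.ini Γ x a ↔ H426Z.ini Γ x b := ⟨h.ini x, h.symm.ini x⟩

theorem Sw.red {a b : List (V × Bool)} (h : Sw Γ a b) : Red Γ a → Red Γ b := by
  induction h with
  | refl w => exact id
  | swap y z w h =>
    simp only [Red, H426Z.ini]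
    rintro ⟨h1, h2, h3⟩
    refine ⟨?_, ?_, h3⟩
    · rintro (h4 | ⟨-, h4⟩)
      · exact ne_of_adj (x := y) (y := linv z) h h4
      · exact h2 h4
    · intro h4
      exact h1 (Or.inr ⟨h, h4⟩)
  | cons y h ih =>
    simp only [Red]
    rintro ⟨h1, h2⟩
    exact ⟨fun h3 => h1 (h.symm.ini _ h3), ih h2⟩
  | trans _ _ ih1 ih2 => exact fun h => ih2 (ih1 h)

theorem ini_adj {x y : V × Bool} {w : List (V × Bool)} (hx : ini Γ x w) (hy : ini Γ y w)
    (h : x ≠ y) : Γ.Adj x.1 y.1 := by
  induction w with
  | nil => exact hx.elim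
  | cons z w ih =>
    rcases hx with rfl | ⟨h1, h2⟩
    · rcases hy with rfl | ⟨h3, -⟩
      · exact absurd rfl h
      · exact h3.symm
    · rcases hy with rfl | ⟨h3, h4⟩
      · exact h1
      · exact ih h2 h4

theorem ini_mem {x : V × Bool} {w : List (V × Bool)} (hx : ini Γ x w) : x ∈ w := by
  induction w with
  | nil => exact hx.elim
  | cons z w ih =>
    rcases hx with rfl | ⟨-, h2⟩
    · simp
    · simp [ih h2]

theorem ini_append {x : V × Bool} {w : List (V × Bool)} (u : List (V × Bool)) (hx : ini Γ x w) :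
    ini Γ x (w ++ u) := by
  induction w with
  | nil => exact hx.elim
  | cons z w ih =>
    rcases hx with rfl | ⟨h1, h2⟩
    · exact Or.inl rfl
    · exact Or.inr ⟨h1, ih h2⟩

theorem Sw.append_right {a b : List (V × Bool)} (h : Sw Γ a b) (u : List (V × Bool)) :
    Sw Γ (a ++ u) (b ++ u) := by
  induction h with
  | refl w => exact Sw.refl _
  | swap y z w h => exact Sw.swap y z _ h
  | cons y _ ih => exact Sw.cons y ih
  | trans _ _ ih1 ih2 => exact ih1.trans ih2

theorem Sw.append_left {a b : List (V × Bool)} (h : Sw Γ a b) (u : List (V × Bool)) :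
    Sw Γ (u ++ a) (u ++ b) := by
  induction u with
  | nil => exact h
  | cons y u ih => exact Sw.cons y ih

theorem Sw.reverse {a b : List (V × Bool)} (h : Sw Γ a b) : Sw Γ a.reverse b.reverse := by
  induction h with
  | refl w => exact Sw.refl _
  | swap y z w h =>
    simp only [List.reverse_cons, List.append_assoc]
    exact (Sw.swap z y [] h.symm).append_left _
  | cons y _ ih =>
    simp only [List.reverse_cons]
    exact ih.append_right _
  | trans _ _ ih1 ih2 => exact ih1.trans ih2

theorem ini_cons_adj {x y : V × Bool} (h : Γ.Adj x.1 y.1) (w : List (V × Bool)) :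
    ini Γ y (x :: w) ↔ ini Γ y w := by
  simp only [ini]
  constructor
  · rintro (h1 | ⟨-, h1⟩)
    · exact absurd h1 (ne_of_adj h)
    · exact h1
  · exact fun h1 => Or.inr ⟨h.symm, h1⟩

variable [DecidableEq V]

theorem sw_cons_erase {x : V × Bool} {w : List (V × Bool)} (h : ini Γ x w) :
    Sw Γ w (x :: w.erase x) := by
  induction w with
  | nil => exact h.elim
  | cons y w ih =>
    rcases h with rfl | ⟨h1, h2⟩
    · rw [List.erase_cons_head]
      exact Sw.refl _
    · rw [List.erase_cons_tail (by simpa using (ne_of_adj h1).symm)]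
      exact ((ih h2).cons y).trans (Sw.swap y x _ h1.symm)

theorem Sw.erase {a b : List (V × Bool)} (h : Sw Γ a b) (x : V × Bool) (hx : H426Z.ini Γ x a) :
    Sw Γ (a.erase x) (b.erase x) := by
  induction h with
  | refl w => exact Sw.refl _
  | swap y z w h =>
    have hyz := ne_of_adj h
    by_cases h1 : y = x
    · subst h1
      rw [List.erase_cons_head, List.erase_cons_tail (by simpa using hyz.symm),
        List.erase_cons_head]
      exact Sw.refl _
    · by_cases h2 : z = x
      · subst h2
        rw [List.erase_cons_head, List.erase_cons_tail (by simpa using hyz),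
          List.erase_cons_head]
        exact Sw.refl _
      · rw [List.erase_cons_tail (by simpa using h1), List.erase_cons_tail (by simpa using h2),
          List.erase_cons_tail (by simpa using h2), List.erase_cons_tail (by simpa using h1)]
        exact Sw.swap y z _ h
  | cons y _ ih =>
    by_cases h1 : y = x
    · subst h1
      rw [List.erase_cons_head, List.erase_cons_head]
      assumption
    · rw [List.erase_cons_tail (by simpa using h1), List.erase_cons_tail (by simpa using h1)]
      rcases hx with h2 | ⟨-, h2⟩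
      · exact absurd h2 h1
      · exact (ih h2).cons y
  | trans h1 _ ih1 ih2 => exact (ih1 hx).trans (ih2 (h1.ini x hx))

variable (Γ)

open Classical in
/-- multiplying a reduced word by a letter -/
noncomputable def act (x : V × Bool) (w : List (V × Bool)) : List (V × Bool) :=
  if ini Γ (linv x) w then w.erase (linv x) else x :: w

variable {Γ}

theorem act_pos {x : V × Bool} {w : List (V × Bool)} (h : ini Γ (linv x) w) :
    act Γ x w = w.erase (linv x) := by
  unfold act
  rw [if_pos h]

theorem act_neg {x : V × Bool} {w : List (V × Bool)} (h : ¬ ini Γ (linv x) w) :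
    act Γ x w = x :: w := by
  unfold act
  rw [if_neg h]

theorem red_act (x : V × Bool) {w : List (V × Bool)} (h : Red Γ w) : Red Γ (act Γ x w) := by
  by_cases h1 : ini Γ (linv x) w
  · rw [act_pos h1]
    exact ((sw_cons_erase h1).red h).2
  · rw [act_neg h1]
    exact ⟨h1, h⟩

theorem Sw.act {a b : List (V × Bool)} (h : Sw Γ a b) (x : V × Bool) :
    Sw Γ (act Γ x a) (act Γ x b) := by
  by_cases h1 : H426Z.ini Γ (linv x) a
  · rw [act_pos h1, act_pos (h.ini _ h1)]
    exact h.erase _ h1
  · rw [act_neg h1, act_neg (fun h2 => h1 (h.symm.ini _ h2))]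
    exact h.cons x

theorem act_act (x : V × Bool) {w : List (V × Bool)} (h : Red Γ w) :
    Sw Γ (act Γ (linv x) (act Γ x w)) w := by
  by_cases h1 : ini Γ (linv x) w
  · rw [act_pos h1, act_neg ((sw_cons_erase h1).red h).1]
    exact (sw_cons_erase h1).symm
  · rw [act_neg h1, act_pos (by rw [linv_linv]; exact Or.inl rfl), linv_linv,
      List.erase_cons_head]
    exact Sw.refl _

theorem ini_act {x y : V × Bool} (h : Γ.Adj x.1 y.1) (w : List (V × Bool)) :
    ini Γ y (act Γ x w) ↔ ini Γ y w := by
  by_cases h1 : ini Γ (linv x) w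
  · rw [act_pos h1, (sw_cons_erase h1).ini_iff, ini_cons_adj (x := linv x) h]
  · rw [act_neg h1, ini_cons_adj h]

theorem act_comm {x y : V × Bool} (h : Γ.Adj x.1 y.1) (w : List (V × Bool)) :
    Sw Γ (act Γ x (act Γ y w)) (act Γ y (act Γ x w)) := by
  have e1 := ini_act (x := y) (y := linv x) h.symm w
  have e2 := ini_act (x := x) (y := linv y) h w
  by_cases h1 : ini Γ (linv x) w
  · by_cases h2 : ini Γ (linv y) w
    · rw [act_pos (e1.2 h1), act_pos (e2.2 h2), act_pos h1, act_pos h2, List.erase_comm]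
      exact Sw.refl _
    · rw [act_pos (e1.2 h1), act_neg (fun h3 => h2 (e2.1 h3)), act_pos h1, act_neg h2,
        List.erase_cons_tail (by simpa using ne_of_adj (x := y) (y := linv x) h.symm)]
      exact Sw.refl _
  · by_cases h2 : ini Γ (linv y) w
    · rw [act_neg (fun h3 => h1 (e1.1 h3)), act_pos (e2.2 h2), act_neg h1, act_pos h2,
        List.erase_cons_tail (by simpa using ne_of_adj (x := x) (y := linv y) h)]
      exact Sw.refl _
    · rw [act_neg (fun h3 => h1 (e1.1 h3)), act_neg (fun h3 => h2 (e2.1 h3)), act_neg h1,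
        act_neg h2]
      exact Sw.swap x y w h

variable (Γ)

/-- the setoid on reduced words -/
def swS : Setoid {w : List (V × Bool) // Red Γ w} where
  r a b := Sw Γ a.1 b.1
  iseqv := ⟨fun _ => Sw.refl _, Sw.symm, Sw.trans⟩

/-- classes of reduced words -/
def Om : Type := Quotient (swS Γ)

/-- the action on classes -/
noncomputable def actO (x : V × Bool) : Om Γ → Om Γ :=
  Quotient.map (fun w => ⟨act Γ x w.1, red_act x w.2⟩) (fun _ _ h => Sw.act h x)

theorem actO_actO (x : V × Bool) (w : Om Γ) : actO Γ (linv x) (actO Γ x w) = w := by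
  induction w using Quotient.inductionOn with
  | h w => exact Quotient.sound (act_act x w.2)

/-- the permutation attached to a vertex -/
noncomputable def tau (v : V) : Equiv.Perm (Om Γ) where
  toFun := actO Γ (v, false)
  invFun := actO Γ (v, true)
  left_inv w := actO_actO Γ (v, false) w
  right_inv w := actO_actO Γ (v, true) w

/-- the commutation relators -/
def rels : Set (FreeGroup V) :=
  {r | ∃ u v, Γ.Adj u v ∧ r = FreeGroup.of u * FreeGroup.of v * (FreeGroup.of u)⁻¹ * (FreeGroup.of v)⁻¹}

/-- the right-angled Artin group -/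
abbrev AG : Type := PresentedGroup (rels Γ)

/-- generators -/
def gen (v : V) : AG Γ := PresentedGroup.of v

omit [DecidableEq V] in
theorem gen_comm {u v : V} (h : Γ.Adj u v) : Commute (gen Γ u) (gen Γ v) := by
  have h1 : PresentedGroup.mk (rels Γ)
      (FreeGroup.of u * FreeGroup.of v * (FreeGroup.of u)⁻¹ * (FreeGroup.of v)⁻¹) = 1 :=
    PresentedGroup.one_of_mem ⟨u, v, h, rfl⟩
  simp only [map_mul, map_inv] at h1
  change gen Γ u * gen Γ v * (gen Γ u)⁻¹ * (gen Γ v)⁻¹ = 1 at h1
  rw [mul_inv_eq_one, mul_inv_eq_iff_eq_mul] at h1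
  exact h1

/-- the value of a letter -/
def val (x : V × Bool) : AG Γ := if x.2 then gen Γ x.1 else (gen Γ x.1)⁻¹

omit [DecidableEq V] in
@[simp] theorem val_true (v : V) : val Γ (v, true) = gen Γ v := rfl
omit [DecidableEq V] in
@[simp] theorem val_false (v : V) : val Γ (v, false) = (gen Γ v)⁻¹ := rfl

omit [DecidableEq V] in
theorem val_linv (x : V × Bool) : val Γ (linv x) = (val Γ x)⁻¹ := by
  obtain ⟨v, b⟩ := x
  cases b <;> simp [linv]

omit [DecidableEq V] in
theorem val_comm {x y : V × Bool} (h : Γ.Adj x.1 y.1) : Commute (val Γ x) (val Γ y) := by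
  obtain ⟨u, b⟩ := x
  obtain ⟨v, c⟩ := y
  have := gen_comm Γ h
  cases b <;> cases c <;> simp [this]

/-- the action of the group on classes of reduced words -/
noncomputable def phi : AG Γ →* Equiv.Perm (Om Γ) :=
  PresentedGroup.toGroup (f := tau Γ) (by
    rintro _ ⟨u, v, h, rfl⟩
    simp only [map_mul, map_inv, FreeGroup.lift_apply_of]
    rw [mul_inv_eq_one, mul_inv_eq_iff_eq_mul]
    ext w
    induction w using Quotient.inductionOn with
    | h w => exact Quotient.sound (act_comm (x := (u, false)) (y := (v, false)) h w.1))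

/-- the normal form -/
noncomputable def nf (g : AG Γ) : Om Γ := phi Γ g⁻¹ (Quotient.mk _ ⟨[], trivial⟩)

theorem nf_one : nf Γ 1 = Quotient.mk _ ⟨[], trivial⟩ := by simp [nf]

theorem nf_mul (g : AG Γ) (x : V × Bool) : nf Γ (g * val Γ x) = actO Γ x (nf Γ g) := by
  obtain ⟨v, b⟩ := x
  have : phi Γ (gen Γ v) = tau Γ v := PresentedGroup.toGroup.of _
  cases b
  · simp only [nf, val_false, mul_inv_rev, inv_inv, map_mul, this]
    rfl
  · simp only [nf, val_true, mul_inv_rev, map_mul, map_inv, this]
    rfl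

omit [DecidableEq V] in
theorem AG_ind {P : AG Γ → Prop} (h1 : P 1) (h2 : ∀ g x, P g → P (g * val Γ x)) (g : AG Γ) :
    P g := by
  have hg : g ∈ Subgroup.closure (Set.range (PresentedGroup.of (rels := rels Γ))) := by
    rw [PresentedGroup.closure_range_of]
    trivial
  induction hg using Subgroup.closure_induction_right with
  | one => exact h1
  | mul_right g _ y hy ih =>
    obtain ⟨v, rfl⟩ := hy
    exact h2 g (v, true) ih
  | mul_inv_cancel g _ y hy ih =>
    obtain ⟨v, rfl⟩ := hy
    exact h2 g (v, false) ih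

/-- a reduced word for `g` -/
noncomputable def wd (g : AG Γ) : List (V × Bool) := (nf Γ g).out.1

theorem wd_red (g : AG Γ) : Red Γ (wd Γ g) := (nf Γ g).out.2

theorem wd_one : wd Γ 1 = [] := by
  have h : Sw Γ (wd Γ 1) [] := by
    have := Quotient.out_eq (nf Γ 1)
    rw [nf_one] at this
    have h2 := Quotient.exact this
    unfold wd
    rw [nf_one]
    exact h2
  exact h.perm.eq_nil

theorem wd_mul (g : AG Γ) (x : V × Bool) : Sw Γ (wd Γ (g * val Γ x)) (act Γ x (wd Γ g)) := by
  have h1 := nf_mul Γ g x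
  rw [← Quotient.out_eq (nf Γ g), ← Quotient.out_eq (nf Γ (g * val Γ x))] at h1
  exact Quotient.exact h1

/-- the value of a word, read from the right -/
def ev : List (V × Bool) → AG Γ
  | [] => 1
  | x :: w => ev w * val Γ x

omit [DecidableEq V] in
theorem ev_sw {a b : List (V × Bool)} (h : Sw Γ a b) : ev Γ a = ev Γ b := by
  induction h with
  | refl w => rfl
  | swap y z w h =>
    simp only [ev, mul_assoc]
    rw [(val_comm Γ h).eq]
  | cons y _ ih => simp only [ev, ih]
  | trans _ _ ih1 ih2 => exact ih1.trans ih2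

theorem ev_wd (g : AG Γ) : ev Γ (wd Γ g) = g := by
  induction g using AG_ind with
  | h1 => rw [wd_one]; rfl
  | h2 g x ih =>
    rw [ev_sw Γ (wd_mul Γ g x)]
    by_cases h1 : ini Γ (linv x) (wd Γ g)
    · rw [act_pos h1]
      have := ev_sw Γ (sw_cons_erase h1)
      rw [ih, ev, val_linv] at this
      rw [eq_mul_inv_iff_mul_eq] at this
      exact this.symm
    · rw [act_neg h1, ev, ih]

theorem wd_ne_nil {g : AG Γ} (h : g ≠ 1) : wd Γ g ≠ [] := by
  intro h1
  have := ev_wd Γ g
  rw [h1] at this
  exact h this.symm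

/-- word length -/
noncomputable def len (g : AG Γ) : ℕ := (wd Γ g).length

/-- `g` ends with the letter `x` -/
def Desc (x : V × Bool) (g : AG Γ) : Prop := ini Γ x (wd Γ g)

/-- `g` starts with the letter `x` -/
def Fst (x : V × Bool) (g : AG Γ) : Prop := ini Γ x (wd Γ g).reverse

theorem eq_one_of_len {g : AG Γ} (h : len Γ g = 0) : g = 1 := by
  by_contra h1
  exact wd_ne_nil Γ h1 (List.length_eq_zero_iff.1 h)

theorem len_one : len Γ 1 = 0 := by simp [len, wd_one]

theorem len_down {g : AG Γ} {x : V × Bool} (h : Desc Γ (linv x) g) :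
    len Γ (g * val Γ x) + 1 = len Γ g := by
  have h1 := (wd_mul Γ g x).perm.length_eq
  have h2 := (sw_cons_erase h).perm.length_eq
  rw [act_pos h] at h1
  simp only [len, h1, h2, List.length_cons]

theorem len_up {g : AG Γ} {x : V × Bool} (h : ¬ Desc Γ (linv x) g) :
    len Γ (g * val Γ x) = len Γ g + 1 := by
  have h1 := (wd_mul Γ g x).perm.length_eq
  rw [act_neg h] at h1
  simp only [len, h1, List.length_cons]

theorem desc_up {g : AG Γ} {x : V × Bool} (h : ¬ Desc Γ (linv x) g) :
    Desc Γ x (g * val Γ x) := by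
  apply (wd_mul Γ g x).symm.ini
  rw [act_neg h]
  exact Or.inl rfl

theorem desc_down {g : AG Γ} {x : V × Bool} (h : Desc Γ (linv x) g) :
    ¬ Desc Γ x (g * val Γ x) := by
  intro h1
  have h2 := (wd_mul Γ g x).ini _ h1
  rw [act_pos h] at h2
  have h3 := ((sw_cons_erase h).red (wd_red Γ g)).1
  rw [linv_linv] at h3
  exact h3 h2

theorem desc_adj {g : AG Γ} {x y : V × Bool} (hx : Desc Γ x g) (hy : Desc Γ y g) (h : x ≠ y) :
    Γ.Adj x.1 y.1 := ini_adj hx hy h

theorem desc_par {x y : V × Bool} (h : Γ.Adj x.1 y.1) (g : AG Γ) :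
    Desc Γ y (g * val Γ x) ↔ Desc Γ y g :=
  ((wd_mul Γ g x).ini_iff y).trans (ini_act h _)

theorem exists_desc {g : AG Γ} (h : g ≠ 1) : ∃ x, Desc Γ x g := by
  obtain ⟨x, w, hw⟩ := List.exists_cons_of_ne_nil (wd_ne_nil Γ h)
  refine ⟨x, ?_⟩
  unfold Desc
  rw [hw]
  exact Or.inl rfl

theorem exists_fst {g : AG Γ} (h : g ≠ 1) : ∃ x, Fst Γ x g := by
  obtain ⟨x, w, hw⟩ := List.exists_cons_of_ne_nil
    (show (wd Γ g).reverse ≠ [] by simpa using wd_ne_nil Γ h)
  refine ⟨x, ?_⟩
  unfold Fst
  rw [hw]
  exact Or.inl rfl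

theorem fst_adj {g : AG Γ} {x y : V × Bool} (hx : Fst Γ x g) (hy : Fst Γ y g) (h : x ≠ y) :
    Γ.Adj x.1 y.1 := ini_adj hx hy h

theorem fst_up {g : AG Γ} {x y : V × Bool} (h : ¬ Desc Γ (linv x) g) (hy : Fst Γ y g) :
    Fst Γ y (g * val Γ x) := by
  apply (wd_mul Γ g x).symm.reverse.ini
  rw [act_neg h, List.reverse_cons]
  exact ini_append _ hy

theorem fst_down {g : AG Γ} {x y : V × Bool} (h : Desc Γ (linv x) g)
    (hy : Fst Γ y (g * val Γ x)) : Fst Γ y g := by
  have h1 := fst_up Γ (x := linv x) (by rw [linv_linv]; exact desc_down Γ h) hy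
  rwa [val_linv, mul_inv_cancel_right] at h1

theorem wd_letters (W : Set V) {g : AG Γ} (hg : g ∈ Subgroup.closure (gen Γ '' W)) :
    ∀ x ∈ wd Γ g, x.1 ∈ W := by
  have key : ∀ (g : AG Γ) (y : V × Bool), y.1 ∈ W → (∀ x ∈ wd Γ g, x.1 ∈ W) →
      ∀ x ∈ wd Γ (g * val Γ y), x.1 ∈ W := by
    intro g y hy ih x hx
    have h1 := (wd_mul Γ g y).perm.subset hx
    unfold act at h1
    split_ifs at h1
    · exact ih x (List.mem_of_mem_erase h1)
    · rcases List.mem_cons.1 h1 with rfl | h2
      · exact hy
      · exact ih x h2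
  induction hg using Subgroup.closure_induction_right with
  | one => simp [wd_one]
  | mul_right g _ y hy ih =>
    obtain ⟨v, hv, rfl⟩ := hy
    exact key g (v, true) hv ih
  | mul_inv_cancel g _ y hy ih =>
    obtain ⟨v, hv, rfl⟩ := hy
    exact key g (v, false) hv ih

theorem fst_mem (W : Set V) {g : AG Γ} (hg : g ∈ Subgroup.closure (gen Γ '' W)) {x : V × Bool}
    (hx : Fst Γ x g) : x.1 ∈ W :=
  wd_letters Γ W hg x (List.mem_reverse.1 (ini_mem hx))

end Pool.Agent.H426Z
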