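import Mathlib

/-! Building projective resolutions of the trivial module from explicit free partial resolutions,
and reading element-wise facts off an abstract one. -/

set_option autoImplicit false
open CategoryTheory CategoryTheory.Limits

namespace Pool.Agent.H426Z

/-- type `FP_n`, in the shape of the frozen statement -/
def IsFP (G : Type) [Group G] (n : ℕ) : Prop :=
  ∃ R : ProjectiveResolution (Rep.trivial ℤ G ℤ), ∀ k ≤ n,
    ∃ s : Finset (R.complex.X k).V, ∀ x : (R.complex.X k).V,
      x ∈ Submodule.span ℤ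
        (Set.range (fun p : G × s => (R.complex.X k).ρ p.1 (p.2 : (R.complex.X k).V)))

section general
variable {C : Type*} [Category C] [Abelian C] [EnoughProjectives C]

open ZeroObject

open Classical in
/-- next term: zero after a monomorphism, syzygies otherwise -/
noncomputable def nxt (S : ShortComplex C) : Σ' (X₃ : C) (d₂ : X₃ ⟶ S.X₁), d₂ ≫ S.f = 0 :=
  if Mono S.f then ⟨0, 0, by simp⟩ else ⟨Projective.syzygies S.f, Projective.d S.f, by simp [Projective.d]⟩

theorem nxt_proj (S : ShortComplex C) : Projective (nxt S).1 := by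
  unfold nxt
  split_ifs
  · exact (isZero_zero C).projective
  · exact Projective.projective_over _

theorem nxt_exact (S : ShortComplex C) : (ShortComplex.mk _ _ (nxt S).2.2).Exact := by
  have key : ∀ (T : Σ' (X₃ : C) (d₂ : X₃ ⟶ S.X₁), d₂ ≫ S.f = 0), T = nxt S →
      (ShortComplex.mk _ _ T.2.2).Exact := by
    intro T hT
    unfold nxt at hT
    split_ifs at hT with h
    · subst hT
      rw [ShortComplex.exact_iff_mono _ rfl]
      exact h
    · subst hT
      exact exact_d_f S.f
  exact key _ rfl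

theorem nxt_zero (S : ShortComplex C) (h : Mono S.f) : IsZero (nxt S).1 := by
  unfold nxt
  rw [if_pos h]
  exact isZero_zero C

set_option backward.isDefEq.respectTransparency false in
theorem exists_res {Z X0 X1 X2 : C} [Projective X0] [Projective X1] [Projective X2]
    (e : X0 ⟶ Z) (d1 : X1 ⟶ X0) (d2 : X2 ⟶ X1) (h0 : d1 ≫ e = 0) (h1 : d2 ≫ d1 = 0)
    [Epi e] (x0 : (ShortComplex.mk _ _ h0).Exact) (x1 : (ShortComplex.mk _ _ h1).Exact) :
    ∃ R : ProjectiveResolution Z, R.complex.X 0 = X0 ∧ R.complex.X 1 = X1 ∧ R.complex.X 2 = X2 ∧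
      (Mono d2 → IsZero (R.complex.X 3)) := by
  let K : ChainComplex C ℕ := ChainComplex.mk X0 X1 X2 d1 d2 h1 nxt
  have hex : ∀ n, (ChainComplex.mkAux X0 X1 X2 d1 d2 h1 nxt n).Exact := by
    intro n
    cases n with
    | zero => exact x1
    | succ n => exact nxt_exact _
  have hK : ∀ n, K.ExactAt (n + 1) := by
    intro n
    rw [HomologicalComplex.exactAt_iff' _ (n + 2) (n + 1) n (by simp) (by simp)]
    have := hex n
    rw [ChainComplex.mkAux_eq_shortComplex_mk_d_comp_d] at this
    exact this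
  have hp : ∀ n, Projective (K.X n) := by
    intro n
    obtain (_ | _ | _ | n) := n
    · exact inferInstanceAs (Projective X0)
    · exact inferInstanceAs (Projective X1)
    · exact inferInstanceAs (Projective X2)
    · exact nxt_proj (ChainComplex.mkAux X0 X1 X2 d1 d2 h1 nxt n)
  have hd : K.d 1 0 = d1 := ChainComplex.mk_d_1_0 _ _ _ _ _ _ _
  refine ⟨{ complex := K
            projective := hp
            π := (ChainComplex.toSingle₀Equiv _ _).symm ⟨e, by rw [hd]; exact h0⟩
            quasiIso := ⟨fun n => ?_⟩ }, rfl, rfl, rfl, fun h => nxt_zero (ShortComplex.mk _ _ h1) h⟩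
  cases n
  · rw [ChainComplex.quasiIsoAt₀_iff, ShortComplex.quasiIso_iff_of_zeros']
    · refine (ShortComplex.exact_and_epi_g_iff_of_iso ?_).2 ⟨x0, by dsimp; infer_instance⟩
      exact ShortComplex.isoMk (Iso.refl _) (Iso.refl _) (Iso.refl _)
        (by simp [hd]) (by simp)
    all_goals rfl
  · rw [quasiIsoAt_iff_exactAt']
    · apply hK
    · apply ChainComplex.exactAt_succ_single_obj

end general

section rep
variable {G : Type} [Group G]

section
attribute [local instance 10000] Rep.hV2

theorem rep_exact_iff {A B D : Rep.{0} ℤ G} (f : A ⟶ B) (g : B ⟶ D) (h : f ≫ g = 0) :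
    (ShortComplex.mk f g h).Exact ↔ ∀ y : B.V, g.hom y = 0 → ∃ x : A.V, f.hom x = y := by
  rw [← ShortComplex.exact_map_iff_of_faithful _ (forget₂ (Rep.{0} ℤ G) (ModuleCat ℤ)),
    ShortComplex.moduleCat_exact_iff]
  rfl

end

/-- the permutation representation on finitely supported integer functions -/
noncomputable def perm (G : Type) [Group G] (S : Type) [MulAction G S] :
    Representation ℤ G (S →₀ ℤ) where
  toFun g := Finsupp.lmapDomain ℤ ℤ (g • ·)
  map_one' := by ext; simp
  map_mul' x y := by ext; simp [mul_smul]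

@[simp] theorem perm_single {S : Type} [MulAction G S] (g : G) (s : S) (n : ℤ) :
    perm G S g (Finsupp.single s n) = Finsupp.single (g • s) n := by
  simp [perm]

theorem perm_apply {S : Type} [MulAction G S] (g : G) (x : S →₀ ℤ) :
    perm G S g x = Finsupp.mapDomain (g • ·) x := rfl

section
attribute [local instance 10000] Rep.hV2

theorem perm_projective {S : Type} [MulAction G S] (hfree : ∀ (g : G) (s : S), g • s = s → g = 1) :
    Projective (Rep.of (perm G S)) := by
  classical
  refine ⟨fun {E X} f e he => ?_⟩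
  have hs : Function.Surjective e.hom := (Rep.epi_iff_surjective e).1 he
  let rep : S → S := fun s => (Quotient.mk (MulAction.orbitRel G S) s).out
  have hrep : ∀ s, ∃ g : G, g • rep s = s := by
    intro s
    have : (MulAction.orbitRel G S) s (rep s) :=
      (MulAction.orbitRel G S).symm (Quotient.mk_out (s := MulAction.orbitRel G S) s)
    rw [MulAction.orbitRel_apply] at this
    exact this
  choose γ hγ using hrep
  have hrep2 : ∀ (g : G) s, rep (g • s) = rep s := by
    intro g s
    have : Quotient.mk (MulAction.orbitRel G S) (g • s) = Quotient.mk _ s :=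
      Quotient.sound (MulAction.orbitRel_apply.2 ⟨g, rfl⟩)
    simp only [rep, this]
  have hγ2 : ∀ (g : G) s, γ (g • s) = g * γ s := by
    intro g s
    have h1 : (γ (g • s))⁻¹ * (g * γ s) = 1 := by
      apply hfree _ (rep s)
      rw [mul_smul, mul_smul, hγ, inv_smul_eq_iff, ← hrep2 g s, hγ]
    rw [inv_mul_eq_one] at h1
    exact h1
  choose pre hpre using fun s : S => hs (f.hom (Finsupp.single s 1))
  let l : (S →₀ ℤ) →ₗ[ℤ] E.V := Finsupp.linearCombination ℤ (fun s => E.ρ (γ s) (pre (rep s)))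
  have hl : ∀ s, l (Finsupp.single s 1) = E.ρ (γ s) (pre (rep s)) := by
    intro s
    simp only [l, Finsupp.linearCombination_single]
    exact @one_smul ℤ E.V _ E.hV2.toDistribMulAction.toMulAction _
  refine ⟨Rep.ofHom ⟨l, fun g => ?_⟩, ?_⟩
  · apply Finsupp.lhom_ext'
    intro s
    ext
    simp only [LinearMap.comp_apply, Finsupp.lsingle_apply, perm_single, hl, hγ2, hrep2, map_mul,
      Module.End.mul_apply]
  · apply Rep.hom_ext
    apply Representation.IntertwiningMap.ext
    apply Finsupp.lhom_ext'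
    intro s
    ext
    change e.hom (l (Finsupp.single s 1)) = f.hom (Finsupp.single s 1)
    rw [hl, Rep.hom_comm_apply, hpre, ← Rep.hom_comm_apply]
    change f.hom (perm G S (γ s) (Finsupp.single (rep s) 1)) = _
    rw [perm_single, hγ]

end

theorem perm_fg {S : Type} [MulAction G S] (T : Finset S) (hT : ∀ s : S, ∃ g : G, ∃ t ∈ T, g • t = s) :
    ∃ s : Finset (S →₀ ℤ), ∀ x : S →₀ ℤ,
      x ∈ Submodule.span ℤ (Set.range (fun p : G × s => perm G S p.1 (p.2 : S →₀ ℤ))) := by
  classical
  refine ⟨T.image (fun t => Finsupp.single t 1), fun x => ?_⟩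
  induction x using Finsupp.induction_linear with
  | zero => exact zero_mem _
  | add a b ha hb => exact add_mem ha hb
  | single s n =>
    obtain ⟨g, t, ht, rfl⟩ := hT s
    have : (Finsupp.single (g • t) n : S →₀ ℤ) = n • perm G S g (Finsupp.single t 1) := by simp
    rw [this]
    exact Submodule.smul_mem _ _ (Submodule.subset_span
      ⟨(g, ⟨_, Finset.mem_image_of_mem _ ht⟩), rfl⟩)

/-- the augmentation -/
noncomputable def aug (S : Type) : (S →₀ ℤ) →ₗ[ℤ] ℤ := Finsupp.lift ℤ ℤ S (fun _ => 1)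

@[simp] theorem aug_single {S : Type} (s : S) (n : ℤ) : aug S (Finsupp.single s n) = n := by
  simp [aug]

/-- free action with finitely many orbits -/
def FreeFin (G : Type) [Group G] (S : Type) [MulAction G S] : Prop :=
  (∀ (g : G) (s : S), g • s = s → g = 1) ∧ ∃ T : Finset S, ∀ s : S, ∃ g : G, ∃ t ∈ T, g • t = s

theorem isFP_of_explicit {S0 S1 S2 : Type} [MulAction G S0] [MulAction G S1] [MulAction G S2]
    [Nonempty S0] (f0 : FreeFin G S0) (f1 : FreeFin G S1) (f2 : FreeFin G S2)
    (d1 : (S1 →₀ ℤ) →ₗ[ℤ] (S0 →₀ ℤ)) (d2 : (S2 →₀ ℤ) →ₗ[ℤ] (S1 →₀ ℤ))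
    (e1 : ∀ g x, d1 (perm G S1 g x) = perm G S0 g (d1 x))
    (e2 : ∀ g x, d2 (perm G S2 g x) = perm G S1 g (d2 x))
    (h0 : ∀ x, aug S0 (d1 x) = 0) (h1 : ∀ x, d1 (d2 x) = 0)
    (x0 : ∀ y, aug S0 y = 0 → ∃ x, d1 x = y) (x1 : ∀ y, d1 y = 0 → ∃ x, d2 x = y) :
    IsFP G 2 ∧ (Function.Injective d2 → IsFP G 3) := by
  haveI := perm_projective f0.1
  haveI := perm_projective f1.1
  haveI := perm_projective f2.1
  let e : Rep.of (perm G S0) ⟶ Rep.trivial ℤ G ℤ := Rep.ofHom ⟨aug S0, fun g => by
    apply Finsupp.lhom_ext'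
    intro s
    ext
    simp⟩
  let D1 : Rep.of (perm G S1) ⟶ Rep.of (perm G S0) := Rep.ofHom ⟨d1, fun g => by
    ext1 x
    ext1
    simp only [LinearMap.comp_apply, e1]⟩
  let D2 : Rep.of (perm G S2) ⟶ Rep.of (perm G S1) := Rep.ofHom ⟨d2, fun g => by
    ext1 x
    ext1
    simp only [LinearMap.comp_apply, e2]⟩
  have H0 : D1 ≫ e = 0 := by
    apply Rep.hom_ext
    apply Representation.IntertwiningMap.ext
    exact LinearMap.ext h0
  have H1 : D2 ≫ D1 = 0 := by
    apply Rep.hom_ext
    apply Representation.IntertwiningMap.ext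
    exact LinearMap.ext h1
  haveI : Epi e := (Rep.epi_iff_surjective e).2 (fun n =>
    ⟨Finsupp.single (Classical.arbitrary S0) n, aug_single _ _⟩)
  obtain ⟨R, r0, r1, r2, r3⟩ := exists_res e D1 D2 H0 H1 ((rep_exact_iff _ _ _).2 x0)
    ((rep_exact_iff _ _ _).2 x1)
  have key : ∀ k ≤ 2, ∃ s : Finset (R.complex.X k).V, ∀ x : (R.complex.X k).V,
      x ∈ Submodule.span ℤ
        (Set.range (fun p : G × s => (R.complex.X k).ρ p.1 (p.2 : (R.complex.X k).V))) := by
    intro k hk
    obtain (_ | _ | _ | k) := k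
    · rw [r0]
      obtain ⟨T, hT⟩ := f0.2
      exact perm_fg T hT
    · rw [show (0 + 1 : ℕ) = 1 from rfl, r1]
      obtain ⟨T, hT⟩ := f1.2
      exact perm_fg T hT
    · rw [show (0 + 1 + 1 : ℕ) = 2 from rfl, r2]
      obtain ⟨T, hT⟩ := f2.2
      exact perm_fg T hT
    · omega
  refine ⟨⟨R, key⟩, fun hinj => ⟨R, fun k hk => ?_⟩⟩
  rcases Nat.lt_or_ge k 3 with h | h
  · exact key k (by omega)
  · have hk3 : k = 3 := by omega
    subst hk3
    have hz := (Rep.isZero_iff _ _ _).1 (r3 ((Rep.mono_iff_injective D2).2 hinj))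
    refine ⟨∅, fun x => ?_⟩
    rw [Subsingleton.elim x 0]
    exact zero_mem _

end rep

end Pool.Agent.H426Z
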