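import Pool.Agent.H426Z.Cube

/-! The slab of heights `0, 1, 2` in the cube complex is acyclic when the flag complex is. -/

set_option autoImplicit false

namespace Pool.Agent.H426Z

open Finset

variable {V : Type} (Γ : SimpleGraph V)

/-- the height homomorphism -/
def chi : AG Γ →* Multiplicative ℤ :=
  PresentedGroup.toGroup (f := fun _ => Multiplicative.ofAdd 1) (by
    rintro _ ⟨u, v, -, rfl⟩
    simp)

/-- the height -/
def ht (g : AG Γ) : ℤ := (chi Γ g).toAdd

@[simp] theorem ht_mul (a b : AG Γ) : ht Γ (a * b) = ht Γ a + ht Γ b := by simp [ht]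
@[simp] theorem ht_inv (a : AG Γ) : ht Γ a⁻¹ = - ht Γ a := by simp [ht]
@[simp] theorem ht_one : ht Γ 1 = 0 := by simp [ht]
@[simp] theorem ht_gen (v : V) : ht Γ (gen Γ v) = 1 := by
  have : chi Γ (gen Γ v) = Multiplicative.ofAdd 1 := PresentedGroup.toGroup.of _
  simp [ht, this]
@[simp] theorem ht_pow (a : AG Γ) (n : ℕ) : ht Γ (a ^ n) = n * ht Γ a := by simp [ht]
@[simp] theorem ht_zpow (a : AG Γ) (n : ℤ) : ht Γ (a ^ n) = n * ht Γ a := by simp [ht]

theorem ht_Pd (τ : Finset V) : ht Γ (Pd Γ τ) = τ.card := by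
  have key : ∀ l : List V, ht Γ (l.map (gen Γ)).prod = l.length := by
    intro l
    induction l with
    | nil => simp
    | cons a l ih =>
      rw [List.map_cons, List.prod_cons, ht_mul, ih, ht_gen, List.length_cons]
      push_cast
      ring
  unfold Pd
  rw [key, length_toList]

/-- height as a Morse function -/
def Mup : Morse Γ where
  f := ht Γ
  o _ _ := True
  up g v _ := by simp
  down g v h := absurd trivial h
  par _ _ _ _ := Iff.rfl
  nomax _ _ _ := trivial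

/-- minus height as a Morse function -/
def Mdown : Morse Γ where
  f g := - ht Γ g
  o _ _ := False
  up g v h := h.elim
  down g v _ := by simp
  par _ _ _ _ := Iff.rfl
  nomax _ _ h := h

theorem Mup_top (b : AG Γ) (σ : Finset V) :
    (Mup Γ).f ((Mup Γ).top (b, σ)) = ht Γ b + σ.card := by
  have : (Mup Γ).ups b σ = σ := by
    ext v
    rw [Morse.mem_ups]
    simp [Mup]
  unfold Morse.top
  simp only
  rw [this]
  change ht Γ _ = _
  rw [ht_mul, ht_Pd]

theorem Mdown_ups (b : AG Γ) (σ : Finset V) : (Mdown Γ).ups b σ = ∅ := by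
  ext v
  rw [Morse.mem_ups]
  simp [Mdown]

theorem Mdown_top (b : AG Γ) (σ : Finset V) :
    (Mdown Γ).f ((Mdown Γ).top (b, σ)) = - ht Γ b := by
  unfold Morse.top
  simp only
  rw [Mdown_ups]
  simp [Mdown]

variable [LinearOrder V]

/-- word length as a Morse function -/
noncomputable def Mlen : Morse Γ where
  f g := len Γ g
  o g v := ¬ Desc Γ (v, false) g
  up g v h := by
    have := len_up Γ (x := (v, true)) h
    rw [val_true] at this
    rw [this]
    push_cast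
    rfl
  down g v h := by
    have := len_down Γ (x := (v, true)) (not_not.1 h)
    rw [val_true] at this
    rw [← this]
    push_cast
    rfl
  par g u v h := not_congr (desc_par Γ (x := (u, true)) (y := (v, false)) h g)
  nomax g v h := fun h2 =>
    Γ.irrefl (desc_adj Γ (x := (v, true)) (y := (v, false)) (desc_up Γ (x := (v, true)) h) h2
      (by simp))

/-- all cubes -/
def Uall : Set (Cell Γ) := {c | Clq Γ c.2}

theorem closed_Uall : Morse.Closed (Uall Γ) where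
  clq _ h := h
  face _ _ h _ _ := ⟨Clq.mono Γ h (erase_subset _ _), Clq.mono Γ h (erase_subset _ _)⟩

theorem Mlen_desc {g : AG Γ} {v : V} (h : v ∈ (Mlen Γ).W g) : ∃ b, Desc Γ (v, b) g := by
  by_cases h1 : Desc Γ (v, false) g
  · exact ⟨false, h1⟩
  · refine ⟨true, ?_⟩
    have h2 : ¬ Desc Γ (v, false) (g * (gen Γ v)⁻¹) := h.2 h1
    have := desc_up Γ (x := (v, true)) h2
    rwa [val_true, inv_mul_cancel_right] at this

theorem Mlen_W {g : AG Γ} {x : V × Bool} (h : Desc Γ x g) : x.1 ∈ (Mlen Γ).W g := by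
  obtain ⟨v, b⟩ := x
  have hn := (Mlen Γ).nomax (g * (gen Γ v)⁻¹) v
  rw [inv_mul_cancel_right] at hn
  cases b
  · exact ⟨hn, fun h1 => absurd h h1⟩
  · exact ⟨hn, fun _ => desc_down Γ (x := (v, false)) h⟩

theorem Mlen_good (g : AG Γ) (hg : 0 < (Mlen Γ).f g) : (Mlen Γ).Good (Uall Γ) g := by
  refine ⟨fun σ hσ => hσ.1, ?_⟩
  have h1 : g ≠ 1 := by
    rintro rfl
    simp [Mlen, len_one] at hg
  obtain ⟨x, hx⟩ := exists_desc Γ h1
  refine ⟨cone x.1, fun σ hσ => ⟨?_, sb_cone _ _⟩⟩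
  rw [cone_single]
  split_ifs
  · exact zero_mem _
  · apply Submodule.smul_mem
    have hW : ∀ v ∈ insert x.1 σ, v ∈ (Mlen Γ).W g := by
      intro v hv
      rcases mem_insert.1 hv with rfl | hv
      · exact Mlen_W Γ hx
      · exact hσ.2 v hv
    refine Finsupp.single_mem_supported _ _ ⟨?_, hW⟩
    intro u hu v hv huv
    obtain ⟨b, hb⟩ := Mlen_desc Γ (hW u hu)
    obtain ⟨c, hc⟩ := Mlen_desc Γ (hW v hv)
    exact desc_adj Γ hb hc (fun h => huv (congrArg Prod.fst h))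

theorem all_exact {z : Cell Γ →₀ ℤ} (hz : z ∈ Finsupp.supported ℤ ℤ (Uall Γ)) (hd : cb Γ z = 0) :
    ∃ (n : ℤ), ∃ w ∈ Finsupp.supported ℤ ℤ (Uall Γ),
      z = n • Finsupp.single (1, ∅) 1 + cb Γ w := by
  obtain ⟨y, hy, w, hw, e⟩ := (Mlen Γ).descend (closed_Uall Γ) 0 (Mlen_good Γ) hz
    (by rw [hd]; exact zero_mem _)
  have : y ∈ Submodule.span ℤ {(Finsupp.single (1, ∅) 1 : Cell Γ →₀ ℤ)} := by
    refine map_mem_of_supp LinearMap.id _ ?_ hy
    rintro ⟨b, σ⟩ ⟨hc, hn⟩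
    have hc' : Clq Γ σ := hc
    have h1 : (Mlen Γ).top (b, σ) = 1 := by
      apply eq_one_of_len
      have : (len Γ ((Mlen Γ).top (b, σ)) : ℤ) ≤ 0 := hn
      omega
    have h2 : σ = ∅ := by
      apply eq_empty_of_forall_notMem
      intro v hv
      obtain ⟨c, hc⟩ := Mlen_desc Γ ((Mlen Γ).top_aux hc' hv).2
      rw [h1] at hc
      unfold Desc at hc
      rw [wd_one] at hc
      exact hc
    subst h2
    have h3 : b = 1 := by
      have : (Mlen Γ).ups b ∅ = ∅ := subset_empty.1 ((Mlen Γ).ups_sub _ _)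
      unfold Morse.top at h1
      simpa [this] using h1
    subst h3
    exact Submodule.mem_span_singleton_self _
  obtain ⟨n, rfl⟩ := Submodule.mem_span_singleton.1 this
  exact ⟨n, w, hw, e⟩

/-- the flag complex is acyclic of dimension at most two -/
structure Acyc : Prop where
  dim : ∀ σ, Clq Γ σ → σ.card ≤ 3
  con : ∃ c : (Finset V →₀ ℤ) →ₗ[ℤ] (Finset V →₀ ℤ), ∀ σ, Clq Γ σ →
    c (Finsupp.single σ 1) ∈ Finsupp.supported ℤ ℤ {τ | Clq Γ τ} ∧
    sb (c (Finsupp.single σ 1)) + c (sb (Finsupp.single σ 1)) = Finsupp.single σ 1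

/-- cubes below height two -/
def Ulow : Set (Cell Γ) := {c | Clq Γ c.2 ∧ ht Γ c.1 + c.2.card ≤ 2}

/-- the slab -/
def Slab : Set (Cell Γ) := {c | Clq Γ c.2 ∧ ht Γ c.1 + c.2.card ≤ 2 ∧ 0 ≤ ht Γ c.1}

theorem closed_Ulow : Morse.Closed (Ulow Γ) where
  clq _ h := h.1
  face b σ h v hv := by
    have h1 := card_erase_add_one hv
    have h2 : ht Γ b + σ.card ≤ 2 := h.2
    refine ⟨⟨Clq.mono Γ h.1 (erase_subset _ _), ?_⟩, ⟨Clq.mono Γ h.1 (erase_subset _ _), ?_⟩⟩
    · simp only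
      omega
    · simp only [ht_mul, ht_gen]
      omega

omit [LinearOrder V] in
theorem Fup : (Mup Γ).F (Uall Γ) 2 = Finsupp.supported ℤ ℤ (Ulow Γ) := by
  unfold Morse.F
  congr 1
  ext ⟨b, σ⟩
  simp only [Set.mem_ofPred_eq, Mup_top]
  rfl

omit [LinearOrder V] in
theorem Fdown : (Mdown Γ).F (Ulow Γ) 0 = Finsupp.supported ℤ ℤ (Slab Γ) := by
  unfold Morse.F
  congr 1
  ext ⟨b, σ⟩
  simp only [Set.mem_ofPred_eq, Mdown_top, Ulow, Slab, and_assoc, neg_nonpos]

theorem slab_exact (hA : Acyc Γ) {z : Cell Γ →₀ ℤ} (hz : z ∈ Finsupp.supported ℤ ℤ (Slab Γ))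
    (hd : cb Γ z = 0) : ∃ (n : ℤ), ∃ w ∈ Finsupp.supported ℤ ℤ (Slab Γ),
      z = n • Finsupp.single (1, ∅) 1 + cb Γ w := by
  obtain ⟨c, hc⟩ := hA.con
  have s1 : Finsupp.supported ℤ ℤ (Slab Γ) ≤ Finsupp.supported ℤ ℤ (Ulow Γ) :=
    Finsupp.supported_mono (fun _ h => ⟨h.1, h.2.1⟩)
  have s2 : Finsupp.supported ℤ ℤ (Ulow Γ) ≤ Finsupp.supported ℤ ℤ (Uall Γ) :=
    Finsupp.supported_mono (fun _ h => h.1)
  obtain ⟨n, w1, hw1, e1⟩ := all_exact Γ (s2 (s1 hz)) hd
  have hb : cb Γ w1 ∈ Finsupp.supported ℤ ℤ (Slab Γ) := by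
    rw [← sub_eq_iff_eq_add'] at e1
    rw [← e1]
    refine sub_mem hz (Submodule.smul_mem _ _ (Finsupp.single_mem_supported _ _ ?_))
    refine ⟨by simp [Clq], by simp, by simp⟩
  have hDup : ∀ g, (Mup Γ).DL g = {τ | Clq Γ τ} := by
    intro g
    ext τ
    simp [Morse.DL, Morse.W, Mup]
  have hDdown : ∀ g, (Mdown Γ).DL g = {τ | Clq Γ τ} := by
    intro g
    ext τ
    simp [Morse.DL, Morse.W, Mdown]
  obtain ⟨w2, hw2, u2, hu2, e2⟩ := (Mup Γ).descend (closed_Uall Γ) 2 (fun g _ =>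
    ⟨fun σ hσ => hσ.1, c, by rw [hDup]; exact hc⟩) hw1 (by rw [Fup]; exact s1 hb)
  rw [Fup] at hw2
  have e3 : cb Γ w1 = cb Γ w2 := by
    rw [e2, map_add, cb_cb Γ hu2, add_zero]
  obtain ⟨w3, hw3, u3, hu3, e4⟩ := (Mdown Γ).descend (closed_Ulow Γ) 0 (fun g hg =>
    ⟨fun σ hσ => ⟨hσ.1, by
      have h1 := hA.dim σ hσ.1
      have h2 : 0 < - ht Γ g := hg
      simp only [Morse.base, Mdown_ups, Pd_empty, inv_one, mul_one]
      omega⟩, c, by rw [hDdown]; exact hc⟩) hw2 (by rw [Fdown, ← e3]; exact hb)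
  rw [Fdown] at hw3
  refine ⟨n, w3, hw3, ?_⟩
  rw [e1, e3, e4, map_add, cb_cb Γ (s2 hu3), add_zero]

/-- the part of a chain of a given dimension -/
noncomputable def deg (k : ℕ) : (Cell Γ →₀ ℤ) →ₗ[ℤ] (Cell Γ →₀ ℤ) :=
  Finsupp.linearCombination ℤ (fun c => if c.2.card = k then Finsupp.single c 1 else 0)

omit [LinearOrder V] in
theorem deg_single (k : ℕ) (c : Cell Γ) :
    deg Γ k (Finsupp.single c 1) = if c.2.card = k then Finsupp.single c 1 else 0 := by
  simp only [deg, Finsupp.linearCombination_single, one_smul]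

theorem deg_cb (k : ℕ) (w : Cell Γ →₀ ℤ) : deg Γ k (cb Γ w) = cb Γ (deg Γ (k + 1) w) := by
  refine map_eq_of_supp (s := Set.univ) (deg Γ k ∘ₗ cb Γ) (cb Γ ∘ₗ deg Γ (k + 1)) ?_
    (by simp)
  rintro ⟨b, σ⟩ -
  simp only [LinearMap.comp_apply]
  rw [deg_single]
  split_ifs with h
  · rw [cb_single, map_sum]
    apply sum_congr rfl
    intro v hv
    have h1 := card_erase_add_one hv
    simp only at h
    rw [map_smul, map_sub, deg_single, deg_single, if_pos (by simp only; omega),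
      if_pos (by simp only; omega)]
  · rw [cb_single, map_sum, map_zero]
    apply sum_eq_zero
    intro v hv
    have h1 := card_erase_add_one hv
    simp only at h
    rw [map_smul, map_sub, deg_single, deg_single, if_neg (by simp only; omega),
      if_neg (by simp only; omega)]
    simp

/-- cubes of the slab of a given dimension -/
def SlabK (k : ℕ) : Set (Cell Γ) := {c | c ∈ Slab Γ ∧ c.2.card = k}

theorem slab_exact_deg (hA : Acyc Γ) (k : ℕ) {z : Cell Γ →₀ ℤ}
    (hz : z ∈ Finsupp.supported ℤ ℤ (SlabK Γ k)) (hd : cb Γ z = 0) :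
    ∃ (n : ℤ), ∃ w ∈ Finsupp.supported ℤ ℤ (SlabK Γ (k + 1)),
      z = (if k = 0 then n else 0) • Finsupp.single (1, ∅) 1 + cb Γ w := by
  obtain ⟨n, w, hw, e⟩ := slab_exact Γ hA (Finsupp.supported_mono (fun _ h => h.1) hz) hd
  refine ⟨n, deg Γ (k + 1) w, ?_, ?_⟩
  · refine map_mem_of_supp _ _ ?_ hw
    intro c hc
    rw [deg_single]
    split_ifs with h
    · exact Finsupp.single_mem_supported _ _ ⟨hc, h⟩
    · exact zero_mem _
  · have h1 : deg Γ k z = z := by
      refine map_eq_of_supp (deg Γ k) LinearMap.id ?_ hz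
      intro c hc
      rw [deg_single, if_pos hc.2]
      rfl
    rw [← h1, e, map_add, deg_cb, map_smul, deg_single]
    congr 1
    by_cases hk : k = 0
    · subst hk
      simp
    · rw [if_neg (by simpa using fun h => hk h.symm), if_neg hk]
      simp

end Pool.Agent.H426Z
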